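import Pool.Agent.W711.KC.Main

/-!
# Partial hyperbolicity, and the center bundle is not holomorphic
-/

set_option autoImplicit false

open scoped Manifold ContDiff Topology MatrixGroups UpperHalfPlane
open Set Filter

namespace Pool.Agent.W711.KC

open Pool.Agent.H85R3

theorem continuous_of_span {F : ∀ x : QQ GG, Submodule ℂ (TangentSpace 𝓘(ℂ, C3) x)}
    {B : C3 → Submodule ℂ C3} {s : C3 → C3} (hF : ∀ q, F q = B (chartAt C3 q q))
    (hB : ∀ p, B p = Submodule.span ℂ {s p}) (hs : ContinuousOn s Up) (hs0 : ∀ p, s p ≠ 0)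
    (hmap : ∀ (D : C3 →L[ℂ] C3) (p p' : C3) (a b c : ℂ), Compat D p p' a b c →
      (B p).map D.toLinearMap = B p') : IsContinuousSubbundle F := by
  intro x₀
  refine ⟨(chartAt C3 x₀).source, (chartAt C3 x₀).open_source, mem_chart_source C3 x₀, 1,
    fun _ q => vec x₀ s q, fun _ => continuousOn_vec x₀ hs, fun x hx => ?_⟩
  obtain ⟨a, b, c, h⟩ := compat_coord hx
  have e1 : vec x₀ s x = tangentCoordChange 𝓘(ℂ, C3) x₀ x x (s (chartAt C3 x₀ x)) := vec_eq x₀ s hx
  have e2 := hmap _ _ _ _ _ _ h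
  rw [hB, Submodule.map_span, Set.image_singleton] at e2
  have e3 : F x = Submodule.span ℂ {vec x₀ s x} := by
    rw [hF, ← e2, e1]
    rfl
  constructor
  · refine LinearIndependent.of_subsingleton (0 : Fin 1) ?_
    intro h0
    change vec x₀ s x = 0 at h0
    rw [e1] at h0
    exact hs0 _ (h.injective (h0.trans (map_zero _).symm))
  · rw [e3]
    congr 1
    ext v
    simp

theorem ss_ne (p : C3) : ss p ≠ 0 := fun h => by simp [ss, Prod.ext_iff] at h
theorem su_ne (p : C3) : su p ≠ 0 := fun h => by simp [su, Prod.ext_iff] at h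
theorem sc_ne (p : C3) : sc p ≠ 0 := fun h => by simp [sc, Prod.ext_iff] at h

theorem continuous_Es : IsContinuousSubbundle EsQ :=
  continuous_of_span (B := Bs) (s := ss) (fun _ => rfl) Bs_eq continuousOn_const
    ss_ne fun _ _ _ _ _ _ h => h.map_Bs

theorem continuous_Eu : IsContinuousSubbundle EuQ :=
  continuous_of_span (B := Bu) (s := su) (fun _ => rfl) Bu_eq continuousOn_const
    su_ne fun _ _ _ _ _ _ h => h.map_Bu

theorem continuous_Ec : IsContinuousSubbundle EcQ := by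
  refine continuous_of_span (B := Bc) (s := sc) (fun _ => rfl) Bc_eq ?_
    sc_ne fun _ _ _ _ _ _ h => h.map_Bc
  have hd : ContinuousOn (fun p : C3 => p.1.im) Up :=
    (Complex.continuous_im.comp continuous_fst).continuousOn
  have h1 : ContinuousOn (fun p : C3 => p.2.1.im) Up :=
    (Complex.continuous_im.comp (continuous_fst.comp continuous_snd)).continuousOn
  have h2 : ContinuousOn (fun p : C3 => p.2.2.im) Up :=
    (Complex.continuous_im.comp (continuous_snd.comp continuous_snd)).continuousOn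
  have h0 : ∀ p ∈ (Up : Set C3), p.1.im ≠ 0 := fun p hp => (mem_Up.1 hp).ne'
  exact continuousOn_const.prodMk
    ((Complex.continuous_ofReal.comp_continuousOn (h1.div hd h0)).prodMk
      (Complex.continuous_ofReal.comp_continuousOn (h2.div hd h0)))

/-- the derivative of the automorphism. -/
theorem compat_f (q : QQ GG) : ∃ j : ℂ, j ≠ 0 ∧
    (chartAt C3 (fmap 1 q) (fmap 1 q)).1.im = (chartAt C3 q q).1.im / Complex.normSq j ∧
    Compat (mfderiv 𝓘(ℂ, C3) 𝓘(ℂ, C3) (fmap 1) q) (chartAt C3 q q)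
      (chartAt C3 (fmap 1 q) (fmap 1 q)) (1 / j ^ 2) ((3 + 2 * √2 : ℝ) / j)
      ((3 - 2 * √2 : ℝ) / j) := by
  obtain ⟨γ, hγ, h1, h2⟩ := mfderiv_desc (Fs (1 : ℤ)) (norm_Fs 1) q
  have hp := chart_self_mem q
  have hF : ex (Fs ((1 : ℤ) : ℝ)) (chartAt C3 q q) = Fl ((1 : ℤ) : ℝ) (chartAt C3 q q) :=
    ex_Fs_eq _ hp
  rw [hF] at h1 h2
  have hp' : Fl ((1 : ℤ) : ℝ) (chartAt C3 q q) ∈ Up := hp
  obtain ⟨j, hj, him, hc⟩ := compat_deck hγ hp'
  rw [fderiv_ex_Fs _ hp] at h2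
  have him0 : (chartAt C3 q q).1.im ≠ 0 := (mem_Up.1 hp).ne'
  have u1 : ((3 + 2 * √2 : ℝ) : ℂ) ≠ 0 := by
    have : (3 + 2 * √2 : ℝ) ≠ 0 := by positivity
    exact_mod_cast this
  have u2 : ((3 - 2 * √2 : ℝ) : ℂ) ≠ 0 := by
    have h := unit_eq 1 (by norm_num)
    have : (3 - 2 * √2 : ℝ) ≠ 0 := by
      intro h0
      rw [mul_one] at h
      rw [h0, mul_zero] at h
      exact zero_ne_one h
    exact_mod_cast this
  refine ⟨j, hj, ?_, ?_⟩
  · change (chartAt C3 (desc _ _ q) (desc _ _ q)).1.im = _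
    rw [← h1, him]
    rfl
  · change Compat (mfderiv 𝓘(ℂ, C3) 𝓘(ℂ, C3) (desc _ _) q : C3 →L[ℂ] C3) (chartAt C3 q q)
      (chartAt C3 (desc _ _ q) (desc _ _ q)) _ _ _
    rw [h2, ← h1]
    have lin1 : ∀ v : C3, w1 (Fl ((1 : ℤ) : ℝ) (chartAt C3 q q)) (Fl ((1 : ℤ) : ℝ) v) =
        ((3 + 2 * √2 : ℝ) : ℂ) * w1 (chartAt C3 q q) v := by
      intro v
      simp only [w1, Fl_apply, Complex.im_ofReal_mul]
      push_cast
      ring
    have lin2 : ∀ v : C3, w2 (Fl ((1 : ℤ) : ℝ) (chartAt C3 q q)) (Fl ((1 : ℤ) : ℝ) v) =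
        ((3 - 2 * √2 : ℝ) : ℂ) * w2 (chartAt C3 q q) v := by
      intro v
      simp only [w2, Fl_apply, Complex.im_ofReal_mul]
      push_cast
      ring
    refine ⟨div_ne_zero one_ne_zero (pow_ne_zero 2 hj), div_ne_zero u1 hj, div_ne_zero u2 hj,
      fun v => ?_, fun v => ?_, fun v => ?_⟩
    · rw [ContinuousLinearMap.comp_apply, hc.h1]
      rfl
    · rw [ContinuousLinearMap.comp_apply, hc.h2, lin1]
      ring
    · rw [ContinuousLinearMap.comp_apply, hc.h3, lin2]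
      ring

theorem Compat.gt_eq {D : C3 →L[ℂ] C3} {p p' : C3} {j b c : ℂ} (hc : Compat D p p' (1 / j ^ 2)
    (b / j) (c / j)) (hj : j ≠ 0) (h0 : p.1.im ≠ 0) (him : p'.1.im = p.1.im / Complex.normSq j)
    (v : C3) : gt p' (D v) = Complex.normSq v.1 / p.1.im ^ 2 +
      2 / p.1.im * (Complex.normSq b * Complex.normSq (w1 p v) +
        Complex.normSq c * Complex.normSq (w2 p v)) := by
  have hn : Complex.normSq j ≠ 0 := by simpa using hj
  rw [KC.gt_eq, hc.h1, hc.h2, hc.h3, him]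
  simp only [map_mul, map_div₀, map_one, map_pow]
  field_simp

/-- the metric and the automorphism. -/
theorem gQ_f (q : QQ GG) (v : TangentSpace 𝓘(ℂ, C3) q) :
    gQ (fmap 1 q) (mfderiv 𝓘(ℂ, C3) 𝓘(ℂ, C3) (fmap 1) q v) =
      Complex.normSq (v : C3).1 / (chartAt C3 q q).1.im ^ 2 +
      2 / (chartAt C3 q q).1.im * ((3 + 2 * √2) ^ 2 * Complex.normSq (w1 (chartAt C3 q q) v) +
        (3 - 2 * √2) ^ 2 * Complex.normSq (w2 (chartAt C3 q q) v)) := by
  obtain ⟨j, hj, him, hc⟩ := compat_f q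
  have him0 : (chartAt C3 q q).1.im ≠ 0 := (mem_Up.1 (chart_self_mem q)).ne'
  have h := hc.gt_eq hj him0 him v
  rw [Complex.normSq_ofReal, Complex.normSq_ofReal, ← pow_two, ← pow_two] at h
  exact h

theorem splitting_C3 (p v : C3) : ∃! w : Bs p × Bc p × Bu p, (w.1 : C3) + w.2.1 + w.2.2 = v := by
  refine ⟨(⟨(0, 0, w2 p v), by simp [mem_Bs, w1]⟩, ⟨v.1 • sc p, ?_⟩,
    ⟨(0, w1 p v, 0), by simp [mem_Bu, w2]⟩), ?_, ?_⟩
  · rw [Bc_eq]
    exact Submodule.smul_mem _ _ (Submodule.mem_span_singleton_self _)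
  · refine Prod.ext ?_ (Prod.ext ?_ ?_)
    · simp [sc]
    · simp [sc, w1]
      ring
    · simp [sc, w2]
      ring
  · rintro ⟨⟨s, hs⟩, ⟨c, hc⟩, ⟨u, hu⟩⟩ h
    simp only at h
    obtain ⟨s1, s2⟩ := hs
    obtain ⟨c1, c2⟩ := hc
    obtain ⟨u1, u2⟩ := hu
    have hc1 : c.1 = v.1 := by
      rw [← h]
      simp [s1, u1]
    have a1 : w1 p v = w1 p u := by
      rw [← h, w1_add, w1_add, s2, c1]
      ring
    have a2 : w2 p v = w2 p s := by
      rw [← h, w2_add, w2_add, c2, u2]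
      ring
    have hs' : s = (0, 0, w2 p v) := by
      rw [a2]
      unfold w1 at s2
      rw [s1] at s2
      refine Prod.ext s1 (Prod.ext ?_ ?_)
      · simpa using s2
      · simp [w2, s1]
    have hu' : u = (0, w1 p v, 0) := by
      rw [a1]
      unfold w2 at u2
      rw [u1] at u2
      refine Prod.ext u1 (Prod.ext ?_ ?_)
      · simp [w1, u1]
      · simpa using u2
    have hc' : c = v.1 • sc p := by
      unfold w1 at c1
      unfold w2 at c2
      refine Prod.ext ?_ (Prod.ext ?_ ?_)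
      · simp [sc, hc1]
      · simp only [sc, Prod.smul_snd, Prod.smul_fst, smul_eq_mul, ← hc1]
        linear_combination c1
      · simp only [sc, Prod.smul_snd, smul_eq_mul, ← hc1]
        linear_combination c2
    subst hs' hu' hc'
    rfl

theorem sqrt_bounds : 0 < (3 - 2 * √2 : ℝ) ∧ (3 - 2 * √2 : ℝ) < 1 ∧ 1 < (3 + 2 * √2 : ℝ) := by
  have h1 : (1 : ℝ) < √2 := by
    rw [Real.lt_sqrt (by norm_num)]
    norm_num
  have h2 : √2 < (1.5 : ℝ) := by
    rw [Real.sqrt_lt' (by norm_num)]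
    norm_num
  exact ⟨by linarith, by linarith, by linarith⟩

theorem dominated_aux {p vs vc vu : C3} (hs' : vs.1 = 0 ∧ w1 p vs = 0)
    (hc' : w1 p vc = 0 ∧ w2 p vc = 0) (hu' : vu.1 = 0 ∧ w2 p vu = 0)
    (g1 : gt p vs = 1) (g2 : gt p vc = 1) (g3 : gt p vu = 1) :
    Complex.normSq vs.1 / p.1.im ^ 2 + 2 / p.1.im *
        ((3 + 2 * √2) ^ 2 * Complex.normSq (w1 p vs) +
          (3 - 2 * √2) ^ 2 * Complex.normSq (w2 p vs)) <
      min 1 (Complex.normSq vc.1 / p.1.im ^ 2 + 2 / p.1.im *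
        ((3 + 2 * √2) ^ 2 * Complex.normSq (w1 p vc) +
          (3 - 2 * √2) ^ 2 * Complex.normSq (w2 p vc))) ∧
    max 1 (Complex.normSq vc.1 / p.1.im ^ 2 + 2 / p.1.im *
        ((3 + 2 * √2) ^ 2 * Complex.normSq (w1 p vc) +
          (3 - 2 * √2) ^ 2 * Complex.normSq (w2 p vc))) <
      Complex.normSq vu.1 / p.1.im ^ 2 + 2 / p.1.im *
        ((3 + 2 * √2) ^ 2 * Complex.normSq (w1 p vu) +
          (3 - 2 * √2) ^ 2 * Complex.normSq (w2 p vu)) := by
  obtain ⟨b1, b2, b3⟩ := sqrt_bounds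
  rw [gt_eq] at g1 g2 g3
  rw [hs'.1, hs'.2] at g1
  rw [hc'.1, hc'.2] at g2
  rw [hu'.1, hu'.2] at g3
  rw [hs'.1, hs'.2, hc'.1, hc'.2, hu'.1, hu'.2]
  simp only [map_zero, zero_div, zero_add, add_zero, mul_zero] at g1 g2 g3 ⊢
  rw [g2]
  have k1 : 2 / p.1.im * ((3 - 2 * √2) ^ 2 * Complex.normSq (w2 p vs)) =
      (3 - 2 * √2) ^ 2 := by
    calc _ = (3 - 2 * √2) ^ 2 * (2 / p.1.im * Complex.normSq (w2 p vs)) := by ring
      _ = _ := by rw [g1, mul_one]
  have k2 : 2 / p.1.im * ((3 + 2 * √2) ^ 2 * Complex.normSq (w1 p vu)) =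
      (3 + 2 * √2) ^ 2 := by
    calc _ = (3 + 2 * √2) ^ 2 * (2 / p.1.im * Complex.normSq (w1 p vu)) := by ring
      _ = _ := by rw [g3, mul_one]
  rw [k1, k2]
  constructor
  · rw [min_self]
    nlinarith
  · rw [max_self]
    nlinarith

theorem partiallyHyperbolic : IsPartiallyHyperbolic gQ (fmap 1) EsQ EcQ EuQ where
  ne_bot := by
    intro q
    refine ⟨?_, ?_, ?_⟩
    · rw [Submodule.ne_bot_iff]
      refine ⟨ss (chartAt C3 q q), ?_, ?_⟩
      · change _ ∈ Bs _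
        rw [Bs_eq]
        exact Submodule.mem_span_singleton_self _
      · exact ss_ne _
    · rw [Submodule.ne_bot_iff]
      refine ⟨sc (chartAt C3 q q), ?_, ?_⟩
      · change _ ∈ Bc _
        rw [Bc_eq]
        exact Submodule.mem_span_singleton_self _
      · exact sc_ne _
    · rw [Submodule.ne_bot_iff]
      refine ⟨su (chartAt C3 q q), ?_, ?_⟩
      · change _ ∈ Bu _
        rw [Bu_eq]
        exact Submodule.mem_span_singleton_self _
      · exact su_ne _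
  splitting := fun q v => splitting_C3 (chartAt C3 q q) v
  continuous := ⟨continuous_Es, continuous_Ec, continuous_Eu⟩
  invariant := by
    intro q
    obtain ⟨j, -, -, hc⟩ := compat_f q
    exact ⟨hc.map_Bs, hc.map_Bc, hc.map_Bu⟩
  dominated := by
    refine ⟨1, le_rfl, fun q vs hs vc hc vu hu h1 h2 h3 => ?_⟩
    change gQ (fmap 1 q) (mfderiv 𝓘(ℂ, C3) 𝓘(ℂ, C3) (fmap 1) q vs) <
      min 1 (gQ (fmap 1 q) (mfderiv 𝓘(ℂ, C3) 𝓘(ℂ, C3) (fmap 1) q vc)) ∧
      max 1 (gQ (fmap 1 q) (mfderiv 𝓘(ℂ, C3) 𝓘(ℂ, C3) (fmap 1) q vc)) <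
        gQ (fmap 1 q) (mfderiv 𝓘(ℂ, C3) 𝓘(ℂ, C3) (fmap 1) q vu)
    rw [gQ_f, gQ_f, gQ_f]
    exact dominated_aux (mem_Bs.1 hs) (mem_Bc.1 hc) (mem_Bu.1 hu) h1 h2 h3

/-- `Im z` over a fixed `τ` is not complex differentiable. -/
theorem not_holomorphic_slope {p : C3} (hp : p ∈ Up) :
    ¬ DifferentiableAt ℂ (fun w : C3 => ((w.2.1.im / w.1.im : ℝ) : ℂ)) p := by
  intro h
  have h0 : p.1.im ≠ 0 := (mem_Up.1 hp).ne'
  have hd := h.hasFDerivAt
  set L := fderiv ℂ (fun w : C3 => ((w.2.1.im / w.1.im : ℝ) : ℂ)) p with hL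
  -- the function along the second coordinate
  have hline : ∀ v : ℂ, HasDerivAt (fun t : ℝ => (((p.2.1 + t * v).im / p.1.im : ℝ) : ℂ))
      (L (0, v, 0)) 0 := by
    intro v
    have h1 : HasDerivAt (fun t : ℝ => ((p.1, p.2.1 + t * v, p.2.2) : C3)) (0, v, 0) 0 := by
      refine (hasDerivAt_const _ _).prodMk (HasDerivAt.prodMk ?_ (hasDerivAt_const _ _))
      have : HasDerivAt (fun t : ℝ => (t : ℂ)) 1 0 := Complex.ofRealCLM.hasDerivAt
      simpa using (this.mul_const v).const_add p.2.1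
    have h2 : HasFDerivAt (fun w : C3 => ((w.2.1.im / w.1.im : ℝ) : ℂ)) (L.restrictScalars ℝ)
        ((fun t : ℝ => ((p.1, p.2.1 + t * v, p.2.2) : C3)) 0) := by
      have e : ((fun t : ℝ => ((p.1, p.2.1 + t * v, p.2.2) : C3)) 0) = p := by simp
      rw [e]
      exact hd.restrictScalars ℝ
    exact h2.comp_hasDerivAt 0 h1
  have hr : ∀ v : ℂ, HasDerivAt (fun t : ℝ => (((p.2.1 + t * v).im / p.1.im : ℝ) : ℂ))
      ((v.im / p.1.im : ℝ) : ℂ) 0 := by
    intro v
    have h1 : HasDerivAt (fun t : ℝ => ((p.2.1 + t * v).im / p.1.im : ℝ)) (v.im / p.1.im) 0 := by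
      have e : (fun t : ℝ => ((p.2.1 + t * v).im / p.1.im : ℝ)) =
          fun t : ℝ => (p.2.1.im + t * v.im) / p.1.im := by
        funext t
        simp
      rw [e]
      have := (((hasDerivAt_id (0 : ℝ)).mul_const v.im).const_add p.2.1.im).div_const p.1.im
      simpa using this
    exact h1.ofReal_comp
  have a1 : L (0, 1, 0) = 0 := by
    rw [(hline 1).unique (hr 1)]
    simp
  have a2 : L (0, Complex.I, 0) = ((1 / p.1.im : ℝ) : ℂ) := by
    rw [(hline Complex.I).unique (hr Complex.I)]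
    simp
  have a3 : L (0, Complex.I, 0) = Complex.I • L (0, 1, 0) := by
    rw [← map_smul]
    congr 1
    simp
  rw [a1, a2, smul_zero] at a3
  have a4 : (1 / p.1.im : ℝ) = 0 := by exact_mod_cast a3
  exact h0 (by simpa using a4)

/-- **The center bundle is not holomorphic.** -/
theorem not_holomorphic : ¬ IsHolomorphicSubbundle EcQ := by
  intro hol
  set p₀ : Up := ⟨(Complex.I, 0, 0), by simp [Up]⟩ with hp₀
  set q₀ : QQ GG := pr GG p₀ with hq₀
  obtain ⟨W, hW, hqW, k, V, hV, hspan⟩ := hol q₀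
  set e := chartAt C3 q₀ with he
  set y₀ : C3 := e q₀ with hy₀
  have hy₀U : y₀ ∈ Up := chart_self_mem q₀
  have hy₀t : y₀ ∈ e.target := e.map_source (mem_chart_source C3 q₀)
  -- the vector fields in the chart `e`
  set h : Fin k → QQ GG → C3 := fun i q => tangentCoordChange 𝓘(ℂ, C3) q q₀ q (V i q) with hh
  have hdiff : ∀ i, DifferentiableAt ℂ (fun y => h i (e.symm y)) y₀ := by
    intro i
    have h1 : MDifferentiableAt 𝓘(ℂ, C3) 𝓘(ℂ, C3).tangent
        (fun x => (⟨x, V i x⟩ : TangentBundle 𝓘(ℂ, C3) (QQ GG))) q₀ :=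
      (hV i q₀ hqW).mdifferentiableAt (hW.mem_nhds hqW)
    have h2 := (mdifferentiableAt_totalSpace _ _).1 h1
    have h3 : MDifferentiableAt 𝓘(ℂ, C3) 𝓘(ℂ, C3) (h i) q₀ := h2.2
    have h4 : MDifferentiableAt 𝓘(ℂ, C3) 𝓘(ℂ, C3) e.symm y₀ :=
      (mdifferentiableAt_atlas_symm (chart_mem_atlas C3 q₀) hy₀t)
    have h5 : e.symm y₀ = q₀ := e.left_inv (mem_chart_source C3 q₀)
    have h6 : MDifferentiableAt 𝓘(ℂ, C3) 𝓘(ℂ, C3) (h i) (e.symm y₀) := by rw [h5]; exact h3
    exact (mdifferentiableAt_iff_differentiableAt).1 (h6.comp y₀ h4)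
  -- they span the center direction
  have hmem : ∀ᶠ y in 𝓝 y₀, ∀ i, h i (e.symm y) ∈ Bc y := by
    have h1 : ∀ᶠ y in 𝓝 y₀, e.symm y ∈ W := by
      apply (e.continuousAt_symm hy₀t).eventually_mem
      rw [e.left_inv (mem_chart_source C3 q₀)]
      exact hW.mem_nhds hqW
    filter_upwards [h1, e.open_target.mem_nhds hy₀t] with y hyW hyt i
    have hys : e.symm y ∈ e.source := e.map_target hyt
    obtain ⟨γ, hγ, g1, g2⟩ := tangentCoordChange_eq (mem_chart_source C3 (e.symm y)) hys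
    obtain ⟨j, -, -, hc⟩ := compat_deck hγ (chart_self_mem (e.symm y))
    have g3 : V i (e.symm y) ∈ EcQ (e.symm y) := by
      rw [hspan _ hyW]
      exact Submodule.subset_span ⟨i, rfl⟩
    have g4 : (V i (e.symm y) : C3) ∈ Bc (chartAt C3 (e.symm y) (e.symm y)) := g3
    have g5 := hc.map_Bc
    rw [g1, e.right_inv hyt] at g5
    rw [← g5, hh]
    simp only
    rw [g2]
    exact Submodule.mem_map_of_mem g4
  -- one of them does not vanish at `q₀`
  obtain ⟨i, hi⟩ : ∃ i, h i q₀ ≠ 0 := by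
    by_contra hcon
    push Not at hcon
    have g1 : ∀ i, V i q₀ = 0 := by
      intro i
      exact (tangentCoordChange_self (I := 𝓘(ℂ, C3)) (mem_extChartAt_source q₀)
        (v := V i q₀)).symm.trans (hcon i)
    have g2 : EcQ q₀ = ⊥ := by
      rw [hspan _ hqW, Submodule.span_eq_bot]
      rintro _ ⟨i, rfl⟩
      exact g1 i
    exact (partiallyHyperbolic.ne_bot q₀).2.1 g2
  set u : C3 → C3 := fun y => h i (e.symm y) with hu
  have hu0 : u y₀ ≠ 0 := by
    rw [hu]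
    simp only
    rw [e.left_inv (mem_chart_source C3 q₀)]
    exact hi
  have hform : ∀ᶠ y in 𝓝 y₀, u y = (u y).1 • sc y := by
    filter_upwards [hmem] with y hy
    have := hy i
    rw [Bc_eq, Submodule.mem_span_singleton] at this
    obtain ⟨c, hc⟩ := this
    change u y = _
    have hc' : u y = c • sc y := hc.symm
    rw [hc']
    congr 1
    simp [sc]
  have hfst : (u y₀).1 ≠ 0 := by
    intro h0
    apply hu0
    rw [hform.self_of_nhds, h0, zero_smul]
  have hud : DifferentiableAt ℂ u y₀ := hdiff i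
  have hu1 : DifferentiableAt ℂ (fun y => (u y).1) y₀ := hud.fst
  have hu2 : DifferentiableAt ℂ (fun y => (u y).2.1) y₀ := hud.snd.fst
  have hquot : DifferentiableAt ℂ (fun y => (u y).2.1 / (u y).1) y₀ :=
    by simpa only [div_eq_mul_inv] using hu2.fun_mul (hu1.fun_inv hfst)
  apply not_holomorphic_slope hy₀U
  refine hquot.congr_of_eventuallyEq ?_
  filter_upwards [hform, hu1.continuousAt.eventually_ne hfst] with y hy hy1
  have : (u y).2.1 = (u y).1 * ((y.2.1.im / y.1.im : ℝ) : ℂ) := by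
    conv_lhs => rw [hy]
    simp [sc]
  rw [this]
  field_simp

end Pool.Agent.W711.KC
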