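import Pool.Agent.W711.KC.Cov6

/-!
# Finite covers of the example: no toral factors
-/

set_option autoImplicit false

open scoped Manifold ContDiff Topology MatrixGroups UpperHalfPlane
open Set Filter

namespace Pool.Agent.W711.KC

/-- a finite cover of a compact space is compact. -/
theorem compact_of_cover_map {E B : Type} [TopologicalSpace E] [TopologicalSpace B] [CompactSpace B]
    [LocallyCompactSpace B] {f : E → B} (hf : IsCoveringMap f)
    (hfin : ∀ x, (f ⁻¹' {x}).Finite) : CompactSpace E := by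
  have h1 : ∀ x : B, ∃ K ∈ 𝓝 x, IsCompact (f ⁻¹' K) := by
    intro x
    obtain ⟨hd, U, hxU, hU, hfU, H, hH⟩ := hf x
    obtain ⟨K, hK, hKU, hKc⟩ := local_compact_nhds (hU.mem_nhds hxU)
    refine ⟨K, hK, ?_⟩
    have : Finite (f ⁻¹' {x}) := hfin x
    have hK' : IsCompact ((Subtype.val : U → B) ⁻¹' K) := by
      rw [Subtype.isCompact_iff, Subtype.image_preimage_coe, inter_eq_right.2 hKU]
      exact hKc
    have h2 : IsCompact (((Subtype.val : U → B) ⁻¹' K) ×ˢ (univ : Set (f ⁻¹' {x}))) :=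
      hK'.prod isCompact_univ
    have h3 : f ⁻¹' K = (fun y => ((H.symm y : f ⁻¹' U) : E)) ''
        (((Subtype.val : U → B) ⁻¹' K) ×ˢ (univ : Set (f ⁻¹' {x}))) := by
      ext e
      constructor
      · intro he
        refine ⟨H ⟨e, hKU he⟩, ⟨?_, mem_univ _⟩, ?_⟩
        · rw [mem_preimage, hH]
          exact he
        · simp
      · rintro ⟨y, ⟨hy, -⟩, rfl⟩
        rw [mem_preimage, ← hH, H.apply_symm_apply]
        exact hy
    rw [h3]
    exact h2.image (continuous_subtype_val.comp H.symm.continuous)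
  choose K hK hKc using h1
  obtain ⟨t, ht⟩ := CompactSpace.elim_nhds_subcover K hK
  refine ⟨?_⟩
  have h2 : (univ : Set E) = ⋃ x ∈ t, f ⁻¹' K x := by
    rw [← preimage_iUnion₂, ht]
    rfl
  rw [h2]
  exact t.isCompact_biUnion fun x _ => hKc x

section

variable {m : ℕ}

/-- a continuous function with values in a discrete subgroup is locally constant. -/
theorem loc_const {V : Type} [NormedAddCommGroup V] {Λ : AddSubgroup V} (hΛ : DiscreteTopology Λ)
    {Y : Type} [TopologicalSpace Y] {y₀ : Y} {D : Y → V} (hD : ContinuousAt D y₀)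
    (h : ∀ᶠ y in 𝓝 y₀, D y ∈ Λ) : ∀ᶠ y in 𝓝 y₀, D y = D y₀ := by
  have h0 : D y₀ ∈ Λ := h.self_of_nhds
  obtain ⟨W, hW, hW1⟩ := isOpen_induced_iff.1 (isOpen_discrete ({0} : Set Λ))
  have h1 : (0 : V) ∈ W := by
    have : (0 : Λ) ∈ (Subtype.val ⁻¹' W : Set Λ) := by rw [hW1]; rfl
    exact this
  have h2 : ∀ᶠ y in 𝓝 y₀, D y - D y₀ ∈ W := by
    have hc : ContinuousAt (fun y => D y - D y₀) y₀ := hD.sub continuousAt_const
    apply hc.eventually_mem
    simp only [sub_self]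
    exact hW.mem_nhds h1
  filter_upwards [h, h2] with y hy hy1
  have h3 : D y - D y₀ ∈ Λ := Λ.sub_mem hy h0
  have h4 : (⟨D y - D y₀, h3⟩ : Λ) ∈ (Subtype.val ⁻¹' W : Set Λ) := hy1
  rw [hW1, mem_singleton_iff] at h4
  exact sub_eq_zero.1 (congrArg Subtype.val h4)

/-- a local lift of `p` at `x`. -/
def IsLift {X V : Type} [TopologicalSpace X] [ChartedSpace C3 X] [NormedAddCommGroup V]
    [NormedSpace ℂ V] {Λ : AddSubgroup V} (p : X → V ⧸ Λ) (x : X) (P : X → V) : Prop :=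
  ContMDiffAt 𝓘(ℂ, C3) 𝓘(ℂ, V) ω P x ∧ ∀ᶠ y in 𝓝 x, p y = (P y : V ⧸ Λ)

variable {X V : Type} [TopologicalSpace X] [ChartedSpace C3 X]
  [NormedAddCommGroup V] [NormedSpace ℂ V] {Λ : AddSubgroup V}

theorem fam_of_lifts [IsManifold 𝓘(ℂ, C3) ω X] (hΛ : DiscreteTopology Λ) {p : X → V ⧸ Λ}
    {P : X → X → V}
    (hP : ∀ x, IsLift p x (P x)) : Fam P := by
  refine ⟨fun x => (hP x).1, fun x₀ => ?_⟩
  have h1 : ∀ᶠ x in 𝓝 x₀, ContMDiffAt 𝓘(ℂ, C3) 𝓘(ℂ, V) ω (P x₀) x :=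
    (contMDiffAt_iff_contMDiffAt_nhds (by simp)).1 (hP x₀).1
  filter_upwards [h1, eventually_eventually_nhds.2 (hP x₀).2] with x hx hx1
  have h2 : ∀ᶠ y in 𝓝 x, P x y - P x₀ y ∈ Λ := by
    filter_upwards [hx1, (hP x).2] with y hy1 hy2
    rw [← QuotientAddGroup.eq_zero_iff, QuotientAddGroup.mk_sub, ← hy2, ← hy1, sub_self]
  have hc : ContinuousAt (fun y => P x y - P x₀ y) x := (hP x).1.continuousAt.sub hx.continuousAt
  have h3 := loc_const hΛ hc h2
  refine ⟨P x x - P x₀ x, ?_⟩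
  filter_upwards [h3] with y hy
  rw [← hy]
  abel

theorem semi_of_lifts (hΛ : DiscreteTopology Λ) {p : X → V ⧸ Λ} {P : X → X → V}
    (hP : ∀ x, IsLift p x (P x)) {F : X → X} (hF : Continuous F) (A : V →L[ℂ] V) (b : V)
    (hA : ∀ (x : X) (z : V), p x = (z : V ⧸ Λ) → p (F x) = ((A z + b : V) : V ⧸ Λ)) (x : X) :
    ∃ c, ∀ᶠ y in 𝓝 x, P (F x) (F y) = A (P x y) + c := by
  have h2 : ∀ᶠ y in 𝓝 x, P (F x) (F y) - (A (P x y) + b) ∈ Λ := by
    filter_upwards [(hP x).2, (hF.tendsto x).eventually (hP (F x)).2] with y hy1 hy2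
    rw [← QuotientAddGroup.eq_zero_iff, QuotientAddGroup.mk_sub, ← hy2, ← hA y _ hy1, sub_self]
  have hc : ContinuousAt (fun y => P (F x) (F y) - (A (P x y) + b)) x := by
    have c1 : ContinuousAt (fun y => P (F x) (F y)) x :=
      ContinuousAt.comp (g := P (F x)) (hP (F x)).1.continuousAt hF.continuousAt
    have c2 : ContinuousAt (fun y => A (P x y)) x :=
      A.continuous.continuousAt.comp (hP x).1.continuousAt
    exact c1.sub (c2.add continuousAt_const)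
  have h3 := loc_const hΛ hc h2
  refine ⟨b + (P (F x) (F x) - (A (P x x) + b)), ?_⟩
  filter_upwards [h3] with y hy
  rw [← hy]
  abel

/-- a left eigenvector for an eigenvalue. -/
theorem exists_left {W : Type} [NormedAddCommGroup W] [NormedSpace ℂ W] [FiniteDimensional ℂ W]
    (A : W →L[ℂ] W) {α : ℂ} (hα : Module.End.HasEigenvalue (A : W →ₗ[ℂ] W) α) :
    ∃ ℓ : W →L[ℂ] ℂ, ℓ ≠ 0 ∧ ℓ.comp A = α • ℓ := by
  obtain ⟨u, hu⟩ := hα.exists_hasEigenvector
  have hu0 : u ≠ 0 := hu.2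
  have hu1 : (A : W →ₗ[ℂ] W) u = α • u := hu.apply_eq_smul
  set B : W →ₗ[ℂ] W := (A : W →ₗ[ℂ] W) - α • LinearMap.id with hB
  have h1 : ¬ Function.Injective B := by
    intro h
    apply hu0
    apply h
    rw [map_zero, hB, LinearMap.sub_apply, hu1]
    simp
  have h2 : LinearMap.range B ≠ ⊤ := by
    intro h
    exact h1 (LinearMap.injective_iff_surjective.2 (LinearMap.range_eq_top.1 h))
  obtain ⟨ℓ, hℓ, hℓ1⟩ := Submodule.exists_le_ker_of_lt_top _ (lt_top_iff_ne_top.2 h2)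
  refine ⟨LinearMap.toContinuousLinearMap ℓ, ?_, ?_⟩
  · intro h
    apply hℓ
    ext v
    have := DFunLike.congr_fun h v
    simpa using this
  · ext v
    have h3 : ℓ (B v) = 0 := hℓ1 (LinearMap.mem_range_self B v)
    rw [hB, LinearMap.sub_apply, map_sub, sub_eq_zero] at h3
    simpa using h3

variable [IsManifold 𝓘(ℂ, C3) ω X] {π : X → QQ GG}
  (hπ : IsLocalDiffeomorph 𝓘(ℂ, C3) 𝓘(ℂ, C3) ω π)
include hπ

omit [IsManifold 𝓘(ℂ, C3) ω X] in
theorem sg_surj (x : X) : Function.Bijective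
    (mfderiv 𝓘(ℂ, C3) 𝓘(ℂ, C3) (sg hπ x) (π x) : C3 →L[ℂ] C3) :=
  ((hπ x).localInverse_isLocalDiffeomorphAt.mfderivToContinuousLinearEquiv
    (by simp)).bijective

/-- **No toral factor without central eigenvalues.** -/
theorem no_factor [CompactSpace X] [Nonempty X] [FiniteDimensional ℂ V] (hΛ : DiscreteTopology Λ)
    {p : X → V ⧸ Λ} (hp : ∀ x, ∃ P, IsLift p x P ∧
      Function.Surjective (mfderiv 𝓘(ℂ, C3) 𝓘(ℂ, V) P x)) {F : X → X} (hF : Continuous F)
    (hF' : Function.Surjective F) {n : ℕ} (hn : 1 ≤ n)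
    (hcomm : ∀ x, π (F x) = (fmap 1)^[n] (π x)) (A : V →L[ℂ] V) (b : V)
    (hA : ∀ (x : X) (z : V), p x = (z : V ⧸ Λ) → p (F x) = ((A z + b : V) : V ⧸ Λ)) {α : ℂ}
    (hα : Module.End.HasEigenvalue (A : V →ₗ[ℂ] V) α) (hα1 : Complex.normSq α ≠ 1) : False := by
  choose P hP using hp
  obtain ⟨x⟩ := (inferInstance : Nonempty X)
  obtain ⟨ℓ, hℓ, hℓ1⟩ := exists_left A hα
  have hfam := fam_of_lifts hΛ fun x => (hP x).1
  have h1 := no_left hπ hfam hF hF' hn hcomm A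
    (semi_of_lifts hΛ (fun x => (hP x).1) hF A b hA) hℓ1 hα1 x
  apply hℓ
  rw [LL_surj hπ hfam] at h1
  ext z
  obtain ⟨y, rfl⟩ := (hP x).2 z
  obtain ⟨y', rfl⟩ := (sg_surj hπ x).2 y
  exact DFunLike.congr_fun h1 y'

/-- **No conjugacy to an automorphism of a torus.** -/
theorem no_torus [CompactSpace X] [Nonempty X] [FiniteDimensional ℂ V] [Nontrivial V]
    (hV : Module.finrank ℂ V = 3) (hΛ : DiscreteTopology Λ)
    {p : X → V ⧸ Λ} (hp : ∀ x, ∃ P, IsLift p x P ∧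
      Function.Surjective (mfderiv 𝓘(ℂ, C3) 𝓘(ℂ, V) P x)) {F : X → X} (hF : Continuous F)
    (hF' : Function.Surjective F) {n : ℕ} (hn : 1 ≤ n)
    (hcomm : ∀ x, π (F x) = (fmap 1)^[n] (π x)) (A : V →L[ℂ] V) (b : V)
    (hA : ∀ (x : X) (z : V), p x = (z : V ⧸ Λ) → p (F x) = ((A z + b : V) : V ⧸ Λ)) :
    False := by
  obtain ⟨α, hα⟩ := Module.End.exists_eigenvalue (A : V →ₗ[ℂ] V)
  by_cases hα1 : Complex.normSq α = 1
  · obtain ⟨u, hu⟩ := hα.exists_hasEigenvector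
    have hu0 : u ≠ 0 := hu.2
    have hu1 : A u = α • u := hu.apply_eq_smul
    choose P hP using hp
    have hfam := fam_of_lifts hΛ fun x => (hP x).1
    apply hu0
    refine no_right hπ hfam hF hF' hn hcomm A
      (semi_of_lifts hΛ (fun x => (hP x).1) hF A b hA) (fun x => ?_) hu1 hα1
    rw [LL_surj hπ hfam]
    have hs : Function.Surjective
      (mfderiv 𝓘(ℂ, C3) 𝓘(ℂ, V) (P x) x : C3 →L[ℂ] V).toLinearMap := (hP x).2
    have h3 : Module.finrank ℂ C3 = Module.finrank ℂ V := by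
      rw [hV]
      simp
    have hb : Function.Injective
      (mfderiv 𝓘(ℂ, C3) 𝓘(ℂ, V) (P x) x : C3 →L[ℂ] V).toLinearMap :=
      (LinearMap.injective_iff_surjective_of_finrank_eq_finrank h3).2 hs
    exact (show Function.Bijective (mfderiv 𝓘(ℂ, C3) 𝓘(ℂ, V) (P x) x : C3 →L[ℂ] V) from
      ⟨hb, hs⟩).comp (sg_surj hπ x)
  · exact no_factor hπ hΛ hp hF hF' hn hcomm A b hA hα hα1

end

end Pool.Agent.W711.KC
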