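import Pool.Agent.W711.KC.Quot

/-!
# Maps and vector fields on the quotient
-/

set_option autoImplicit false

open scoped Manifold ContDiff Topology
open Set Filter TopologicalSpace

namespace Pool.Agent.W711.KC

variable {E : Type} [NormedAddCommGroup E] [NormedSpace ℂ E] [LocallyCompactSpace E] {U : Opens E}
variable {Γ : Subgroup (Equiv.Perm U)} [hΓ : HolGroup Γ]

theorem chart_self_mem (q : QQ Γ) : chartAt E q q ∈ U :=
  chart_mem (chart_mem_atlas E q) (mem_chart_source E q)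

theorem pr_chart_self (q : QQ Γ) : pr Γ ⟨chartAt E q q, chart_self_mem q⟩ = q :=
  pr_chart (chart_mem_atlas E q) (mem_chart_source E q)

/-- the projection, read in a chart. -/
theorem local_pr {e : OpenPartialHomeomorph (QQ Γ) E} (he : e ∈ atlas E (QQ Γ)) (y : U)
    (hy : pr Γ y ∈ e.source) : ∃ γ ∈ Γ, ex γ y = e (pr Γ y) ∧
      ∀ᶠ z in 𝓝 y, e (pr Γ z) = ex γ z := by
  obtain ⟨γ, hγ, h⟩ := pr_eq_iff.1 (pr_chart he hy).symm
  have h' : ex γ y = e (pr Γ y) := by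
    rw [ex_apply, h]
  refine ⟨γ, hγ, h', ?_⟩
  have hc : Continuous (γ : U → U) := continuous_of_ex (hΓ.hol γ hγ).continuousOn
  have h1 : ∀ᶠ z in 𝓝 y, ((γ z : U) : E) ∈ e.target := by
    apply (continuous_subtype_val.comp hc).continuousAt.eventually_mem
    simp only [Function.comp_apply]
    rw [h]
    exact e.open_target.mem_nhds (e.map_source hy)
  have h2 : ∀ᶠ z in 𝓝 y, pr Γ z ∈ e.source :=
    (continuous_pr Γ).continuousAt.eventually_mem (e.open_source.mem_nhds hy)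
  filter_upwards [h1, h2] with z hz1 hz2
  rw [ex_apply]
  apply chart_injOn he (e.map_source hz2) hz1
  rw [pr_chart he hz2, pr_smul hγ]

theorem local_pr' {e : OpenPartialHomeomorph (QQ Γ) E} (he : e ∈ atlas E (QQ Γ)) (y : U)
    (hy : pr Γ y ∈ e.source) : ∃ γ ∈ Γ, ex γ y = e (pr Γ y) ∧
      ∀ᶠ z in 𝓝 (y : E), ∀ hz : z ∈ U, e (pr Γ ⟨z, hz⟩) = ex γ z := by
  obtain ⟨γ, hγ, h, h1⟩ := local_pr he y hy
  refine ⟨γ, hγ, h, ?_⟩
  rw [← map_nhds_subtype_coe_eq_nhds y.2 (U.isOpen.mem_nhds y.2), eventually_map]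
  filter_upwards [h1] with z hz hz'
  exact hz

/-- A map normalizing the group. -/
structure Norm (Γ : Subgroup (Equiv.Perm U)) (σ : U → U) : Prop where
  hol : ContDiffOn ℂ ω (ex σ) U
  norm : ∀ γ ∈ Γ, ∃ γ' ∈ Γ, ∀ x, σ (γ x) = γ' (σ x)

/-- The induced map on the quotient. -/
noncomputable def desc (σ : U → U) (hσ : Norm Γ σ) : QQ Γ → QQ Γ :=
  Quotient.lift (fun x => pr Γ (σ x)) (by
    intro a b hab
    have : pr Γ a = pr Γ b := Quotient.sound hab
    obtain ⟨γ, hγ, rfl⟩ := pr_eq_iff.1 this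
    obtain ⟨γ', hγ', h⟩ := hσ.norm γ hγ
    simp only [h]
    exact (pr_smul hγ' _).symm)

theorem desc_pr (σ : U → U) (hσ : Norm Γ σ) (x : U) : desc σ hσ (pr Γ x) = pr Γ (σ x) := rfl

/-- the induced map in the charts. -/
theorem local_desc (σ : U → U) (hσ : Norm Γ σ) (q : QQ Γ) :
    ∃ γ ∈ Γ, ex γ (ex σ (chartAt E q q)) = chartAt E (desc σ hσ q) (desc σ hσ q) ∧
      ∀ᶠ z in 𝓝 (chartAt E q q), chartAt E (desc σ hσ q) (desc σ hσ ((chartAt E q).symm z)) =
        ex γ (ex σ z) := by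
  set e := chartAt E q with he
  set y : U := ⟨e q, chart_self_mem q⟩ with hy
  have hq : desc σ hσ q = pr Γ (σ y) := by
    rw [← desc_pr σ hσ y]
    exact congrArg _ (pr_chart_self q).symm
  set e' := chartAt E (desc σ hσ q) with he'
  have hm : pr Γ (σ y) ∈ e'.source := by
    rw [← hq]
    exact mem_chart_source E _
  obtain ⟨γ, hγ, h1, h2⟩ := local_pr' (chart_mem_atlas E (desc σ hσ q)) (σ y) hm
  have hyσ : ex σ (e q) = σ y := ex_apply σ y
  refine ⟨γ, hγ, ?_, ?_⟩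
  · rw [hyσ, h1, ← hq]
  · have hc : ContinuousAt (ex σ) (e q) :=
      hσ.hol.continuousOn.continuousAt (U.isOpen.mem_nhds y.2)
    have h3 : ∀ᶠ z in 𝓝 (e q), ∀ hz : ex σ z ∈ U, e' (pr Γ ⟨ex σ z, hz⟩) = ex γ (ex σ z) := by
      refine hc.eventually (p := fun w => ∀ hw : w ∈ U, e' (pr Γ ⟨w, hw⟩) = ex γ w) ?_
      rw [hyσ]
      exact h2
    filter_upwards [h3, e.open_target.mem_nhds (e.map_source (mem_chart_source E q))] with z hz hz1
    have hzU := atlas_target (chart_mem_atlas E q) hz1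
    rw [atlas_symm (chart_mem_atlas E q) hz1, desc_pr]
    have h4 : (⟨ex σ z, ex_mem σ hzU⟩ : U) = σ ⟨z, hzU⟩ := Subtype.ext (ex_apply σ ⟨z, hzU⟩)
    rw [← h4]
    exact hz _

theorem continuous_desc (σ : U → U) (hσ : Norm Γ σ) : Continuous (desc σ hσ) := by
  refine Continuous.quotient_lift ?_ _
  exact (continuous_pr Γ).comp (continuous_of_ex hσ.hol.continuousOn)

theorem comp_contDiffAt (σ : U → U) (hσ : Norm Γ σ) {γ : Equiv.Perm U} (hγ : γ ∈ Γ) {y : E}
    (hy : y ∈ U) : ContDiffAt ℂ ω (fun z => ex γ (ex σ z)) y := by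
  have h1 : ContDiffAt ℂ ω (ex σ) y := hσ.hol.contDiffAt (U.isOpen.mem_nhds hy)
  have h2 : ContDiffAt ℂ ω (ex (γ : U → U)) (ex σ y) :=
    (hΓ.hol γ hγ).contDiffAt (U.isOpen.mem_nhds (ex_mem σ hy))
  exact h2.comp y h1

theorem contMDiff_desc (σ : U → U) (hσ : Norm Γ σ) :
    ContMDiff 𝓘(ℂ, E) 𝓘(ℂ, E) ω (desc σ hσ) := by
  intro q
  rw [contMDiffAt_iff]
  refine ⟨(continuous_desc σ hσ).continuousAt, ?_⟩
  obtain ⟨γ, hγ, h1, h2⟩ := local_desc σ hσ q
  apply ContDiffAt.contDiffWithinAt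
  have h3 := comp_contDiffAt σ hσ hγ (chart_self_mem q)
  refine ContDiffAt.congr_of_eventuallyEq (f := fun z => ex γ (ex σ z)) ?_ ?_
  · simpa using h3
  · filter_upwards [h2] with z hz
    simpa using hz

/-- the derivative of the induced map. -/
theorem mfderiv_desc (σ : U → U) (hσ : Norm Γ σ) (q : QQ Γ) :
    ∃ γ ∈ Γ, ex γ (ex σ (chartAt E q q)) = chartAt E (desc σ hσ q) (desc σ hσ q) ∧
      (mfderiv 𝓘(ℂ, E) 𝓘(ℂ, E) (desc σ hσ) q : E →L[ℂ] E) =
        (fderiv ℂ (ex γ) (ex σ (chartAt E q q))).comp (fderiv ℂ (ex σ) (chartAt E q q)) := by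
  obtain ⟨γ, hγ, h1, h2⟩ := local_desc σ hσ q
  refine ⟨γ, hγ, h1, ?_⟩
  set L : E →L[ℂ] E :=
    (fderiv ℂ (ex γ) (ex σ (chartAt E q q))).comp (fderiv ℂ (ex σ) (chartAt E q q)) with hL
  have hm : HasMFDerivAt 𝓘(ℂ, E) 𝓘(ℂ, E) (desc σ hσ) q L := by
    refine ⟨(continuous_desc σ hσ).continuousAt, ?_⟩
    apply HasFDerivAt.hasFDerivWithinAt
    have h3 : HasFDerivAt (ex σ) (fderiv ℂ (ex σ) (chartAt E q q)) (chartAt E q q) :=
      ((hσ.hol.contDiffAt (U.isOpen.mem_nhds (chart_self_mem q))).differentiableAt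
        (by simp)).hasFDerivAt
    have h4 : HasFDerivAt (ex (γ : U → U)) (fderiv ℂ (ex γ) (ex σ (chartAt E q q)))
        (ex σ (chartAt E q q)) :=
      (((hΓ.hol γ hγ).contDiffAt (U.isOpen.mem_nhds (ex_mem σ (chart_self_mem q)))).differentiableAt
        (by simp)).hasFDerivAt
    have h5 := h4.comp (chartAt E q q) h3
    have h6 : HasFDerivAt (writtenInExtChartAt 𝓘(ℂ, E) 𝓘(ℂ, E) q (desc σ hσ)) L
        (chartAt E q q) := by
      refine h5.congr_of_eventuallyEq ?_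
      filter_upwards [h2] with z hz
      simpa using hz
    exact h6
  exact hm.mfderiv

/-- the coordinate changes of the tangent bundle. -/
theorem tangentCoordChange_eq {x y z : QQ Γ} (hx : z ∈ (chartAt E x).source)
    (hy : z ∈ (chartAt E y).source) : ∃ γ ∈ Γ, ex γ (chartAt E x z) = chartAt E y z ∧
      tangentCoordChange 𝓘(ℂ, E) x y z = fderiv ℂ (ex γ) (chartAt E x z) := by
  obtain ⟨γ, hγ, h1, h2⟩ := deck_symm (chart_mem_atlas E x) (chart_mem_atlas E y)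
    ((chartAt E x).map_source hx) (by rw [(chartAt E x).left_inv hx]; exact hy)
  rw [(chartAt E x).left_inv hx] at h1
  refine ⟨γ, hγ, h1, ?_⟩
  rw [tangentCoordChange_def]
  simp only [modelWithCornersSelf_coe, range_id, fderivWithin_univ]
  have h3 : (extChartAt 𝓘(ℂ, E) y ∘ (extChartAt 𝓘(ℂ, E) x).symm) =ᶠ[𝓝 (chartAt E x z)] ex γ := by
    filter_upwards [h2] with w hw
    simpa using hw
  have h4 : extChartAt 𝓘(ℂ, E) x z = chartAt E x z := by simp
  rw [h4]
  exact h3.fderiv_eq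

/-- the vector field on the domain of a chart with given coordinate expression. -/
noncomputable def vec (q₀ : QQ Γ) (s : E → E) (q : QQ Γ) : TangentSpace 𝓘(ℂ, E) q :=
  (trivializationAt E (TangentSpace 𝓘(ℂ, E)) q₀).symm q (s (chartAt E q₀ q))

theorem vec_eq (q₀ : QQ Γ) (s : E → E) {q : QQ Γ} (hq : q ∈ (chartAt E q₀).source) :
    vec q₀ s q = tangentCoordChange 𝓘(ℂ, E) q₀ q q (s (chartAt E q₀ q)) := by
  have h := TangentBundle.symmL_trivializationAt_eq_core (I := 𝓘(ℂ, E)) hq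
  have h2 := DFunLike.congr_fun h (s (chartAt E q₀ q))
  rw [Bundle.Trivialization.symmL_apply _ hq] at h2
  exact h2

theorem continuousOn_vec (q₀ : QQ Γ) {s : E → E} (hs : ContinuousOn s U) :
    ContinuousOn (fun q => (⟨q, vec q₀ s q⟩ : TangentBundle 𝓘(ℂ, E) (QQ Γ)))
      (chartAt E q₀).source := by
  set e := trivializationAt E (TangentSpace 𝓘(ℂ, E)) q₀ with he
  have h1 : ContinuousOn (fun q => (q, s (chartAt E q₀ q))) (chartAt E q₀).source :=
    continuousOn_id.prodMk (hs.comp (chartAt E q₀).continuousOn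
      fun q hq => chart_mem (chart_mem_atlas E q₀) hq)
  exact e.continuousOn_symm.comp h1 (fun q hq => ⟨hq, mem_univ _⟩)

end Pool.Agent.W711.KC
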