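import Pool.Agent.W711.KC.Levi
import Pool.Agent.W711.KC.Quot2
import Pool.Agent.H85R3.HSDomain

/-!
# The group `SL(2, ℝ) ⋉ M₂(ℝ)` acting on `ℍ × ℂ²`
-/

set_option autoImplicit false

open scoped Manifold ContDiff Topology MatrixGroups UpperHalfPlane
open Set Filter

namespace Pool.Agent.W711.KC

/-- the automorphy factor `c τ + d`. -/
noncomputable def jj (g : SL(2, ℝ)) (t : ℂ) : ℂ := (g 1 0 : ℂ) * t + (g 1 1 : ℂ)

/-- the numerator `a τ + b`. -/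
noncomputable def nn (g : SL(2, ℝ)) (t : ℂ) : ℂ := (g 0 0 : ℂ) * t + (g 0 1 : ℂ)

/-- The affine action: `(τ, z) ↦ ((aτ + b)/(cτ + d), (z + α (τ, 1)ᵗ)/(cτ + d))`. -/
noncomputable def aff (g : SL(2, ℝ)) (α : Matrix (Fin 2) (Fin 2) ℝ) (p : C3) : C3 :=
  (nn g p.1 / jj g p.1, (p.2.1 + ((α 0 0 : ℂ) * p.1 + (α 0 1 : ℂ))) / jj g p.1,
    (p.2.2 + ((α 1 0 : ℂ) * p.1 + (α 1 1 : ℂ))) / jj g p.1)

theorem det_eq (g : SL(2, ℝ)) : g 0 0 * g 1 1 - g 0 1 * g 1 0 = 1 := by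
  have := g.2
  rw [Matrix.det_fin_two] at this
  exact this

theorem jj_ne (g : SL(2, ℝ)) {t : ℂ} (ht : 0 < t.im) : jj g t ≠ 0 := by
  intro h
  have h1 := congrArg Complex.im h
  have h2 := congrArg Complex.re h
  simp [jj] at h1 h2
  have hd := det_eq g
  rcases h1 with h1 | h1
  · rw [h1] at h2 hd
    simp at h2
    rw [h2] at hd
    simp at hd
  · exact ht.ne' h1

theorem im_mob (g : SL(2, ℝ)) {t : ℂ} (ht : 0 < t.im) :
    (nn g t / jj g t).im = t.im / Complex.normSq (jj g t) := by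
  have hj := jj_ne g ht
  have hn : Complex.normSq (jj g t) ≠ 0 := by simpa using hj
  have hd := det_eq g
  rw [Complex.div_im]
  field_simp
  simp only [nn, jj, Complex.add_im, Complex.add_re, Complex.re_ofReal_mul, Complex.im_ofReal_mul,
    Complex.ofReal_re, Complex.ofReal_im, add_zero]
  linear_combination t.im * hd

theorem aff_mem (g : SL(2, ℝ)) (α : Matrix (Fin 2) (Fin 2) ℝ) {p : C3} (hp : p ∈ Up) :
    aff g α p ∈ Up := by
  rw [mem_Up] at hp ⊢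
  show 0 < (nn g p.1 / jj g p.1).im
  rw [im_mob g hp]
  have : 0 < Complex.normSq (jj g p.1) := Complex.normSq_pos.2 (jj_ne g hp)
  positivity

theorem jj_mul (g g' : SL(2, ℝ)) {t : ℂ} (ht : 0 < t.im) :
    jj (g * g') t = jj g (nn g' t / jj g' t) * jj g' t := by
  have hj := jj_ne g' ht
  unfold jj at hj ⊢
  unfold nn
  rw [Matrix.SpecialLinearGroup.coe_mul]
  simp only [Matrix.mul_apply, Fin.sum_univ_two]
  push_cast
  field_simp
  ring

theorem nn_mul (g g' : SL(2, ℝ)) {t : ℂ} (ht : 0 < t.im) :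
    nn (g * g') t = nn g (nn g' t / jj g' t) * jj g' t := by
  have hj := jj_ne g' ht
  unfold jj at hj ⊢
  unfold nn
  rw [Matrix.SpecialLinearGroup.coe_mul]
  simp only [Matrix.mul_apply, Fin.sum_univ_two]
  push_cast
  field_simp
  ring

theorem aff_comp (g g' : SL(2, ℝ)) (α α' : Matrix (Fin 2) (Fin 2) ℝ) {p : C3} (hp : p ∈ Up) :
    aff g α (aff g' α' p) = aff (g * g') (α' + α * g'.1) p := by
  have hp' : 0 < p.1.im := hp
  have hj := jj_ne g' hp'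
  have hj2 := jj_ne g (t := nn g' p.1 / jj g' p.1) (aff_mem g' α' hp)
  have key : ∀ x y : ℂ, (x * (nn g' p.1 / jj g' p.1) + y) * jj g' p.1 =
      x * nn g' p.1 + y * jj g' p.1 := by
    intro x y
    field_simp
  unfold aff
  rw [jj_mul g g' hp', nn_mul g g' hp']
  refine Prod.ext ?_ (Prod.ext ?_ ?_)
  · simp only
    field_simp
  · simp only [Matrix.add_apply, Matrix.mul_apply, Fin.sum_univ_two]
    push_cast
    rw [div_add' _ _ _ hj, key, div_div, mul_comm (jj g' p.1)]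
    congr 1
    unfold nn jj
    ring
  · simp only [Matrix.add_apply, Matrix.mul_apply, Fin.sum_univ_two]
    push_cast
    rw [div_add' _ _ _ hj, key, div_div, mul_comm (jj g' p.1)]
    congr 1
    unfold nn jj
    ring

theorem aff_one (p : C3) : aff 1 0 p = p := by
  unfold aff nn jj
  simp

theorem contDiffAt_aff (g : SL(2, ℝ)) (α : Matrix (Fin 2) (Fin 2) ℝ) {p : C3} (hp : p ∈ Up) :
    ContDiffAt ℂ ω (aff g α) p := by
  have hj : jj g p.1 ≠ 0 := jj_ne g hp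
  have h1 : ContDiffAt ℂ ω (fun p : C3 => p.1) p := contDiffAt_fst
  have h2 : ContDiffAt ℂ ω (fun p : C3 => p.2.1) p := contDiffAt_fst.comp p contDiffAt_snd
  have h3 : ContDiffAt ℂ ω (fun p : C3 => p.2.2) p := contDiffAt_snd.comp p contDiffAt_snd
  have hlin : ∀ a b : ℂ, ContDiffAt ℂ ω (fun p : C3 => a * p.1 + b) p := fun a b =>
    (contDiffAt_const.mul h1).add contDiffAt_const
  have hjc : ContDiffAt ℂ ω (fun p : C3 => jj g p.1) p := hlin _ _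
  exact ((hlin _ _).div hjc hj).prodMk
    (((h2.add (hlin _ _)).div hjc hj).prodMk ((h3.add (hlin _ _)).div hjc hj))

/-- The derivative of the action. -/
theorem fderiv_aff (g : SL(2, ℝ)) (α : Matrix (Fin 2) (Fin 2) ℝ) {p : C3} (hp : p ∈ Up) (v : C3) :
    fderiv ℂ (aff g α) p v = (v.1 / jj g p.1 ^ 2,
      (v.2.1 + (α 0 0 : ℂ) * v.1) / jj g p.1 -
        (p.2.1 + ((α 0 0 : ℂ) * p.1 + (α 0 1 : ℂ))) * ((g 1 0 : ℂ) * v.1) / jj g p.1 ^ 2,
      (v.2.2 + (α 1 0 : ℂ) * v.1) / jj g p.1 -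
        (p.2.2 + ((α 1 0 : ℂ) * p.1 + (α 1 1 : ℂ))) * ((g 1 0 : ℂ) * v.1) / jj g p.1 ^ 2) := by
  have hj : jj g p.1 ≠ 0 := jj_ne g hp
  have h1 : HasFDerivAt (fun p : C3 => p.1) (ContinuousLinearMap.fst ℂ ℂ (ℂ × ℂ)) p :=
    hasFDerivAt_fst
  have h2 : HasFDerivAt (fun p : C3 => p.2.1) ((ContinuousLinearMap.fst ℂ ℂ ℂ).comp
      (ContinuousLinearMap.snd ℂ ℂ (ℂ × ℂ))) p := hasFDerivAt_fst.comp p hasFDerivAt_snd
  have h3 : HasFDerivAt (fun p : C3 => p.2.2) ((ContinuousLinearMap.snd ℂ ℂ ℂ).comp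
      (ContinuousLinearMap.snd ℂ ℂ (ℂ × ℂ))) p := hasFDerivAt_snd.comp p hasFDerivAt_snd
  have hjc : HasFDerivAt (fun p : C3 => jj g p.1) _ p :=
    ((h1.const_mul (g 1 0 : ℂ)).add_const (g 1 1 : ℂ))
  have hnc : HasFDerivAt (fun p : C3 => nn g p.1) _ p :=
    ((h1.const_mul (g 0 0 : ℂ)).add_const (g 0 1 : ℂ))
  have hd := det_eq g
  have hdc : (g 0 0 : ℂ) * g 1 1 - (g 0 1 : ℂ) * g 1 0 = 1 := by exact_mod_cast hd
  have hji : HasFDerivAt (fun p : C3 => (jj g p.1)⁻¹) _ p := (hasFDerivAt_inv hj).comp p hjc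
  have k1 : HasFDerivAt (fun p : C3 => nn g p.1 * (jj g p.1)⁻¹) _ p := hnc.mul hji
  have k2 : HasFDerivAt (fun p : C3 => (p.2.1 + ((α 0 0 : ℂ) * p.1 + (α 0 1 : ℂ))) *
      (jj g p.1)⁻¹) _ p :=
    (h2.add ((h1.const_mul (α 0 0 : ℂ)).add_const (α 0 1 : ℂ))).mul hji
  have k3 : HasFDerivAt (fun p : C3 => (p.2.2 + ((α 1 0 : ℂ) * p.1 + (α 1 1 : ℂ))) *
      (jj g p.1)⁻¹) _ p :=
    (h3.add ((h1.const_mul (α 1 0 : ℂ)).add_const (α 1 1 : ℂ))).mul hji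
  have haff : aff g α = fun p : C3 => (nn g p.1 * (jj g p.1)⁻¹,
      (p.2.1 + ((α 0 0 : ℂ) * p.1 + (α 0 1 : ℂ))) * (jj g p.1)⁻¹,
      (p.2.2 + ((α 1 0 : ℂ) * p.1 + (α 1 1 : ℂ))) * (jj g p.1)⁻¹) := by
    funext p
    simp only [aff, div_eq_mul_inv]
  have k := k1.prodMk (k2.prodMk k3)
  rw [haff, k.fderiv]
  refine Prod.ext ?_ (Prod.ext ?_ ?_)
  · simp
    field_simp
    unfold nn jj
    linear_combination v.1 * hdc
  · simp
    field_simp
    ring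
  · simp
    field_simp
    ring

theorem slope_eq (g : SL(2, ℝ)) {t : ℂ} (ht : 0 < t.im) (A : ℂ) :
    (((A / jj g t).im / (nn g t / jj g t).im : ℝ) : ℂ) =
      ((A.im / t.im : ℝ) : ℂ) * jj g t - (g 1 0 : ℂ) * A := by
  have hn : Complex.normSq (jj g t) ≠ 0 := by simpa using jj_ne g ht
  have hre : (jj g t).re = g 1 0 * t.re + g 1 1 := by simp [jj]
  have him : (jj g t).im = g 1 0 * t.im := by simp [jj]
  have e : (A / jj g t).im / (nn g t / jj g t).im =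
      (A.im * (jj g t).re - A.re * (jj g t).im) / t.im := by
    rw [im_mob g ht, Complex.div_im]
    field_simp
  rw [e]
  apply Complex.ext
  · simp only [Complex.ofReal_re, Complex.sub_re, Complex.re_ofReal_mul, hre, him]
    field_simp
  · simp only [Complex.ofReal_im, Complex.sub_im, Complex.im_ofReal_mul, hre, him]
    field_simp
    ring

/-- the vertical component of a tangent vector. -/
noncomputable def w1 (p v : C3) : ℂ := v.2.1 - ((p.2.1.im / p.1.im : ℝ) : ℂ) * v.1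
noncomputable def w2 (p v : C3) : ℂ := v.2.2 - ((p.2.2.im / p.1.im : ℝ) : ℂ) * v.1

theorem gt_eq (p v : C3) : gt p v = Complex.normSq v.1 / p.1.im ^ 2 +
    2 / p.1.im * (Complex.normSq (w1 p v) + Complex.normSq (w2 p v)) := rfl

theorem im_add_lin (z t : ℂ) (a b : ℝ) (ht : t.im ≠ 0) :
    (((z + ((a : ℂ) * t + (b : ℂ))).im / t.im : ℝ) : ℂ) = ((z.im / t.im : ℝ) : ℂ) + a := by
  have : (z + ((a : ℂ) * t + (b : ℂ))).im = z.im + a * t.im := by simp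
  rw [this]
  push_cast
  have ht' : (t.im : ℂ) ≠ 0 := by exact_mod_cast ht
  field_simp

theorem w1_aff (g : SL(2, ℝ)) (α : Matrix (Fin 2) (Fin 2) ℝ) {p : C3} (hp : p ∈ Up) (v : C3) :
    w1 (aff g α p) (fderiv ℂ (aff g α) p v) = w1 p v / jj g p.1 := by
  have hj : jj g p.1 ≠ 0 := jj_ne g hp
  have h0 : p.1.im ≠ 0 := (mem_Up.1 hp).ne'
  rw [fderiv_aff g α hp]
  unfold w1
  have e := slope_eq g (t := p.1) hp (p.2.1 + ((α 0 0 : ℂ) * p.1 + (α 0 1 : ℂ)))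
  have e' : ((((aff g α p).2.1.im / (aff g α p).1.im : ℝ)) : ℂ) =
    (((p.2.1 + ((α 0 0 : ℂ) * p.1 + (α 0 1 : ℂ))).im / p.1.im : ℝ) : ℂ) * jj g p.1 -
      (g 1 0 : ℂ) * (p.2.1 + ((α 0 0 : ℂ) * p.1 + (α 0 1 : ℂ))) := e
  rw [e', im_add_lin _ _ _ _ h0]
  simp only
  field_simp
  ring

theorem w2_aff (g : SL(2, ℝ)) (α : Matrix (Fin 2) (Fin 2) ℝ) {p : C3} (hp : p ∈ Up) (v : C3) :
    w2 (aff g α p) (fderiv ℂ (aff g α) p v) = w2 p v / jj g p.1 := by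
  have hj : jj g p.1 ≠ 0 := jj_ne g hp
  have h0 : p.1.im ≠ 0 := (mem_Up.1 hp).ne'
  rw [fderiv_aff g α hp]
  unfold w2
  have e := slope_eq g (t := p.1) hp (p.2.2 + ((α 1 0 : ℂ) * p.1 + (α 1 1 : ℂ)))
  have e' : ((((aff g α p).2.2.im / (aff g α p).1.im : ℝ)) : ℂ) =
    (((p.2.2 + ((α 1 0 : ℂ) * p.1 + (α 1 1 : ℂ))).im / p.1.im : ℝ) : ℂ) * jj g p.1 -
      (g 1 0 : ℂ) * (p.2.2 + ((α 1 0 : ℂ) * p.1 + (α 1 1 : ℂ))) := e
  rw [e', im_add_lin _ _ _ _ h0]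
  simp only
  field_simp
  ring

theorem fst_aff (g : SL(2, ℝ)) (α : Matrix (Fin 2) (Fin 2) ℝ) {p : C3} (hp : p ∈ Up) (v : C3) :
    (fderiv ℂ (aff g α) p v).1 = v.1 / jj g p.1 ^ 2 := by
  rw [fderiv_aff g α hp]

/-- **Invariance of the metric.** -/
theorem gt_aff (g : SL(2, ℝ)) (α : Matrix (Fin 2) (Fin 2) ℝ) {p : C3} (hp : p ∈ Up) (v : C3) :
    gt (aff g α p) (fderiv ℂ (aff g α) p v) = gt p v := by
  have hn : Complex.normSq (jj g p.1) ≠ 0 := by simpa using jj_ne g hp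
  have h0 : p.1.im ≠ 0 := (mem_Up.1 hp).ne'
  have him : (aff g α p).1.im = p.1.im / Complex.normSq (jj g p.1) := im_mob g hp
  rw [gt_eq, gt_eq, w1_aff g α hp, w2_aff g α hp, fst_aff g α hp, him, map_div₀, map_div₀,
    map_div₀, map_pow]
  field_simp

end Pool.Agent.W711.KC
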