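import Pool.Agent.W711.KC.Final

/-!
# Holomorphic forms and vector fields on covers which are scaled by the automorphism
-/

set_option autoImplicit false

open scoped Manifold ContDiff Topology MatrixGroups UpperHalfPlane
open Set Filter

namespace Pool.Agent.W711.KC

/-! ### Composition of diagonal maps, and iterates -/

theorem Compat.trans {D D' : C3 →L[ℂ] C3} {p p' p'' : C3} {a b c a' b' c' : ℂ}
    (h : Compat D p p' a b c) (h' : Compat D' p' p'' a' b' c') :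
    Compat (D'.comp D) p p'' (a' * a) (b' * b) (c' * c) := by
  refine ⟨mul_ne_zero h'.ha h.ha, mul_ne_zero h'.hb h.hb, mul_ne_zero h'.hc h.hc, fun v => ?_,
    fun v => ?_, fun v => ?_⟩
  · rw [ContinuousLinearMap.comp_apply, h'.h1, h.h1, mul_assoc]
  · rw [ContinuousLinearMap.comp_apply, h'.h2, h.h2, mul_assoc]
  · rw [ContinuousLinearMap.comp_apply, h'.h3, h.h3, mul_assoc]

theorem contMDiff_fmap : ContMDiff 𝓘(ℂ, C3) 𝓘(ℂ, C3) ω (fmap 1) := contMDiff_desc _ (norm_Fs 1)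

theorem contMDiff_iter (n : ℕ) : ContMDiff 𝓘(ℂ, C3) 𝓘(ℂ, C3) ω (fmap 1)^[n] := by
  induction n with
  | zero => exact contMDiff_id
  | succ n ih => exact ih.comp contMDiff_fmap

/-- the derivative of an iterate of the automorphism. -/
theorem compat_iter (n : ℕ) (q : QQ GG) : ∃ j : ℂ, j ≠ 0 ∧
    (chartAt C3 ((fmap 1)^[n] q) ((fmap 1)^[n] q)).1.im =
      (chartAt C3 q q).1.im / Complex.normSq j ∧
    Compat (mfderiv 𝓘(ℂ, C3) 𝓘(ℂ, C3) (fmap 1)^[n] q) (chartAt C3 q q)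
      (chartAt C3 ((fmap 1)^[n] q) ((fmap 1)^[n] q)) (1 / j ^ 2)
      (((3 + 2 * √2) ^ n : ℝ) / j) (((3 - 2 * √2) ^ n : ℝ) / j) := by
  induction n generalizing q with
  | zero =>
    refine ⟨1, one_ne_zero, by simp, ?_⟩
    have e : (mfderiv 𝓘(ℂ, C3) 𝓘(ℂ, C3) (fmap 1)^[0] q : C3 →L[ℂ] C3) =
        ContinuousLinearMap.id ℂ C3 := mfderiv_id
    rw [e]
    refine ⟨by simp, by simp, by simp, fun v => by simp, fun v => by simp, fun v => by simp⟩
  | succ n ih =>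
    obtain ⟨j, hj, him, hc⟩ := compat_f q
    obtain ⟨j', hj', him', hc'⟩ := ih (fmap 1 q)
    refine ⟨j' * j, mul_ne_zero hj' hj, ?_, ?_⟩
    · rw [Function.iterate_succ_apply, him', him, map_mul]
      have h1 : Complex.normSq j ≠ 0 := by simpa using hj
      have h2 : Complex.normSq j' ≠ 0 := by simpa using hj'
      field_simp
    · have e : (mfderiv 𝓘(ℂ, C3) 𝓘(ℂ, C3) (fmap 1)^[n + 1] q : C3 →L[ℂ] C3) =
          (mfderiv 𝓘(ℂ, C3) 𝓘(ℂ, C3) (fmap 1)^[n] (fmap 1 q) : C3 →L[ℂ] C3).comp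
            (mfderiv 𝓘(ℂ, C3) 𝓘(ℂ, C3) (fmap 1) q : C3 →L[ℂ] C3) := by
        have h1 : MDifferentiableAt 𝓘(ℂ, C3) 𝓘(ℂ, C3) (fmap 1)^[n] (fmap 1 q) :=
          (contMDiff_iter n).mdifferentiable (by simp) _
        have h2 : MDifferentiableAt 𝓘(ℂ, C3) 𝓘(ℂ, C3) (fmap 1) q :=
          contMDiff_fmap.mdifferentiable (by simp) _
        exact mfderiv_comp q h1 h2
      have h3 := hc.trans hc'
      rw [Function.iterate_succ_apply]
      rw [e]
      have g1 : 1 / j' ^ 2 * (1 / j ^ 2) = 1 / (j' * j) ^ 2 := by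
        rw [mul_pow]; ring
      have g2 : (((3 + 2 * √2) ^ n : ℝ) : ℂ) / j' * ((3 + 2 * √2 : ℝ) / j) =
          (((3 + 2 * √2) ^ (n + 1) : ℝ) : ℂ) / (j' * j) := by
        push_cast
        ring
      have g3 : (((3 - 2 * √2) ^ n : ℝ) : ℂ) / j' * ((3 - 2 * √2 : ℝ) / j) =
          (((3 - 2 * √2) ^ (n + 1) : ℝ) : ℂ) / (j' * j) := by
        push_cast
        ring
      rw [g1, g2, g3] at h3
      exact h3

/-! ### Scaling of a frame -/

theorem gt_smul (p : C3) (a : ℂ) (v : C3) : gt p (a • v) = Complex.normSq a * gt p v := by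
  rw [gt_eq, gt_eq, w1_smul, w2_smul, Prod.smul_fst, smul_eq_mul, map_mul, map_mul, map_mul]
  ring

/-- `D` maps the frame `s` at `p` to a multiple of the frame at `p'`, and multiplies squared lengths
by `r`. -/
def Scale (s : C3 → C3) (D : C3 →L[ℂ] C3) (p p' : C3) (r : ℝ) : Prop :=
  (∃ a : ℂ, D (s p) = a • s p') ∧ gt p' (D (s p)) = r * gt p (s p)

section

variable {D : C3 →L[ℂ] C3} {p p' : C3} {j b c : ℂ}

theorem scale_ss (hc : Compat D p p' (1 / j ^ 2) (b / j) (c / j)) (hj : j ≠ 0) (h0 : p.1.im ≠ 0)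
    (him : p'.1.im = p.1.im / Complex.normSq j) : Scale ss D p p' (Complex.normSq c) := by
  constructor
  · have h1 : D (ss p) ∈ Bs p' := by
      rw [← hc.map_Bs]
      exact Submodule.mem_map_of_mem (by rw [Bs_eq]; exact Submodule.mem_span_singleton_self _)
    rw [Bs_eq, Submodule.mem_span_singleton] at h1
    obtain ⟨a, ha⟩ := h1
    exact ⟨a, ha.symm⟩
  · rw [hc.gt_eq hj h0 him, gt_eq]
    simp [ss, w1, w2]
    ring

theorem scale_su (hc : Compat D p p' (1 / j ^ 2) (b / j) (c / j)) (hj : j ≠ 0) (h0 : p.1.im ≠ 0)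
    (him : p'.1.im = p.1.im / Complex.normSq j) : Scale su D p p' (Complex.normSq b) := by
  constructor
  · have h1 : D (su p) ∈ Bu p' := by
      rw [← hc.map_Bu]
      exact Submodule.mem_map_of_mem (by rw [Bu_eq]; exact Submodule.mem_span_singleton_self _)
    rw [Bu_eq, Submodule.mem_span_singleton] at h1
    obtain ⟨a, ha⟩ := h1
    exact ⟨a, ha.symm⟩
  · rw [hc.gt_eq hj h0 him, gt_eq]
    simp [su, w1, w2]
    ring

theorem scale_sc (hc : Compat D p p' (1 / j ^ 2) (b / j) (c / j)) (hj : j ≠ 0) (h0 : p.1.im ≠ 0)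
    (him : p'.1.im = p.1.im / Complex.normSq j) : Scale sc D p p' 1 := by
  constructor
  · have h1 : D (sc p) ∈ Bc p' := by
      rw [← hc.map_Bc]
      exact Submodule.mem_map_of_mem (by rw [Bc_eq]; exact Submodule.mem_span_singleton_self _)
    rw [Bc_eq, Submodule.mem_span_singleton] at h1
    obtain ⟨a, ha⟩ := h1
    exact ⟨a, ha.symm⟩
  · rw [hc.gt_eq hj h0 him, gt_eq]
    simp [sc, w1, w2]

end

/-- The squared size of the covector `ζ` on the frame `s` at `p`. -/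
noncomputable def Qc (s : C3 → C3) (p : C3) (ζ : C3 →L[ℂ] ℂ) : ℝ :=
  Complex.normSq (ζ (s p)) / gt p (s p)

theorem Qc_nonneg (s : C3 → C3) {p : C3} (hp : p ∈ Up) (hs : s p ≠ 0) (ζ : C3 →L[ℂ] ℂ) :
    0 ≤ Qc s p ζ := div_nonneg (Complex.normSq_nonneg _) (gt_pos hp hs).le

theorem Qc_eq_zero {s : C3 → C3} {p : C3} (hp : p ∈ Up) (hs : s p ≠ 0) {ζ : C3 →L[ℂ] ℂ}
    (h : Qc s p ζ = 0) : ζ (s p) = 0 := by
  unfold Qc at h
  rw [div_eq_zero_iff] at h
  rcases h with h | h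
  · exact Complex.normSq_eq_zero.1 h
  · exact absurd h (gt_pos hp hs).ne'

theorem Qc_smul (s : C3 → C3) (p : C3) (α : ℂ) (ζ : C3 →L[ℂ] ℂ) :
    Qc s p (α • ζ) = Complex.normSq α * Qc s p ζ := by
  unfold Qc
  rw [_root_.smul_apply, smul_eq_mul, map_mul]
  ring

theorem Scale.Qc_comp {s : C3 → C3} {D : C3 →L[ℂ] C3} {p p' : C3} {r : ℝ}
    (h : Scale s D p p' r) (hr : r ≠ 0) (hp : p ∈ Up) (hs : s p ≠ 0) (ζ : C3 →L[ℂ] ℂ) :
    Qc s p (ζ.comp D) = r * Qc s p' ζ := by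
  obtain ⟨⟨a, ha⟩, h2⟩ := h
  have h3 : gt p (s p) ≠ 0 := (gt_pos hp hs).ne'
  have h4 : Complex.normSq a * gt p' (s p') = r * gt p (s p) := by
    rw [← gt_smul, ← ha, h2]
  have h5 : Complex.normSq a * gt p' (s p') ≠ 0 := by
    rw [h4]
    exact mul_ne_zero hr h3
  have h6 : Complex.normSq a ≠ 0 := left_ne_zero_of_mul h5
  have h7 : gt p' (s p') ≠ 0 := right_ne_zero_of_mul h5
  unfold Qc
  rw [ContinuousLinearMap.comp_apply, ha, map_smul, smul_eq_mul, map_mul]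
  rw [div_eq_iff h3]
  field_simp
  linear_combination (Complex.normSq (ζ (s p'))) * h4

end Pool.Agent.W711.KC
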