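import Pool.Agent.W711.KC.Cov

/-!
# Scaled holomorphic families of covectors and of vectors vanish
-/

set_option autoImplicit false

open scoped Manifold ContDiff Topology MatrixGroups UpperHalfPlane
open Set Filter

namespace Pool.Agent.W711.KC

/-- the coordinates of a point in its preferred chart. -/
noncomputable abbrev ce (q : QQ GG) : C3 := chartAt C3 q q

/-- the coordinate change from the preferred chart at `q` to the one at `q₀`. -/
noncomputable def cg (q q₀ : QQ GG) : C3 →L[ℂ] C3 := tangentCoordChange 𝓘(ℂ, C3) q q₀ q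

/-- the derivative of an iterate of the automorphism. -/
noncomputable def dn (n : ℕ) (q : QQ GG) : C3 →L[ℂ] C3 :=
  mfderiv 𝓘(ℂ, C3) 𝓘(ℂ, C3) (fmap 1)^[n] q

theorem ce_mem (q : QQ GG) : ce q ∈ Up := chart_self_mem q

theorem ce_im (q : QQ GG) : (ce q).1.im ≠ 0 := (mem_Up.1 (ce_mem q)).ne'

theorem compat_cg {q q₀ : QQ GG} (hq : q ∈ (chartAt C3 q₀).source) : ∃ j : ℂ, j ≠ 0 ∧
    (chartAt C3 q₀ q).1.im = (ce q).1.im / Complex.normSq j ∧
    Compat (cg q q₀) (ce q) (chartAt C3 q₀ q) (1 / j ^ 2) (1 / j) (1 / j) := by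
  obtain ⟨γ, hγ, h1, h2⟩ := tangentCoordChange_eq (mem_chart_source C3 q) hq
  obtain ⟨j, hj, him, h3⟩ := compat_deck hγ (chart_self_mem q)
  unfold cg
  rw [h2, ← h1]
  exact ⟨j, hj, him, h3⟩

section

variable {X : Type} [TopologicalSpace X] {V : Type} [NormedAddCommGroup V] [NormedSpace ℂ V]

/-- A family of linear maps on the tangent spaces of the quotient, over a map `π : X → QQ GG`, which
is locally given by a holomorphic function on the quotient. -/
def HolForm (π : X → QQ GG) (L : X → (C3 →L[ℂ] V)) : Prop :=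
  ∀ x₀, ∃ θ : C3 → (C3 →L[ℂ] V), DifferentiableAt ℂ θ (ce (π x₀)) ∧
    ∀ᶠ x in 𝓝 x₀, L x = (θ (chartAt C3 (π x₀) (π x))).comp (cg (π x) (π x₀))

/-- A family of tangent vectors of the quotient, over a map `π : X → QQ GG`, which is locally given
by a holomorphic vector field on the quotient. -/
def HolVec (π : X → QQ GG) (v : X → C3) : Prop :=
  ∀ x₀, ∃ w : C3 → C3, DifferentiableAt ℂ w (ce (π x₀)) ∧
    ∀ᶠ x in 𝓝 x₀, cg (π x) (π x₀) (v x) = w (chartAt C3 (π x₀) (π x))

theorem HolForm.clm {W : Type} [NormedAddCommGroup W] [NormedSpace ℂ W] {π : X → QQ GG}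
    {L : X → (C3 →L[ℂ] V)} (h : HolForm π L) (ℓ : V →L[ℂ] W) :
    HolForm π (fun x => ℓ.comp (L x)) := by
  intro x₀
  obtain ⟨θ, h1, h2⟩ := h x₀
  refine ⟨fun y => ℓ.comp (θ y), ?_, ?_⟩
  · exact (differentiableAt_const ℓ).clm_comp h1
  · filter_upwards [h2] with x hx
    rw [hx]
    rfl

/-- a locally bounded function on a compact space is bounded. -/
theorem bounded_of_local [CompactSpace X] {u : X → ℝ}
    (h : ∀ x₀, ∃ C, ∀ᶠ x in 𝓝 x₀, u x ≤ C) : ∃ C, ∀ x, u x ≤ C := by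
  choose C hC using h
  obtain ⟨t, ht⟩ := CompactSpace.elim_nhds_subcover (fun x₀ => {x | u x ≤ C x₀}) (fun x₀ => hC x₀)
  rcases isEmpty_or_nonempty X with he | hne
  · exact ⟨0, fun x => (he.false x).elim⟩
  have htn : t.Nonempty := by
    obtain ⟨x⟩ := hne
    have : x ∈ (⊤ : Set X) := trivial
    rw [← ht] at this
    simp only [mem_iUnion] at this
    obtain ⟨y, hy, -⟩ := this
    exact ⟨y, hy⟩
  refine ⟨t.sup' htn C, fun x => ?_⟩
  have : x ∈ (⊤ : Set X) := trivial
  rw [← ht] at this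
  simp only [mem_iUnion] at this
  obtain ⟨y, hy, hxy⟩ := this
  exact le_trans hxy (Finset.le_sup' C hy)

omit [TopologicalSpace X] in
/-- a bounded nonnegative function which is scaled by a surjective map vanishes. -/
theorem zero_of_scale {u : X → ℝ} (h0 : ∀ x, 0 ≤ u x) {C : ℝ} (hC : ∀ x, u x ≤ C) {F : X → X}
    (hF : Function.Surjective F) {a b : ℝ} (ha : 0 ≤ a) (hb : 0 < b) (hab : a ≠ b)
    (h : ∀ x, a * u x = b * u (F x)) : ∀ x, u x = 0 := by
  have key : ∀ r : ℝ, 0 ≤ r → r < 1 → ∀ y, ∀ z : ℕ → X, z 0 = y →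
      (∀ k, u (z k) = r * u (z (k + 1))) → u y = 0 := by
    intro r hr0 hr y z hz hz1
    have h2 : ∀ k, u y = r ^ k * u (z k) := by
      intro k
      induction k with
      | zero => rw [hz]; simp
      | succ k ih => rw [ih, hz1 k, pow_succ]; ring
    have h3 : ∀ k, u y ≤ r ^ k * C := by
      intro k
      rw [h2 k]
      exact mul_le_mul_of_nonneg_left (hC _) (pow_nonneg hr0 k)
    have h4 : Tendsto (fun k : ℕ => r ^ k * C) atTop (𝓝 (0 * C)) :=
      (tendsto_pow_atTop_nhds_zero_of_lt_one hr0 hr).mul_const C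
    rw [zero_mul] at h4
    exact le_antisymm (ge_of_tendsto' h4 h3) (h0 y)
  intro x
  rcases lt_or_gt_of_ne hab with hlt | hgt
  · -- `u (F x) = (a / b) u x`
    obtain ⟨G, hG⟩ := hF.hasRightInverse
    refine key (a / b) (div_nonneg ha hb.le) ((div_lt_one hb).2 hlt) x (fun k => G^[k] x) rfl ?_
    intro k
    have h1 := h (G (G^[k] x))
    rw [hG] at h1
    rw [Function.iterate_succ_apply']
    field_simp
    linarith
  · have ha' : 0 < a := hb.trans hgt
    refine key (b / a) (div_nonneg hb.le ha'.le) ((div_lt_one ha').2 hgt) x (fun k => F^[k] x) rfl ?_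
    intro k
    have h1 := h (F^[k] x)
    rw [Function.iterate_succ_apply']
    field_simp
    linarith

theorem continuousAt_gt {s : C3 → C3} {y₀ : C3} (hy₀ : y₀ ∈ Up) (hs : ContinuousAt s y₀) :
    ContinuousAt (fun y => gt y (s y)) y₀ := by
  have h0 : y₀.1.im ≠ 0 := (mem_Up.1 hy₀).ne'
  have i1 : ContinuousAt (fun y : C3 => y.1.im) y₀ :=
    (Complex.continuous_im.comp continuous_fst).continuousAt
  have i2 : ContinuousAt (fun y : C3 => y.2.1.im) y₀ :=
    (Complex.continuous_im.comp (continuous_fst.comp continuous_snd)).continuousAt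
  have i3 : ContinuousAt (fun y : C3 => y.2.2.im) y₀ :=
    (Complex.continuous_im.comp (continuous_snd.comp continuous_snd)).continuousAt
  have s1 : ContinuousAt (fun y => (s y).1) y₀ := hs.fst
  have s2 : ContinuousAt (fun y => (s y).2.1) y₀ := hs.snd.fst
  have s3 : ContinuousAt (fun y => (s y).2.2) y₀ := hs.snd.snd
  have c1 : ContinuousAt (fun y : C3 => ((y.2.1.im / y.1.im : ℝ) : ℂ)) y₀ :=
    Complex.continuous_ofReal.continuousAt.comp (i2.div i1 h0)
  have c2 : ContinuousAt (fun y : C3 => ((y.2.2.im / y.1.im : ℝ) : ℂ)) y₀ :=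
    Complex.continuous_ofReal.continuousAt.comp (i3.div i1 h0)
  have e : (fun y => gt y (s y)) = fun y => Complex.normSq (s y).1 / y.1.im ^ 2 +
      2 / y.1.im * (Complex.normSq ((s y).2.1 - ((y.2.1.im / y.1.im : ℝ) : ℂ) * (s y).1) +
        Complex.normSq ((s y).2.2 - ((y.2.2.im / y.1.im : ℝ) : ℂ) * (s y).1)) := by
    funext y
    rfl
  rw [e]
  have hn := Complex.continuous_normSq
  refine ContinuousAt.add ?_ (ContinuousAt.mul ?_ (ContinuousAt.add ?_ ?_))
  · exact (hn.continuousAt.comp s1).div (i1.pow 2) (pow_ne_zero 2 h0)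
  · exact continuousAt_const.div i1 h0
  · exact hn.continuousAt.comp (s2.sub (c1.mul s1))
  · exact hn.continuousAt.comp (s3.sub (c2.mul s1))

/-- the size of a holomorphic family of covectors is bounded. -/
theorem Qc_bounded [CompactSpace X] {π : X → QQ GG} (hπ : Continuous π) {ζ : X → (C3 →L[ℂ] ℂ)}
    (h : HolForm π ζ) {s : C3 → C3} (hs : ContinuousOn s Up) (hs0 : ∀ p, s p ≠ 0)
    (hsc : ∀ (D : C3 →L[ℂ] C3) (p p' : C3) (j : ℂ), Compat D p p' (1 / j ^ 2) (1 / j) (1 / j) →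
      j ≠ 0 → p.1.im ≠ 0 → p'.1.im = p.1.im / Complex.normSq j → Scale s D p p' 1) :
    ∃ C, ∀ x, Qc s (ce (π x)) (ζ x) ≤ C := by
  apply bounded_of_local
  intro x₀
  obtain ⟨θ, h1, h2⟩ := h x₀
  have hy₀ := ce_mem (π x₀)
  have hsy : ContinuousAt s (ce (π x₀)) := hs.continuousAt (Up.isOpen.mem_nhds hy₀)
  have hc : ContinuousAt (fun y => Qc s y (θ y)) (ce (π x₀)) := by
    refine ContinuousAt.div ?_ (continuousAt_gt hy₀ hsy) (gt_pos hy₀ (hs0 _)).ne'
    exact Complex.continuous_normSq.continuousAt.comp (h1.continuousAt.clm_apply hsy)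
  have hb : ∀ᶠ y in 𝓝 (ce (π x₀)), Qc s y (θ y) < Qc s (ce (π x₀)) (θ (ce (π x₀))) + 1 :=
    hc.eventually_lt continuousAt_const (by simp)
  have hch : ContinuousAt (fun x => chartAt C3 (π x₀) (π x)) x₀ :=
    ContinuousAt.comp (g := chartAt C3 (π x₀))
      ((chartAt C3 (π x₀)).continuousAt (mem_chart_source C3 _)) hπ.continuousAt
  have hsrc : ∀ᶠ x in 𝓝 x₀, π x ∈ (chartAt C3 (π x₀)).source :=
    hπ.continuousAt.eventually_mem ((chartAt C3 (π x₀)).open_source.mem_nhds
      (mem_chart_source C3 _))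
  refine ⟨Qc s (ce (π x₀)) (θ (ce (π x₀))) + 1, ?_⟩
  filter_upwards [h2, hch.eventually hb, hsrc] with x hx1 hx2 hx3
  obtain ⟨j, hj, him, hcj⟩ := compat_cg hx3
  have hsc' := hsc _ _ _ j hcj hj (ce_im _) him
  rw [hx1, hsc'.Qc_comp one_ne_zero (ce_mem _) (hs0 _), one_mul]
  exact hx2.le

end

end Pool.Agent.W711.KC
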