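import Pool.Agent.W711.KC.Cov2

/-!
# Scaled holomorphic families of covectors and of vectors vanish: the end
-/

set_option autoImplicit false

open scoped Manifold ContDiff Topology MatrixGroups UpperHalfPlane
open Set Filter

namespace Pool.Agent.W711.KC

theorem continuousOn_sc : ContinuousOn sc Up := by
  have hd : ContinuousOn (fun p : C3 => p.1.im) Up :=
    (Complex.continuous_im.comp continuous_fst).continuousOn
  have h1 : ContinuousOn (fun p : C3 => p.2.1.im) Up :=
    (Complex.continuous_im.comp (continuous_fst.comp continuous_snd)).continuousOn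
  have h2 : ContinuousOn (fun p : C3 => p.2.2.im) Up :=
    (Complex.continuous_im.comp (continuous_snd.comp continuous_snd)).continuousOn
  have h0 : ∀ p ∈ (Up : Set C3), p.1.im ≠ 0 := fun p hp => (mem_Up.1 hp).ne'
  exact continuousOn_const.prodMk
    ((Complex.continuous_ofReal.comp_continuousOn (h1.div hd h0)).prodMk
      (Complex.continuous_ofReal.comp_continuousOn (h2.div hd h0)))

/-- `Im w` over a fixed `τ` is not complex differentiable. -/
theorem not_holomorphic_slope' {p : C3} (hp : p ∈ Up) :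
    ¬ DifferentiableAt ℂ (fun w : C3 => ((w.2.2.im / w.1.im : ℝ) : ℂ)) p := by
  intro h
  have h1 : DifferentiableAt ℂ (fun w : C3 => ((w.1, w.2.2, w.2.1) : C3)) (p.1, p.2.2, p.2.1) :=
    differentiableAt_fst.prodMk (differentiableAt_snd.snd.prodMk differentiableAt_snd.fst)
  have hp' : ((p.1, p.2.2, p.2.1) : C3) ∈ Up := hp
  apply not_holomorphic_slope hp'
  exact DifferentiableAt.comp (g := fun w : C3 => ((w.2.2.im / w.1.im : ℝ) : ℂ))
    ((p.1, p.2.2, p.2.1) : C3) h h1

/-- there is no nonzero holomorphic section of the center direction. -/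
theorem no_section {u : C3 → C3} {y₀ : C3} (hy₀ : y₀ ∈ Up) (hud : DifferentiableAt ℂ u y₀)
    (hmem : ∀ᶠ y in 𝓝 y₀, u y ∈ Bc y) : u y₀ = 0 := by
  by_contra hu0
  have hform : ∀ᶠ y in 𝓝 y₀, u y = (u y).1 • sc y := by
    filter_upwards [hmem] with y hy
    rw [Bc_eq, Submodule.mem_span_singleton] at hy
    obtain ⟨c, hc⟩ := hy
    have hc' : u y = c • sc y := hc.symm
    rw [hc']
    congr 1
    simp [sc]
  have hfst : (u y₀).1 ≠ 0 := by
    intro h0
    apply hu0
    rw [hform.self_of_nhds, h0, zero_smul]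
  have hu1 : DifferentiableAt ℂ (fun y => (u y).1) y₀ := hud.fst
  have hu2 : DifferentiableAt ℂ (fun y => (u y).2.1) y₀ := hud.snd.fst
  have hquot : DifferentiableAt ℂ (fun y => (u y).2.1 / (u y).1) y₀ :=
    by simpa only [div_eq_mul_inv] using hu2.fun_mul (hu1.fun_inv hfst)
  apply not_holomorphic_slope hy₀
  refine hquot.congr_of_eventuallyEq ?_
  filter_upwards [hform, hu1.continuousAt.eventually_ne hfst] with y hy hy1
  have : (u y).2.1 = (u y).1 * ((y.2.1.im / y.1.im : ℝ) : ℂ) := by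
    conv_lhs => rw [hy]
    simp [sc]
  rw [this]
  field_simp

/-- there is no nonzero holomorphic covector field which vanishes on the center direction and on
the stable or the unstable direction. -/
theorem no_covector {θ : C3 → (C3 →L[ℂ] ℂ)} {y₀ : C3} (hy₀ : y₀ ∈ Up)
    (hθ : DifferentiableAt ℂ θ y₀) (hc : ∀ᶠ y in 𝓝 y₀, θ y (sc y) = 0)
    (hsu : (∀ᶠ y in 𝓝 y₀, θ y (ss y) = 0) ∨ ∀ᶠ y in 𝓝 y₀, θ y (su y) = 0) : θ y₀ = 0 := by
  have d : ∀ v : C3, DifferentiableAt ℂ (fun y => θ y v) y₀ := fun v =>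
    hθ.clm_apply (differentiableAt_const v)
  have hdec : ∀ (L : C3 →L[ℂ] ℂ) (v : C3), L v = v.1 * L (1, 0, 0) + v.2.1 * L (0, 1, 0) +
      v.2.2 * L (0, 0, 1) := by
    intro L v
    have e : v = v.1 • ((1, 0, 0) : C3) + v.2.1 • ((0, 1, 0) : C3) + v.2.2 • ((0, 0, 1) : C3) := by
      refine Prod.ext ?_ (Prod.ext ?_ ?_) <;> simp
    conv_lhs => rw [e]
    rw [map_add, map_add, map_smul, map_smul, map_smul]
    rfl
  by_contra hne
  rcases hsu with hs | hs
  · have hs0 : θ y₀ (0, 0, 1) = 0 := hs.self_of_nhds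
    have h2 : θ y₀ (0, 1, 0) ≠ 0 := by
      intro h0
      have hc0 := hc.self_of_nhds
      rw [hdec, h0, hs0] at hc0
      simp [sc] at hc0
      apply hne
      refine ContinuousLinearMap.ext fun v => ?_
      rw [hdec, hc0, h0, hs0]
      simp
    apply not_holomorphic_slope hy₀
    have hq : DifferentiableAt ℂ (fun y => -(θ y (1, 0, 0)) / θ y (0, 1, 0)) y₀ := by
      simpa only [div_eq_mul_inv] using (d (1, 0, 0)).fun_neg.fun_mul ((d (0, 1, 0)).fun_inv h2)
    refine hq.congr_of_eventuallyEq ?_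
    filter_upwards [hc, hs, (d (0, 1, 0)).continuousAt.eventually_ne h2] with y hy hy1 hy2
    rw [hdec] at hy
    have hy1' : θ y (0, 0, 1) = 0 := hy1
    rw [hy1'] at hy
    simp only [sc, one_mul, mul_zero, add_zero] at hy
    rw [eq_div_iff hy2]
    linear_combination hy
  · have hs0 : θ y₀ (0, 1, 0) = 0 := hs.self_of_nhds
    have h2 : θ y₀ (0, 0, 1) ≠ 0 := by
      intro h0
      have hc0 := hc.self_of_nhds
      rw [hdec, h0, hs0] at hc0
      simp [sc] at hc0
      apply hne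
      refine ContinuousLinearMap.ext fun v => ?_
      rw [hdec, hc0, h0, hs0]
      simp
    apply not_holomorphic_slope' hy₀
    have hq : DifferentiableAt ℂ (fun y => -(θ y (1, 0, 0)) / θ y (0, 0, 1)) y₀ := by
      simpa only [div_eq_mul_inv] using (d (1, 0, 0)).fun_neg.fun_mul ((d (0, 0, 1)).fun_inv h2)
    refine hq.congr_of_eventuallyEq ?_
    filter_upwards [hc, hs, (d (0, 0, 1)).continuousAt.eventually_ne h2] with y hy hy1 hy2
    rw [hdec] at hy
    have hy1' : θ y (0, 1, 0) = 0 := hy1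
    rw [hy1'] at hy
    simp only [sc, one_mul, mul_zero, add_zero] at hy
    rw [eq_div_iff hy2]
    linear_combination hy

section

variable {X : Type} [TopologicalSpace X]

/-- a property near a point of the quotient, from the map `π`. -/
theorem eventually_chart {π : X → QQ GG} (hπ : ∀ x, map π (𝓝 x) = 𝓝 (π x)) {x₀ : X}
    {P : C3 → Prop} (h : ∀ᶠ x in 𝓝 x₀, P (chartAt C3 (π x₀) (π x))) :
    ∀ᶠ y in 𝓝 (ce (π x₀)), P y := by
  have h1 : ∀ᶠ q in 𝓝 (π x₀), P (chartAt C3 (π x₀) q) := by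
    rw [← hπ x₀, eventually_map]
    exact h
  have hm : ce (π x₀) ∈ (chartAt C3 (π x₀)).target :=
    (chartAt C3 (π x₀)).map_source (mem_chart_source C3 _)
  have h2 := ((chartAt C3 (π x₀)).continuousAt_symm hm).tendsto
  rw [(chartAt C3 (π x₀)).left_inv (mem_chart_source C3 _)] at h2
  filter_upwards [h2.eventually h1, (chartAt C3 (π x₀)).open_target.mem_nhds hm] with y hy hy1
  rwa [(chartAt C3 (π x₀)).right_inv hy1] at hy

theorem continuous_of_map {π : X → QQ GG} (hπ : ∀ x, map π (𝓝 x) = 𝓝 (π x)) : Continuous π :=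
  continuous_iff_continuousAt.2 fun x => (hπ x).le

theorem chart_eventually {π : X → QQ GG} (hπ : ∀ x, map π (𝓝 x) = 𝓝 (π x)) (x₀ : X) :
    ∀ᶠ x in 𝓝 x₀, π x ∈ (chartAt C3 (π x₀)).source :=
  (continuous_of_map hπ).continuousAt.eventually_mem
    ((chartAt C3 (π x₀)).open_source.mem_nhds (mem_chart_source C3 _))

theorem mu_facts {n : ℕ} (hn : 1 ≤ n) : Complex.normSq (((3 - 2 * √2) ^ n : ℝ) : ℂ) < 1 ∧
    1 < Complex.normSq (((3 + 2 * √2) ^ n : ℝ) : ℂ) ∧
    0 < Complex.normSq (((3 - 2 * √2) ^ n : ℝ) : ℂ) := by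
  obtain ⟨b1, b2, b3⟩ := sqrt_bounds
  rw [Complex.normSq_ofReal, Complex.normSq_ofReal]
  have h1 : (3 - 2 * √2) ^ n < 1 := pow_lt_one₀ b1.le b2 (by lia)
  have h2 : 1 < (3 + 2 * √2) ^ n := one_lt_pow₀ b3 (by lia)
  have h3 : 0 < (3 - 2 * √2) ^ n := pow_pos b1 n
  refine ⟨by nlinarith, by nlinarith, by positivity⟩

/-- **A holomorphic family of covectors which is scaled by a factor of modulus different from one
vanishes.** -/
theorem form_zero [CompactSpace X] {π : X → QQ GG} (hπ : ∀ x, map π (𝓝 x) = 𝓝 (π x))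
    {ζ : X → (C3 →L[ℂ] ℂ)} (h : HolForm π ζ) {F : X → X} (hF : Function.Surjective F) {n : ℕ}
    (hn : 1 ≤ n) (hcomm : ∀ x, π (F x) = (fmap 1)^[n] (π x)) {α : ℂ} (hα : Complex.normSq α ≠ 1)
    (hs : ∀ x, (ζ (F x)).comp (dn n (π x)) =
      α • ζ x) : ∀ x, ζ x = 0 := by
  have hπc := continuous_of_map hπ
  obtain ⟨m1, m2, m3⟩ := mu_facts hn
  -- the vanishing on a frame
  have key : ∀ (s : C3 → C3) (r : ℝ), ContinuousOn s Up → (∀ p, s p ≠ 0) →
      (∀ (D : C3 →L[ℂ] C3) (p p' : C3) (j : ℂ), Compat D p p' (1 / j ^ 2) (1 / j) (1 / j) →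
        j ≠ 0 → p.1.im ≠ 0 → p'.1.im = p.1.im / Complex.normSq j → Scale s D p p' 1) →
      (∀ x, Scale s (dn n (π x)) (ce (π x))
        (ce (π (F x))) r) → 0 < r → Complex.normSq α ≠ r → ∀ x, ζ x (s (ce (π x))) = 0 := by
    intro s r hsc hs0 hs1 hs2 hr hαr x
    obtain ⟨C, hC⟩ := Qc_bounded hπc h hsc hs0 hs1
    have h0 : ∀ x, 0 ≤ Qc s (ce (π x)) (ζ x) := fun x => Qc_nonneg s (ce_mem _) (hs0 _) _
    apply Qc_eq_zero (ce_mem _) (hs0 _)
    refine zero_of_scale h0 hC hF (Complex.normSq_nonneg α) hr hαr (fun x => ?_) x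
    rw [← Qc_smul, ← hs x, (hs2 x).Qc_comp hr.ne' (ce_mem _) (hs0 _)]
  have hcomp : ∀ x, ∃ j : ℂ, j ≠ 0 ∧
      (ce (π (F x))).1.im = (ce (π x)).1.im / Complex.normSq j ∧
      Compat (dn n (π x)) (ce (π x))
        (ce (π (F x))) (1 / j ^ 2) (((3 + 2 * √2) ^ n : ℝ) / j) (((3 - 2 * √2) ^ n : ℝ) / j) := by
    intro x
    rw [hcomm x]
    exact compat_iter n (π x)
  have kc : ∀ x, ζ x (sc (ce (π x))) = 0 := by
    refine key sc 1 continuousOn_sc sc_ne (fun D p p' j hc hj h0 him => scale_sc hc hj h0 him) ?_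
      one_pos hα
    intro x
    obtain ⟨j, hj, him, hc⟩ := hcomp x
    exact scale_sc hc hj (ce_im _) him
  have ksu : (∀ x, ζ x (ss (ce (π x))) = 0) ∨ ∀ x, ζ x (su (ce (π x))) = 0 := by
    by_cases hαs : Complex.normSq α = Complex.normSq (((3 - 2 * √2) ^ n : ℝ) : ℂ)
    · right
      refine key su _ continuousOn_const su_ne (fun D p p' j hc hj h0 him => ?_) ?_
        (zero_lt_one.trans m2) (by rw [hαs]; linarith)
      · have := scale_su hc hj h0 him
        simpa using this
      · intro x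
        obtain ⟨j, hj, him, hc⟩ := hcomp x
        exact scale_su hc hj (ce_im _) him
    · left
      refine key ss _ continuousOn_const ss_ne (fun D p p' j hc hj h0 him => ?_) ?_
        m3 hαs
      · have := scale_ss hc hj h0 him
        simpa using this
      · intro x
        obtain ⟨j, hj, him, hc⟩ := hcomp x
        exact scale_ss hc hj (ce_im _) him
  intro x₀
  obtain ⟨θ, h1, h2⟩ := h x₀
  -- transport of the vanishing to the chart
  have htr : ∀ s : C3 → C3, (∀ p, s p ≠ 0) →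
      (∀ (D : C3 →L[ℂ] C3) (p p' : C3) (j : ℂ), Compat D p p' (1 / j ^ 2) (1 / j) (1 / j) →
        j ≠ 0 → p.1.im ≠ 0 → p'.1.im = p.1.im / Complex.normSq j → Scale s D p p' 1) →
      (∀ x, ζ x (s (ce (π x))) = 0) → ∀ᶠ y in 𝓝 (ce (π x₀)), θ y (s y) = 0 := by
    intro s hs0 hs1 hs2
    apply eventually_chart hπ
    filter_upwards [h2, chart_eventually hπ x₀] with x hx1 hx2
    obtain ⟨j, hj, him, hcj⟩ := compat_cg hx2
    obtain ⟨⟨a, ha⟩, -⟩ := hs1 _ _ _ j hcj hj (ce_im _) him
    have h3 := hs2 x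
    rw [hx1, ContinuousLinearMap.comp_apply, ha, map_smul, smul_eq_mul, mul_eq_zero] at h3
    rcases h3 with h3 | h3
    · exfalso
      rw [h3, zero_smul] at ha
      exact hs0 _ (hcj.injective (ha.trans (map_zero _).symm))
    · exact h3
  have hθ0 : θ (ce (π x₀)) = 0 := by
    refine no_covector (ce_mem _) h1
      (htr sc sc_ne (fun D p p' j hc hj h0 him => scale_sc hc hj h0 him) kc) ?_
    rcases ksu with hk | hk
    · left
      refine htr ss ss_ne (fun D p p' j hc hj h0 him => ?_) hk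
      have := scale_ss hc hj h0 him
      simpa using this
    · right
      refine htr su su_ne (fun D p p' j hc hj h0 him => ?_) hk
      have := scale_su hc hj h0 him
      simpa using this
  have h3 := h2.self_of_nhds
  rw [h3]
  have h4 : θ (chartAt C3 (π x₀) (π x₀)) = 0 := hθ0
  rw [h4, ContinuousLinearMap.zero_comp]

end

end Pool.Agent.W711.KC
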