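import Pool.Agent.W711.KC.Cov3

/-!
# Scaled holomorphic families of vectors vanish
-/

set_option autoImplicit false

open scoped Manifold ContDiff Topology MatrixGroups UpperHalfPlane
open Set Filter

namespace Pool.Agent.W711.KC

/-- The squared size of a vertical component of a vector. -/
noncomputable def Qv (w : C3 → C3 → ℂ) (p v : C3) : ℝ := 2 / p.1.im * Complex.normSq (w p v)

theorem Qv_nonneg (w : C3 → C3 → ℂ) {p : C3} (hp : p ∈ Up) (v : C3) : 0 ≤ Qv w p v := by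
  have : 0 < p.1.im := mem_Up.1 hp
  unfold Qv
  exact mul_nonneg (by positivity) (Complex.normSq_nonneg _)

theorem Qv_eq_zero {w : C3 → C3 → ℂ} {p v : C3} (hp : p ∈ Up) (h : Qv w p v = 0) : w p v = 0 := by
  have h0 : 0 < p.1.im := mem_Up.1 hp
  unfold Qv at h
  rcases mul_eq_zero.1 h with h | h
  · exact absurd h (by positivity)
  · exact Complex.normSq_eq_zero.1 h

theorem Qv_scale {w : C3 → C3 → ℂ} {p p' v v' : C3} {b j : ℂ} (hj : j ≠ 0) (h0 : p.1.im ≠ 0)
    (him : p'.1.im = p.1.im / Complex.normSq j) (hw : w p' v' = b / j * w p v) :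
    Qv w p' v' = Complex.normSq b * Qv w p v := by
  have hn : Complex.normSq j ≠ 0 := by simpa using hj
  unfold Qv
  rw [hw, him, map_mul, map_div₀]
  field_simp

theorem Qv_smul1 (p : C3) (α : ℂ) (v : C3) : Qv w1 p (α • v) = Complex.normSq α * Qv w1 p v := by
  unfold Qv
  rw [w1_smul, map_mul]
  ring

theorem Qv_smul2 (p : C3) (α : ℂ) (v : C3) : Qv w2 p (α • v) = Complex.normSq α * Qv w2 p v := by
  unfold Qv
  rw [w2_smul, map_mul]
  ring

theorem continuousAt_w1 {s : C3 → C3} {y₀ : C3} (hy₀ : y₀ ∈ Up) (hs : ContinuousAt s y₀) :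
    ContinuousAt (fun y => w1 y (s y)) y₀ := by
  have h0 : y₀.1.im ≠ 0 := (mem_Up.1 hy₀).ne'
  have i1 : ContinuousAt (fun y : C3 => y.1.im) y₀ :=
    (Complex.continuous_im.comp continuous_fst).continuousAt
  have i2 : ContinuousAt (fun y : C3 => y.2.1.im) y₀ :=
    (Complex.continuous_im.comp (continuous_fst.comp continuous_snd)).continuousAt
  have s1 : ContinuousAt (fun y => (s y).1) y₀ := hs.fst
  have s2 : ContinuousAt (fun y => (s y).2.1) y₀ := hs.snd.fst
  have c1 : ContinuousAt (fun y : C3 => ((y.2.1.im / y.1.im : ℝ) : ℂ)) y₀ :=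
    Complex.continuous_ofReal.continuousAt.comp (i2.div i1 h0)
  exact s2.sub (c1.mul s1)

theorem continuousAt_w2 {s : C3 → C3} {y₀ : C3} (hy₀ : y₀ ∈ Up) (hs : ContinuousAt s y₀) :
    ContinuousAt (fun y => w2 y (s y)) y₀ := by
  have h0 : y₀.1.im ≠ 0 := (mem_Up.1 hy₀).ne'
  have i1 : ContinuousAt (fun y : C3 => y.1.im) y₀ :=
    (Complex.continuous_im.comp continuous_fst).continuousAt
  have i2 : ContinuousAt (fun y : C3 => y.2.2.im) y₀ :=
    (Complex.continuous_im.comp (continuous_snd.comp continuous_snd)).continuousAt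
  have s1 : ContinuousAt (fun y => (s y).1) y₀ := hs.fst
  have s2 : ContinuousAt (fun y => (s y).2.2) y₀ := hs.snd.snd
  have c1 : ContinuousAt (fun y : C3 => ((y.2.2.im / y.1.im : ℝ) : ℂ)) y₀ :=
    Complex.continuous_ofReal.continuousAt.comp (i2.div i1 h0)
  exact s2.sub (c1.mul s1)

section

variable {X : Type} [TopologicalSpace X]

theorem Qv_bounded [CompactSpace X] {π : X → QQ GG} (hπ : ∀ x, map π (𝓝 x) = 𝓝 (π x))
    {v : X → C3} (h : HolVec π v) {w : C3 → C3 → ℂ}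
    (hw : ∀ (s : C3 → C3) (y₀ : C3), y₀ ∈ Up → ContinuousAt s y₀ →
      ContinuousAt (fun y => w y (s y)) y₀)
    (hw' : ∀ (D : C3 →L[ℂ] C3) (p p' : C3) (j : ℂ), Compat D p p' (1 / j ^ 2) (1 / j) (1 / j) →
      ∀ v, w p' (D v) = 1 / j * w p v) :
    ∃ C, ∀ x, Qv w (ce (π x)) (v x) ≤ C := by
  have hπc := continuous_of_map hπ
  apply bounded_of_local
  intro x₀
  obtain ⟨u, h1, h2⟩ := h x₀
  have hy₀ := ce_mem (π x₀)
  have hc : ContinuousAt (fun y => Qv w y (u y)) (ce (π x₀)) := by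
    have i1 : ContinuousAt (fun y : C3 => y.1.im) (ce (π x₀)) :=
      (Complex.continuous_im.comp continuous_fst).continuousAt
    exact (continuousAt_const.div i1 (ce_im _)).mul
      (Complex.continuous_normSq.continuousAt.comp (hw u _ hy₀ h1.continuousAt))
  have hb : ∀ᶠ y in 𝓝 (ce (π x₀)), Qv w y (u y) < Qv w (ce (π x₀)) (u (ce (π x₀))) + 1 :=
    hc.eventually_lt continuousAt_const (by simp)
  have hch : ContinuousAt (fun x => chartAt C3 (π x₀) (π x)) x₀ :=
    ContinuousAt.comp (g := chartAt C3 (π x₀))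
      ((chartAt C3 (π x₀)).continuousAt (mem_chart_source C3 _)) hπc.continuousAt
  refine ⟨Qv w (ce (π x₀)) (u (ce (π x₀))) + 1, ?_⟩
  filter_upwards [h2, hch.eventually hb, chart_eventually hπ x₀] with x hx1 hx2 hx3
  obtain ⟨j, hj, him, hcj⟩ := compat_cg hx3
  have e := Qv_scale (w := w) (v := v x) (v' := cg (π x) (π x₀) (v x)) (b := 1) hj (ce_im _) him
    (hw' _ _ _ j hcj _)
  rw [map_one, one_mul] at e
  rw [← e, hx1]
  exact hx2.le

/-- **A holomorphic family of vectors which is scaled by a factor of modulus one vanishes.** -/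
theorem vec_zero [CompactSpace X] {π : X → QQ GG} (hπ : ∀ x, map π (𝓝 x) = 𝓝 (π x))
    {v : X → C3} (h : HolVec π v) {F : X → X} (hF : Function.Surjective F) {n : ℕ}
    (hn : 1 ≤ n) (hcomm : ∀ x, π (F x) = (fmap 1)^[n] (π x)) {α : ℂ} (hα : Complex.normSq α = 1)
    (hs : ∀ x, dn n (π x) (v x) = α • v (F x)) : ∀ x, v x = 0 := by
  obtain ⟨m1, m2, m3⟩ := mu_facts hn
  have hcomp : ∀ x, ∃ j : ℂ, j ≠ 0 ∧
      (ce (π (F x))).1.im = (ce (π x)).1.im / Complex.normSq j ∧
      Compat (dn n (π x)) (ce (π x))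
        (ce (π (F x))) (1 / j ^ 2) (((3 + 2 * √2) ^ n : ℝ) / j) (((3 - 2 * √2) ^ n : ℝ) / j) := by
    intro x
    rw [hcomm x]
    exact compat_iter n (π x)
  have k1 : ∀ x, w1 (ce (π x)) (v x) = 0 := by
    intro x
    obtain ⟨C, hC⟩ := Qv_bounded hπ h (w := w1) (fun s y₀ hy hs => continuousAt_w1 hy hs)
      (fun D p p' j hc v => hc.h2 v)
    apply Qv_eq_zero (ce_mem _)
    refine zero_of_scale (a := Complex.normSq (((3 + 2 * √2) ^ n : ℝ) : ℂ)) (b := 1)
      (fun x => Qv_nonneg w1 (ce_mem (π x)) (v x)) hC hF (Complex.normSq_nonneg _) one_pos m2.ne'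
      (fun x => ?_) x
    obtain ⟨j, hj, him, hc⟩ := hcomp x
    have e := Qv_scale (w := w1) (v := v x) (v' := dn n (π x) (v x)) hj (ce_im _) him (hc.h2 _)
    rw [← e, hs x, Qv_smul1, hα]
  have k2 : ∀ x, w2 (ce (π x)) (v x) = 0 := by
    intro x
    obtain ⟨C, hC⟩ := Qv_bounded hπ h (w := w2) (fun s y₀ hy hs => continuousAt_w2 hy hs)
      (fun D p p' j hc v => hc.h3 v)
    apply Qv_eq_zero (ce_mem _)
    refine zero_of_scale (a := Complex.normSq (((3 - 2 * √2) ^ n : ℝ) : ℂ)) (b := 1)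
      (fun x => Qv_nonneg w2 (ce_mem (π x)) (v x)) hC hF (Complex.normSq_nonneg _) one_pos m1.ne
      (fun x => ?_) x
    obtain ⟨j, hj, him, hc⟩ := hcomp x
    have e := Qv_scale (w := w2) (v := v x) (v' := dn n (π x) (v x)) hj (ce_im _) him (hc.h3 _)
    rw [← e, hs x, Qv_smul2, hα]
  intro x₀
  obtain ⟨u, h1, h2⟩ := h x₀
  have h3 : ∀ᶠ y in 𝓝 (ce (π x₀)), u y ∈ Bc y := by
    apply eventually_chart hπ
    filter_upwards [h2, chart_eventually hπ x₀] with x hx1 hx2
    obtain ⟨j, hj, him, hcj⟩ := compat_cg hx2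
    rw [← hx1, mem_Bc, hcj.h2, hcj.h3, k1 x, k2 x, mul_zero]
    exact ⟨rfl, rfl⟩
  have h4 := no_section (ce_mem _) h1 h3
  have h5 := h2.self_of_nhds
  have h6 : cg (π x₀) (π x₀) (v x₀) = 0 := h5.trans h4
  obtain ⟨j, hj, him, hcj⟩ := compat_cg (mem_chart_source C3 (π x₀))
  exact hcj.injective (h6.trans (map_zero _).symm)

end

end Pool.Agent.W711.KC
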