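import Pool.Agent.W711.KC.Cov4

/-!
# Multivalued holomorphic maps on covers give holomorphic families of linear maps
-/

set_option autoImplicit false

open scoped Manifold ContDiff Topology MatrixGroups UpperHalfPlane
open Set Filter

namespace Pool.Agent.W711.KC

section

variable {X : Type} [TopologicalSpace X] [ChartedSpace C3 X]
  {V : Type} [NormedAddCommGroup V] [NormedSpace ℂ V]

theorem map_nhds_of_local {π : X → QQ GG} (hπ : IsLocalDiffeomorph 𝓘(ℂ, C3) 𝓘(ℂ, C3) ω π) (x : X) :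
    map π (𝓝 x) = 𝓝 (π x) := hπ.isLocalHomeomorph.map_nhds_eq x

/-- the local inverse of the covering. -/
noncomputable def sg {π : X → QQ GG} (hπ : IsLocalDiffeomorph 𝓘(ℂ, C3) 𝓘(ℂ, C3) ω π) (x : X)
    (q : QQ GG) : X := (hπ x).localInverse q

variable {π : X → QQ GG} (hπ : IsLocalDiffeomorph 𝓘(ℂ, C3) 𝓘(ℂ, C3) ω π)
include hπ

theorem sg_self (x : X) : sg hπ x (π x) = x :=
  (hπ x).localInverse_left_inv (hπ x).localInverse_mem_target

theorem sg_left (x : X) : ∀ᶠ y in 𝓝 x, sg hπ x (π y) = y := (hπ x).localInverse_eventuallyEq_left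

theorem sg_right (x : X) : ∀ᶠ q in 𝓝 (π x), π (sg hπ x q) = q :=
  (hπ x).localInverse_eventuallyEq_right

theorem sg_contMDiffAt (x : X) : ContMDiffAt 𝓘(ℂ, C3) 𝓘(ℂ, C3) ω (sg hπ x) (π x) :=
  (hπ x).localInverse_contMDiffAt

theorem sg_continuousAt (x : X) : ContinuousAt (sg hπ x) (π x) := (sg_contMDiffAt hπ x).continuousAt

theorem sg_tendsto (x : X) : Tendsto (sg hπ x) (𝓝 (π x)) (𝓝 x) := by
  have := sg_continuousAt hπ x
  unfold ContinuousAt at this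
  rwa [sg_self] at this

/-- local inverses at nearby points agree. -/
theorem sg_near (x₀ : X) : ∀ᶠ x in 𝓝 x₀, ∀ᶠ q in 𝓝 (π x), sg hπ x q = sg hπ x₀ q := by
  have h1 : ∀ᶠ x in 𝓝 x₀, ∀ᶠ y in 𝓝 x, sg hπ x₀ (π y) = y :=
    eventually_eventually_nhds.2 (sg_left hπ x₀)
  filter_upwards [h1] with x hx
  filter_upwards [(sg_tendsto hπ x).eventually hx, sg_right hπ x] with q hq hq1
  rw [hq1] at hq
  exact hq.symm

/-- the local inverse at the image of a lift. -/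
theorem sg_lift {F : X → X} (hF : Continuous F) {g : QQ GG → QQ GG}
    (hcomm : ∀ x, π (F x) = g (π x)) (x : X) :
    ∀ᶠ q in 𝓝 (π x), sg hπ (F x) (g q) = F (sg hπ x q) := by
  have h1 : Tendsto (fun q => F (sg hπ x q)) (𝓝 (π x)) (𝓝 (F x)) :=
    (hF.tendsto x).comp (sg_tendsto hπ x)
  filter_upwards [h1.eventually (sg_left hπ (F x)), sg_right hπ x] with q hq hq1
  rw [hcomm, hq1] at hq
  exact hq

/-- A local representative at every point, which are related by constants. -/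
structure Fam (P : X → X → V) : Prop where
  hol : ∀ x, ContMDiffAt 𝓘(ℂ, C3) 𝓘(ℂ, V) ω (P x) x
  near : ∀ x₀, ∀ᶠ x in 𝓝 x₀, ∃ c, ∀ᶠ y in 𝓝 x, P x y = P x₀ y + c

/-- The derivative of the local representative, read on the quotient. -/
noncomputable def LL (P : X → X → V) (x : X) : C3 →L[ℂ] V :=
  mfderiv 𝓘(ℂ, C3) 𝓘(ℂ, V) (P x ∘ sg hπ x) (π x)

omit [TopologicalSpace X] [ChartedSpace C3 X] hπ in
theorem read_contDiffAt {R : QQ GG → V} {q₀ : QQ GG} (hR : ContMDiffAt 𝓘(ℂ, C3) 𝓘(ℂ, V) ω R q₀) :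
    ContDiffAt ℂ ω (R ∘ (chartAt C3 q₀).symm) (ce q₀) := by
  have hm : ce q₀ ∈ (chartAt C3 q₀).target := (chartAt C3 q₀).map_source (mem_chart_source C3 _)
  have h1 : ContMDiffAt 𝓘(ℂ, C3) 𝓘(ℂ, C3) ω (chartAt C3 q₀).symm (ce q₀) :=
    (contMDiffOn_chart_symm (I := 𝓘(ℂ, C3)) (n := ω) (x := q₀)).contMDiffAt
      ((chartAt C3 q₀).open_target.mem_nhds hm)
  have h2 : (chartAt C3 q₀).symm (ce q₀) = q₀ := (chartAt C3 q₀).left_inv (mem_chart_source C3 _)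
  have h3 : ContMDiffAt 𝓘(ℂ, C3) 𝓘(ℂ, V) ω R ((chartAt C3 q₀).symm (ce q₀)) := by rw [h2]; exact hR
  exact contMDiffAt_iff_contDiffAt.1 (h3.comp (ce q₀) h1)

omit [TopologicalSpace X] [ChartedSpace C3 X] hπ in
/-- the derivative of a function on the quotient, in a chart. -/
theorem mfderiv_read {R : QQ GG → V} {q₀ q : QQ GG} (hq : q ∈ (chartAt C3 q₀).source)
    (hR : DifferentiableAt ℂ (R ∘ (chartAt C3 q₀).symm) (chartAt C3 q₀ q)) :
    (mfderiv 𝓘(ℂ, C3) 𝓘(ℂ, V) R q : C3 →L[ℂ] V) =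
      (fderiv ℂ (R ∘ (chartAt C3 q₀).symm) (chartAt C3 q₀ q)).comp (cg q q₀) := by
  have h1 : R =ᶠ[𝓝 q] (R ∘ (chartAt C3 q₀).symm) ∘ chartAt C3 q₀ := by
    filter_upwards [(chartAt C3 q₀).open_source.mem_nhds hq] with y hy
    simp only [Function.comp_apply]
    rw [(chartAt C3 q₀).left_inv hy]
  have h2 : MDifferentiableAt 𝓘(ℂ, C3) 𝓘(ℂ, C3) (chartAt C3 q₀) q :=
    mdifferentiableAt_atlas (chart_mem_atlas C3 q₀) hq
  have h3 : MDifferentiableAt 𝓘(ℂ, C3) 𝓘(ℂ, V) (R ∘ (chartAt C3 q₀).symm) (chartAt C3 q₀ q) :=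
    hR.mdifferentiableAt
  have h4 := mfderiv_comp q h3 h2
  rw [h1.mfderiv_eq]
  refine Eq.trans h4 ?_
  rw [mfderiv_eq_fderiv, mfderiv_chartAt_eq_tangentCoordChange hq]
  rfl

theorem holForm_of_fam {P : X → X → V} (hP : Fam P) : HolForm π (LL hπ P) := by
  intro x₀
  have hR : ContMDiffAt 𝓘(ℂ, C3) 𝓘(ℂ, V) ω (P x₀ ∘ sg hπ x₀) (π x₀) := by
    have h1 : ContMDiffAt 𝓘(ℂ, C3) 𝓘(ℂ, V) ω (P x₀) (sg hπ x₀ (π x₀)) := by
      rw [sg_self]
      exact hP.hol x₀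
    exact h1.comp (π x₀) (sg_contMDiffAt hπ x₀)
  have hC := read_contDiffAt hR
  refine ⟨fderiv ℂ ((P x₀ ∘ sg hπ x₀) ∘ (chartAt C3 (π x₀)).symm),
    (hC.fderiv_right (m := 1) (by simp)).differentiableAt (by simp), ?_⟩
  have hD : ∀ᶠ y in 𝓝 (ce (π x₀)),
      DifferentiableAt ℂ ((P x₀ ∘ sg hπ x₀) ∘ (chartAt C3 (π x₀)).symm) y := by
    filter_upwards [(hC.of_le (n := ω) (m := 1) (by simp)).eventually (by simp)] with y hy
    exact hy.differentiableAt (by simp)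
  have hπc : Continuous π := continuous_of_map (map_nhds_of_local hπ)
  have hch : ContinuousAt (fun x => chartAt C3 (π x₀) (π x)) x₀ :=
    ContinuousAt.comp (g := chartAt C3 (π x₀))
      ((chartAt C3 (π x₀)).continuousAt (mem_chart_source C3 _)) hπc.continuousAt
  filter_upwards [hP.near x₀, sg_near hπ x₀, hch.eventually hD,
    chart_eventually (map_nhds_of_local hπ) x₀] with x hx1 hx2 hx3 hx4
  obtain ⟨c, hc⟩ := hx1
  have e1 : (P x ∘ sg hπ x) =ᶠ[𝓝 (π x)] fun q => (P x₀ ∘ sg hπ x₀) q + c := by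
    filter_upwards [hx2, (sg_tendsto hπ x).eventually hc] with q hq1 hq2
    simp only [Function.comp_apply]
    rw [hq2, hq1]
  have e2 : ((P x ∘ sg hπ x) ∘ (chartAt C3 (π x₀)).symm) =ᶠ[𝓝 (chartAt C3 (π x₀) (π x))]
      fun y => ((P x₀ ∘ sg hπ x₀) ∘ (chartAt C3 (π x₀)).symm) y + c := by
    have h1 := ((chartAt C3 (π x₀)).continuousAt_symm
      ((chartAt C3 (π x₀)).map_source hx4)).tendsto
    rw [(chartAt C3 (π x₀)).left_inv hx4] at h1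
    exact h1.eventually e1
  have e3 : DifferentiableAt ℂ ((P x ∘ sg hπ x) ∘ (chartAt C3 (π x₀)).symm)
      (chartAt C3 (π x₀) (π x)) := (hx3.add_const c).congr_of_eventuallyEq e2
  have e4 := mfderiv_read hx4 e3
  have e5 : fderiv ℂ ((P x ∘ sg hπ x) ∘ (chartAt C3 (π x₀)).symm) (chartAt C3 (π x₀) (π x)) =
      fderiv ℂ ((P x₀ ∘ sg hπ x₀) ∘ (chartAt C3 (π x₀)).symm) (chartAt C3 (π x₀) (π x)) := by
    rw [e2.fderiv_eq, fderiv_add_const]
  rw [e5] at e4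
  exact e4

/-- the derivative of a semiconjugacy. -/
theorem LL_semi {P : X → X → V} (hP : Fam P) {F : X → X} (hF : Continuous F) {n : ℕ}
    (hcomm : ∀ x, π (F x) = (fmap 1)^[n] (π x)) (A : V →L[ℂ] V)
    (hA : ∀ x, ∃ c, ∀ᶠ y in 𝓝 x, P (F x) (F y) = A (P x y) + c) (x : X) :
    (LL hπ P (F x)).comp (dn n (π x)) = A.comp (LL hπ P x) := by
  obtain ⟨c, hc⟩ := hA x
  have e1 : (P (F x) ∘ sg hπ (F x)) ∘ (fmap 1)^[n] =ᶠ[𝓝 (π x)]
      fun q => A ((P x ∘ sg hπ x) q) + c := by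
    filter_upwards [sg_lift hπ hF hcomm x, (sg_tendsto hπ x).eventually hc] with q hq1 hq2
    simp only [Function.comp_apply]
    rw [hq1, hq2]
  have d1 : MDifferentiableAt 𝓘(ℂ, C3) 𝓘(ℂ, V) (P (F x) ∘ sg hπ (F x)) ((fmap 1)^[n] (π x)) := by
    have h1 : ContMDiffAt 𝓘(ℂ, C3) 𝓘(ℂ, V) ω (P (F x)) (sg hπ (F x) (π (F x))) := by
      rw [sg_self]
      exact hP.hol (F x)
    have h2 := (h1.comp (π (F x)) (sg_contMDiffAt hπ (F x))).mdifferentiableAt (by simp)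
    rw [hcomm x] at h2
    exact h2
  have d2 : MDifferentiableAt 𝓘(ℂ, C3) 𝓘(ℂ, C3) (fmap 1)^[n] (π x) :=
    (contMDiff_iter n).mdifferentiable (by simp) _
  have d3 : MDifferentiableAt 𝓘(ℂ, C3) 𝓘(ℂ, V) (P x ∘ sg hπ x) (π x) := by
    have h1 : ContMDiffAt 𝓘(ℂ, C3) 𝓘(ℂ, V) ω (P x) (sg hπ x (π x)) := by
      rw [sg_self]
      exact hP.hol x
    exact (h1.comp (π x) (sg_contMDiffAt hπ x)).mdifferentiableAt (by simp)
  have e2 := mfderiv_comp (π x) d1 d2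
  have e3 : mfderiv 𝓘(ℂ, C3) 𝓘(ℂ, V) (fun q => A ((P x ∘ sg hπ x) q) + c) (π x) =
      (A.comp (LL hπ P x) : C3 →L[ℂ] V) := by
    have h1 : HasMFDerivAt 𝓘(ℂ, C3) 𝓘(ℂ, V) (P x ∘ sg hπ x) (π x) (LL hπ (V := V) P x) :=
      d3.hasMFDerivAt
    have h2' : ∀ z : V, HasFDerivAt (fun z : V => A z + c) A z :=
      fun z => A.hasFDerivAt.add_const c
    have h2 : ∀ z : V, HasMFDerivAt 𝓘(ℂ, V) 𝓘(ℂ, V) (fun z : V => A z + c) z A :=
      fun z => (h2' z).hasMFDerivAt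
    exact ((h2 ((P x ∘ sg hπ x) (π x))).comp (π x) h1).mfderiv
  have e4 := e1.mfderiv_eq (I := 𝓘(ℂ, C3)) (I' := 𝓘(ℂ, V))
  have e5 : LL hπ P (F x) = mfderiv 𝓘(ℂ, C3) 𝓘(ℂ, V) (P (F x) ∘ sg hπ (F x))
      ((fmap 1)^[n] (π x)) := by
    unfold LL
    rw [hcomm x]
  rw [e5, ← e3]
  exact (e2.symm.trans e4)

/-- the derivative of the local inverse is bijective. -/
theorem LL_surj [IsManifold 𝓘(ℂ, C3) ω X] {P : X → X → V} (hP : Fam P) (x : X) :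
    LL hπ P x = (mfderiv 𝓘(ℂ, C3) 𝓘(ℂ, V) (P x) x : C3 →L[ℂ] V).comp
      (mfderiv 𝓘(ℂ, C3) 𝓘(ℂ, C3) (sg hπ x) (π x) : C3 →L[ℂ] C3) := by
  have h1 : MDifferentiableAt 𝓘(ℂ, C3) 𝓘(ℂ, V) (P x) (sg hπ x (π x)) := by
    rw [sg_self]
    exact (hP.hol x).mdifferentiableAt (by simp)
  have h2 : MDifferentiableAt 𝓘(ℂ, C3) 𝓘(ℂ, C3) (sg hπ x) (π x) :=
    (sg_contMDiffAt hπ x).mdifferentiableAt (by simp)
  have h3 := mfderiv_comp (π x) h1 h2
  unfold LL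
  refine Eq.trans h3 ?_
  rw [sg_self]

end

end Pool.Agent.W711.KC
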