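import Pool.Agent.W711.KC.Cov5

/-!
# Semiconjugacies to linear maps, and holomorphic flows on covers
-/

set_option autoImplicit false

open scoped Manifold ContDiff Topology MatrixGroups UpperHalfPlane
open Set Filter

namespace Pool.Agent.W711.KC

/-- the derivative at time `1`. -/
noncomputable def md1 {M : Type} [TopologicalSpace M] [ChartedSpace C3 M] (u : ℂ → M) : ℂ →L[ℂ] C3 :=
  mfderiv 𝓘(ℂ, ℂ) 𝓘(ℂ, C3) u 1

section

variable {X : Type} [TopologicalSpace X] [ChartedSpace C3 X] [IsManifold 𝓘(ℂ, C3) ω X]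
  {V : Type} [NormedAddCommGroup V] [NormedSpace ℂ V]
  {π : X → QQ GG} (hπ : IsLocalDiffeomorph 𝓘(ℂ, C3) 𝓘(ℂ, C3) ω π)
include hπ

omit [IsManifold 𝓘(ℂ, C3) ω X] in
/-- a left eigenvector with an eigenvalue of modulus different from one. -/
theorem no_left [CompactSpace X] {P : X → X → V} (hP : Fam P) {F : X → X} (hF : Continuous F)
    (hF' : Function.Surjective F) {n : ℕ} (hn : 1 ≤ n)
    (hcomm : ∀ x, π (F x) = (fmap 1)^[n] (π x)) (A : V →L[ℂ] V)
    (hA : ∀ x, ∃ c, ∀ᶠ y in 𝓝 x, P (F x) (F y) = A (P x y) + c) {ℓ : V →L[ℂ] ℂ} {α : ℂ}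
    (hℓ : ℓ.comp A = α • ℓ) (hα : Complex.normSq α ≠ 1) (x : X) : ℓ.comp (LL hπ P x) = 0 := by
  refine form_zero (map_nhds_of_local hπ) ((holForm_of_fam hπ hP).clm ℓ) hF' hn hcomm hα
    (fun x => ?_) x
  have h1 := LL_semi hπ hP hF hcomm A hA x
  rw [ContinuousLinearMap.comp_assoc, h1, ← ContinuousLinearMap.comp_assoc, hℓ]
  rfl

omit [IsManifold 𝓘(ℂ, C3) ω X] in
/-- a right eigenvector with an eigenvalue of modulus one. -/
theorem no_right [CompactSpace X] [FiniteDimensional ℂ V] [Nonempty X]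
    {P : X → X → V} (hP : Fam P)
    {F : X → X} (hF : Continuous F)
    (hF' : Function.Surjective F) {n : ℕ} (hn : 1 ≤ n)
    (hcomm : ∀ x, π (F x) = (fmap 1)^[n] (π x)) (A : V →L[ℂ] V)
    (hA : ∀ x, ∃ c, ∀ᶠ y in 𝓝 x, P (F x) (F y) = A (P x y) + c)
    (hbij : ∀ x, Function.Bijective (LL hπ P x)) {u : V} {α : ℂ}
    (hu : A u = α • u) (hα : Complex.normSq α = 1) : u = 0 := by
  choose v hv using fun x => (hbij x).2 u
  have hvec : HolVec π v := by
    intro x₀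
    obtain ⟨θ, h1, h2⟩ := holForm_of_fam hπ hP x₀
    have hθ : ∀ x, LL hπ P x = (θ (chartAt C3 (π x₀) (π x))).comp (cg (π x) (π x₀)) →
        π x ∈ (chartAt C3 (π x₀)).source →
        ∃ e : C3 ≃L[ℂ] V, (e : C3 →L[ℂ] V) = θ (chartAt C3 (π x₀) (π x)) := by
      intro x hx1 hx2
      obtain ⟨j, hj, him, hcj⟩ := compat_cg hx2
      have hb : Function.Bijective (θ (chartAt C3 (π x₀) (π x))) := by
        have hb1 := hbij x
        rw [hx1] at hb1
        constructor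
        · intro a b hab
          obtain ⟨a', rfl⟩ := hcj.surjective a
          obtain ⟨b', rfl⟩ := hcj.surjective b
          rw [hb1.1 (show ((θ (chartAt C3 (π x₀) (π x))).comp (cg (π x) (π x₀))) a' =
            ((θ (chartAt C3 (π x₀) (π x))).comp (cg (π x) (π x₀))) b' from hab)]
        · intro z
          obtain ⟨a, ha⟩ := hb1.2 z
          exact ⟨cg (π x) (π x₀) a, ha⟩
      refine ⟨(LinearEquiv.ofBijective (θ (chartAt C3 (π x₀) (π x))).toLinearMap
        hb).toContinuousLinearEquiv, ?_⟩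
      rfl
    refine ⟨fun y => (ContinuousLinearMap.inverse (θ y)) u, ?_, ?_⟩
    · obtain ⟨e, he⟩ := hθ x₀ h2.self_of_nhds (mem_chart_source C3 _)
      have h3 : DifferentiableAt ℂ (ContinuousLinearMap.inverse : (C3 →L[ℂ] V) → _)
          (θ (ce (π x₀))) := by
        have he' : (e : C3 →L[ℂ] V) = θ (ce (π x₀)) := he
        rw [← he']
        exact (contDiffAt_map_inverse (n := 1) e).differentiableAt (by simp)
      exact (h3.comp (ce (π x₀)) h1).clm_apply (differentiableAt_const u)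
    · filter_upwards [h2, chart_eventually (map_nhds_of_local hπ) x₀] with x hx1 hx2
      obtain ⟨e, he⟩ := hθ x hx1 hx2
      have h3 := hv x
      rw [hx1, ← he] at h3
      have h4 : e (cg (π x) (π x₀) (v x)) = u := h3
      rw [← he, ContinuousLinearMap.inverse_equiv]
      rw [← h4]
      exact (e.symm_apply_apply _).symm
  have hz := vec_zero (map_nhds_of_local hπ) hvec hF' hn hcomm hα (fun x => ?_)
  · obtain ⟨x⟩ := (inferInstance : Nonempty X)
    rw [← hv x, hz x, map_zero]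
  · apply (hbij (F x)).1
    have h1 := LL_semi hπ hP hF hcomm A hA x
    have h2 := DFunLike.congr_fun h1 (v x)
    rw [ContinuousLinearMap.comp_apply, ContinuousLinearMap.comp_apply, hv x, hu] at h2
    rw [h2, map_smul, hv]

omit [IsManifold 𝓘(ℂ, C3) ω X] in
/-- **There is no locally free holomorphic action of the multiplicative group which commutes with
the lift.** -/
theorem no_flow [CompactSpace X] {F : X → X} (hF' : Function.Surjective F) {n : ℕ} (hn : 1 ≤ n)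
    (hcomm : ∀ x, π (F x) = (fmap 1)^[n] (π x)) {φ : ℂ → X → X}
    (hφ : ContMDiffOn (𝓘(ℂ, ℂ).prod 𝓘(ℂ, C3)) 𝓘(ℂ, C3) ω (fun y : ℂ × X => φ y.1 y.2)
      ({0}ᶜ ×ˢ univ)) (h1 : ∀ x, φ 1 x = x)
    (hFφ : ∀ a, a ≠ 0 → ∀ x, F (φ a x) = φ a (F x)) (x : X) :
    mfderiv 𝓘(ℂ, ℂ) 𝓘(ℂ, C3) (fun a => φ a x) 1 = 0 := by
  -- differentiability in the time
  have ht : ∀ x, ContMDiffAt 𝓘(ℂ, ℂ) 𝓘(ℂ, C3) ω (fun a => φ a x) 1 := by
    intro x
    have e1 : ContMDiffAt 𝓘(ℂ, ℂ) (𝓘(ℂ, ℂ).prod 𝓘(ℂ, C3)) ω (fun a : ℂ => (a, x)) 1 :=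
      contMDiffAt_id.prodMk contMDiffAt_const
    have e2 : ContMDiffAt (𝓘(ℂ, ℂ).prod 𝓘(ℂ, C3)) 𝓘(ℂ, C3) ω (fun y : ℂ × X => φ y.1 y.2)
        (1, x) :=
      hφ.contMDiffAt (prod_mem_nhds (isOpen_compl_singleton.mem_nhds one_ne_zero) univ_mem)
    exact e2.comp (1 : ℂ) e1
  have hπm : ∀ x, MDifferentiableAt 𝓘(ℂ, C3) 𝓘(ℂ, C3) π x := fun x =>
    (hπ x).mdifferentiableAt (by simp)
  set v : X → C3 := fun x => (md1 (fun a => π (φ a x))) 1
    with hv
  have hvec : HolVec π v := by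
    intro x₀
    set e := chartAt C3 (π x₀) with he
    have hy₀ : ce (π x₀) ∈ e.target := e.map_source (mem_chart_source C3 _)
    have hy₀' : e.symm (ce (π x₀)) = π x₀ := e.left_inv (mem_chart_source C3 _)
    set G : ℂ × C3 → C3 := fun y => e (π (φ y.1 (sg hπ x₀ (e.symm y.2)))) with hG
    have hGc : ContDiffAt ℂ ω G (1, ce (π x₀)) := by
      have c1 : ContMDiffAt 𝓘(ℂ, ℂ × C3) 𝓘(ℂ, C3) ω (fun y : ℂ × C3 => y.2) (1, ce (π x₀)) :=
        contDiffAt_snd.contMDiffAt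
      have c2 : ContMDiffAt 𝓘(ℂ, C3) 𝓘(ℂ, C3) ω e.symm (ce (π x₀)) :=
        (contMDiffOn_chart_symm (I := 𝓘(ℂ, C3)) (n := ω) (x := π x₀)).contMDiffAt
          (e.open_target.mem_nhds hy₀)
      have c3 : ContMDiffAt 𝓘(ℂ, C3) 𝓘(ℂ, C3) ω (sg hπ x₀) (e.symm (ce (π x₀))) := by
        rw [hy₀']
        exact sg_contMDiffAt hπ x₀
      have c4 : ContMDiffAt 𝓘(ℂ, ℂ × C3) 𝓘(ℂ, C3) ω
          (fun y : ℂ × C3 => sg hπ x₀ (e.symm y.2)) (1, ce (π x₀)) :=
        ContMDiffAt.comp (1, ce (π x₀)) (g := fun y => sg hπ x₀ (e.symm y))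
          (c3.comp (ce (π x₀)) c2) c1
      have c5 : ContMDiffAt 𝓘(ℂ, ℂ × C3) 𝓘(ℂ, ℂ) ω (fun y : ℂ × C3 => y.1) (1, ce (π x₀)) :=
        contDiffAt_fst.contMDiffAt
      have c6 := c5.prodMk c4
      have c7 : ContMDiffAt (𝓘(ℂ, ℂ).prod 𝓘(ℂ, C3)) 𝓘(ℂ, C3) ω (fun y : ℂ × X => φ y.1 y.2)
          ((1 : ℂ), sg hπ x₀ (e.symm (ce (π x₀)))) :=
        hφ.contMDiffAt (prod_mem_nhds (isOpen_compl_singleton.mem_nhds one_ne_zero) univ_mem)
      have c8 := c7.comp ((1 : ℂ), ce (π x₀)) c6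
      have c9 : ContMDiffAt 𝓘(ℂ, ℂ × C3) 𝓘(ℂ, C3) ω
          (fun y : ℂ × C3 => π (φ y.1 (sg hπ x₀ (e.symm y.2)))) (1, ce (π x₀)) :=
        ContMDiffAt.comp ((1 : ℂ), ce (π x₀)) ((hπ _).contMDiffAt) c8
      have c10 : ContMDiffAt 𝓘(ℂ, C3) 𝓘(ℂ, C3) ω e (π (φ (1 : ℂ)
          (sg hπ x₀ (e.symm (ce (π x₀)))))) := by
        have : π (φ (1 : ℂ) (sg hπ x₀ (e.symm (ce (π x₀))))) = π x₀ := by
          rw [h1, hy₀', sg_self]
        rw [this]
        exact (contMDiffOn_chart (I := 𝓘(ℂ, C3)) (n := ω) (x := π x₀)).contMDiffAt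
          (e.open_source.mem_nhds (mem_chart_source C3 _))
      exact contMDiffAt_iff_contDiffAt.1 (ContMDiffAt.comp ((1 : ℂ), ce (π x₀)) c10 c9)
    refine ⟨fun y => fderiv ℂ G (1, y) (1, 0), ?_, ?_⟩
    · have g1 : DifferentiableAt ℂ (fderiv ℂ G) (1, ce (π x₀)) :=
        (hGc.fderiv_right (m := 1) (by simp)).differentiableAt (by simp)
      have g2 : DifferentiableAt ℂ (fun y : C3 => ((1 : ℂ), y)) (ce (π x₀)) :=
        (differentiableAt_const _).prodMk differentiableAt_id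
      exact (DifferentiableAt.comp (ce (π x₀)) g1 g2).clm_apply (differentiableAt_const _)
    · have hD : ∀ᶠ y in 𝓝 (ce (π x₀)), DifferentiableAt ℂ G (1, y) := by
        have g0 : ∀ᶠ z in 𝓝 ((1 : ℂ), ce (π x₀)), DifferentiableAt ℂ G z := by
          filter_upwards [(hGc.of_le (n := ω) (m := 1) (by simp)).eventually (by simp)] with z hz
          exact hz.differentiableAt (by simp)
        have g2 : Tendsto (fun y : C3 => ((1 : ℂ), y)) (𝓝 (ce (π x₀))) (𝓝 (1, ce (π x₀))) :=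
          (Continuous.prodMk_right (1 : ℂ)).tendsto _
        exact g2.eventually g0
      have hπc : Continuous π := continuous_of_map (map_nhds_of_local hπ)
      have hch : ContinuousAt (fun x => chartAt C3 (π x₀) (π x)) x₀ :=
        ContinuousAt.comp (g := chartAt C3 (π x₀))
          ((chartAt C3 (π x₀)).continuousAt (mem_chart_source C3 _)) hπc.continuousAt
      filter_upwards [hch.eventually hD, chart_eventually (map_nhds_of_local hπ) x₀,
        sg_left hπ x₀] with x hx1 hx2 hx3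
      have hGx : (fun a : ℂ => G (a, e (π x))) = fun a => e (π (φ a x)) := by
        funext a
        simp only [hG]
        rw [e.left_inv hx2, hx3]
      -- the derivative of `a ↦ e (π (φ a x))`
      have d1 : HasFDerivAt (fun a : ℂ => ((a, e (π x)) : ℂ × C3))
          ((ContinuousLinearMap.id ℂ ℂ).prod 0) 1 := (hasFDerivAt_id _).prodMk (hasFDerivAt_const _ _)
      have d2 : HasFDerivAt (fun a : ℂ => G (a, e (π x)))
          ((fderiv ℂ G (1, e (π x))).comp ((ContinuousLinearMap.id ℂ ℂ).prod 0)) 1 :=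
        HasFDerivAt.comp (1 : ℂ) (g := G) hx1.hasFDerivAt d1
      have hxs : π (φ 1 x) ∈ e.source := by rw [h1]; exact hx2
      have d3 : MDifferentiableAt 𝓘(ℂ, C3) 𝓘(ℂ, C3) e (π (φ 1 x)) :=
        mdifferentiableAt_atlas (chart_mem_atlas C3 (π x₀)) hxs
      have d4 : MDifferentiableAt 𝓘(ℂ, ℂ) 𝓘(ℂ, C3) (fun a => π (φ a x)) 1 :=
        MDifferentiableAt.comp (1 : ℂ) (hπm _) ((ht x).mdifferentiableAt (by simp))
      have d5 := mfderiv_comp (1 : ℂ) d3 d4
      have d6 : (md1 (fun a => e (π (φ a x)))) =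
          (fderiv ℂ G (1, e (π x))).comp ((ContinuousLinearMap.id ℂ ℂ).prod 0) := by
        unfold md1
        rw [← hGx, mfderiv_eq_fderiv, d2.fderiv]
      have d7 : (mfderiv 𝓘(ℂ, C3) 𝓘(ℂ, C3) e (π (φ 1 x)) : C3 →L[ℂ] C3) =
          cg (π x) (π x₀) := by
        have := mfderiv_chartAt_eq_tangentCoordChange (I := 𝓘(ℂ, C3)) hxs
        rw [h1 x] at this ⊢
        exact this
      have d8 : (md1 (fun a => e (π (φ a x)))) =
          (cg (π x) (π x₀)).comp
            (md1 (fun a => π (φ a x))) := by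
        rw [← d7]
        exact d5
      have d9 := DFunLike.congr_fun (d8.symm.trans d6) 1
      have d10 : cg (π x) (π x₀) (v x) = fderiv ℂ G (1, e (π x)) (1, 0) := by
        simpa [hv] using d9
      exact d10
  have hs : ∀ x, dn n (π x) (v x) = (1 : ℂ) • v (F x) := by
    intro x
    rw [one_smul]
    have e1 : (fmap 1)^[n] ∘ (fun a => π (φ a x)) =ᶠ[𝓝 (1 : ℂ)] fun a => π (φ a (F x)) := by
      filter_upwards [isOpen_compl_singleton.mem_nhds (one_ne_zero (α := ℂ))] with a ha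
      simp only [Function.comp_apply]
      rw [← hcomm, hFφ a ha]
    have d2 : ∀ q, MDifferentiableAt 𝓘(ℂ, C3) 𝓘(ℂ, C3) (fmap 1)^[n] q :=
      fun q => (contMDiff_iter n).mdifferentiable (by simp) _
    have d4 : MDifferentiableAt 𝓘(ℂ, ℂ) 𝓘(ℂ, C3) (fun a => π (φ a x)) 1 :=
      MDifferentiableAt.comp (1 : ℂ) (hπm _) ((ht x).mdifferentiableAt (by simp))
    have d5 := mfderiv_comp (1 : ℂ) (d2 (π (φ 1 x))) d4
    have d6 := e1.mfderiv_eq (I := 𝓘(ℂ, ℂ)) (I' := 𝓘(ℂ, C3))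
    have d7 : (md1 (fun a => π (φ a (F x)))) =
        (dn n (π (φ 1 x))).comp
          (md1 (fun a => π (φ a x))) := d6.symm.trans d5
    have d8 := DFunLike.congr_fun d7 1
    rw [h1 x] at d8
    exact d8.symm
  have hz := vec_zero (map_nhds_of_local hπ) hvec hF' hn hcomm (by simp) hs x
  have d4 := mfderiv_comp (1 : ℂ) (hπm (φ 1 x)) ((ht x).mdifferentiableAt (by simp))
  have d5 := (hπ (φ 1 x)).mfderivToContinuousLinearEquiv_coe (by simp)
  have d6 : (mfderiv 𝓘(ℂ, C3) 𝓘(ℂ, C3) π (φ 1 x) : C3 →L[ℂ] C3)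
      ((md1 (fun a => φ a x)) 1) = 0 := by
    have := DFunLike.congr_fun d4 (1 : ℂ)
    exact this.symm.trans hz
  have d7 : (md1 (fun a => φ a x)) 1 = 0 := by
    have inj : Function.Injective (mfderiv 𝓘(ℂ, C3) 𝓘(ℂ, C3) π (φ 1 x) : C3 →L[ℂ] C3) := by
      have := ((hπ (φ 1 x)).mfderivToContinuousLinearEquiv (by simp)).injective
      exact this
    exact inj (d6.trans (map_zero _).symm)
  refine ContinuousLinearMap.ext_ring ?_
  exact d7

end

end Pool.Agent.W711.KC
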