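import Mathlib

/-!
# Definitions: Kähler metrics, partially hyperbolic biholomorphisms, holomorphic subbundles

All manifolds are complex manifolds of dimension three: the charts take values in `ℂ³ = ℂ × ℂ × ℂ`
and the coordinate changes are holomorphic. As everywhere in Mathlib the tangent space at `x` is
the model space `ℂ³`, through the preferred chart at `x`.
-/

set_option autoImplicit false

open scoped Manifold ContDiff Topology
open Set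

namespace Pool.Agent.W711.KC

/-- The model space `ℂ³`. -/
abbrev C3 : Type := ℂ × ℂ × ℂ

/-- The Levi form of `φ` at `z` in the direction `v`: `D²φ(z)(v, v) + D²φ(z)(iv, iv)`, that is
`4 ∑ (∂²φ / ∂z_j ∂z̄_k) v_j v̄_k`. -/
noncomputable def leviForm (φ : C3 → ℝ) (z v : C3) : ℝ :=
  fderiv ℝ (fun w => fderiv ℝ φ w v) z v +
    fderiv ℝ (fun w => fderiv ℝ φ w (Complex.I • v)) z (Complex.I • v)

section

variable {M : Type} [TopologicalSpace M] [ChartedSpace C3 M]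

/-- `g`, which gives the squared lengths of the tangent vectors, is a Kähler metric: it is positive
and locally the Levi form of a smooth function `φ` (a Kähler potential). -/
def IsKahlerMetric (g : ∀ x : M, TangentSpace 𝓘(ℂ, C3) x → ℝ) : Prop :=
  (∀ x v, v ≠ 0 → 0 < g x v) ∧
    ∀ x₀ : M, ∃ U : Set M, IsOpen U ∧ x₀ ∈ U ∧ ∃ φ : M → ℝ, ∀ x ∈ U,
      ContDiffAt ℝ ∞ (φ ∘ (chartAt C3 x).symm) (chartAt C3 x x) ∧
        ∀ v, g x v = leviForm (φ ∘ (chartAt C3 x).symm) (chartAt C3 x x) v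

variable [IsManifold 𝓘(ℂ, C3) 1 M]

/-- A field of complex subspaces of the tangent spaces is a continuous subbundle: near every point
it has a basis of continuous vector fields. -/
def IsContinuousSubbundle (F : ∀ x : M, Submodule ℂ (TangentSpace 𝓘(ℂ, C3) x)) : Prop :=
  ∀ x₀ : M, ∃ U : Set M, IsOpen U ∧ x₀ ∈ U ∧
    ∃ (k : ℕ) (V : Fin k → ∀ x : M, TangentSpace 𝓘(ℂ, C3) x),
      (∀ i, ContinuousOn (fun x => (⟨x, V i x⟩ : TangentBundle 𝓘(ℂ, C3) M)) U) ∧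
        ∀ x ∈ U, LinearIndependent ℂ (fun i => V i x) ∧
          F x = Submodule.span ℂ (range fun i => V i x)

/-- A field of complex subspaces of the tangent spaces is a holomorphic subbundle: near every point
it is spanned by holomorphic vector fields. -/
def IsHolomorphicSubbundle (F : ∀ x : M, Submodule ℂ (TangentSpace 𝓘(ℂ, C3) x)) : Prop :=
  ∀ x₀ : M, ∃ U : Set M, IsOpen U ∧ x₀ ∈ U ∧
    ∃ (k : ℕ) (V : Fin k → ∀ x : M, TangentSpace 𝓘(ℂ, C3) x),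
      (∀ i, MDifferentiableOn 𝓘(ℂ, C3) 𝓘(ℂ, C3).tangent
        (fun x => (⟨x, V i x⟩ : TangentBundle 𝓘(ℂ, C3) M)) U) ∧
        ∀ x ∈ U, F x = Submodule.span ℂ (range fun i => V i x)

/-- `TM = Es ⊕ Ec ⊕ Eu` is a partially hyperbolic splitting of `f` with respect to the metric with
squared lengths `g`: the three subbundles are nonzero, continuous and invariant, and for some `N ≥ 1`
and all unit vectors `vs ∈ Es`, `vc ∈ Ec`, `vu ∈ Eu` at the same point,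
`‖Df^N vs‖ < min (1, ‖Df^N vc‖)` and `‖Df^N vu‖ > max (1, ‖Df^N vc‖)` (here with squares). -/
structure IsPartiallyHyperbolic (g : ∀ x : M, TangentSpace 𝓘(ℂ, C3) x → ℝ) (f : M → M)
    (Es Ec Eu : ∀ x : M, Submodule ℂ (TangentSpace 𝓘(ℂ, C3) x)) : Prop where
  ne_bot : ∀ x, Es x ≠ ⊥ ∧ Ec x ≠ ⊥ ∧ Eu x ≠ ⊥
  splitting : ∀ x (v : TangentSpace 𝓘(ℂ, C3) x), ∃! w : Es x × Ec x × Eu x,
    (w.1 : TangentSpace 𝓘(ℂ, C3) x) + w.2.1 + w.2.2 = v
  continuous : IsContinuousSubbundle Es ∧ IsContinuousSubbundle Ec ∧ IsContinuousSubbundle Eu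
  invariant : ∀ x, (Es x).map (mfderiv 𝓘(ℂ, C3) 𝓘(ℂ, C3) f x).toLinearMap = Es (f x) ∧
    (Ec x).map (mfderiv 𝓘(ℂ, C3) 𝓘(ℂ, C3) f x).toLinearMap = Ec (f x) ∧
    (Eu x).map (mfderiv 𝓘(ℂ, C3) 𝓘(ℂ, C3) f x).toLinearMap = Eu (f x)
  dominated : ∃ N : ℕ, 1 ≤ N ∧ ∀ x, ∀ vs ∈ Es x, ∀ vc ∈ Ec x, ∀ vu ∈ Eu x,
    g x vs = 1 → g x vc = 1 → g x vu = 1 →
      g (f^[N] x) (mfderiv 𝓘(ℂ, C3) 𝓘(ℂ, C3) f^[N] x vs) <
        min 1 (g (f^[N] x) (mfderiv 𝓘(ℂ, C3) 𝓘(ℂ, C3) f^[N] x vc)) ∧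
      max 1 (g (f^[N] x) (mfderiv 𝓘(ℂ, C3) 𝓘(ℂ, C3) f^[N] x vc)) <
        g (f^[N] x) (mfderiv 𝓘(ℂ, C3) 𝓘(ℂ, C3) f^[N] x vu)

end

end Pool.Agent.W711.KC
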