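import Pool.Agent.W711.KC.Act
import Pool.Agent.H85R3.HSTopo

/-!
# The lattice
-/

set_option autoImplicit false

open scoped Manifold ContDiff Topology MatrixGroups UpperHalfPlane
open Set Filter

namespace Pool.Agent.W711.KC

open Pool.Agent.H85R3

/-- the level of the congruence subgroup. -/
noncomputable def NN : ℤ := Classical.choose (HS.exists_level 1)

theorem NN_pos : 0 < NN := (Classical.choose_spec (HS.exists_level 1)).2.1

/-- the congruence subgroup. -/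
noncomputable def CG : Subgroup SL(2, ℝ) := HS.cong NN

theorem CG_far : HS.MovesFar CG 1 := (Classical.choose_spec (HS.exists_level 1)).2.2

/-- the matrices of the order. -/
def IsOrd (α : Matrix (Fin 2) (Fin 2) ℝ) : Prop := ∃ x y z w : ℤ, α = HS.qm x y z w

theorem IsOrd.add {α β : Matrix (Fin 2) (Fin 2) ℝ} (hα : IsOrd α) (hβ : IsOrd β) :
    IsOrd (α + β) := by
  obtain ⟨x, y, z, w, rfl⟩ := hα
  obtain ⟨x', y', z', w', rfl⟩ := hβ
  refine ⟨x + x', y + y', z + z', w + w', ?_⟩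
  unfold HS.qm
  ext i j
  fin_cases i <;> fin_cases j <;> simp <;> ring

theorem IsOrd.neg {α : Matrix (Fin 2) (Fin 2) ℝ} (hα : IsOrd α) : IsOrd (-α) := by
  obtain ⟨x, y, z, w, rfl⟩ := hα
  refine ⟨-x, -y, -z, -w, ?_⟩
  unfold HS.qm
  ext i j
  fin_cases i <;> fin_cases j <;> simp <;> ring

theorem IsOrd.mul {α β : Matrix (Fin 2) (Fin 2) ℝ} (hα : IsOrd α) (hβ : IsOrd β) :
    IsOrd (α * β) := by
  obtain ⟨x, y, z, w, rfl⟩ := hα
  obtain ⟨x', y', z', w', rfl⟩ := hβ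
  exact ⟨_, _, _, _, HS.qm_mul _ _ _ _ _ _ _ _⟩

theorem IsOrd.zero : IsOrd 0 := by
  refine ⟨0, 0, 0, 0, ?_⟩
  unfold HS.qm
  ext i j
  fin_cases i <;> fin_cases j <;> simp

theorem isOrd_of_mem {g : SL(2, ℝ)} (hg : g ∈ CG) : IsOrd g.1 := by
  obtain ⟨x, y, z, w, h, -⟩ := hg
  exact ⟨x, y, z, w, h⟩

/-- the affine maps as permutations of the upper half space. -/
noncomputable def affP (g : SL(2, ℝ)) (α : Matrix (Fin 2) (Fin 2) ℝ) : Equiv.Perm Up where
  toFun p := ⟨aff g α p, aff_mem g α p.2⟩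
  invFun p := ⟨aff g⁻¹ (-(α * g⁻¹.1)) p, aff_mem _ _ p.2⟩
  left_inv p := by
    apply Subtype.ext
    change aff g⁻¹ (-(α * g⁻¹.1)) (aff g α p) = p
    rw [aff_comp _ _ _ _ p.2, neg_mul, Matrix.mul_assoc, ← Matrix.SpecialLinearGroup.coe_mul,
      inv_mul_cancel, Matrix.SpecialLinearGroup.coe_one, Matrix.mul_one, add_neg_cancel, aff_one]
  right_inv p := by
    apply Subtype.ext
    change aff g α (aff g⁻¹ (-(α * g⁻¹.1)) p) = p
    rw [aff_comp _ _ _ _ p.2, mul_inv_cancel, neg_add_cancel, aff_one]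

theorem affP_coe (g : SL(2, ℝ)) (α : Matrix (Fin 2) (Fin 2) ℝ) (p : Up) :
    ((affP g α p : Up) : C3) = aff g α p := rfl

theorem affP_mul (g g' : SL(2, ℝ)) (α α' : Matrix (Fin 2) (Fin 2) ℝ) :
    affP g α * affP g' α' = affP (g * g') (α' + α * g'.1) := by
  ext1 p
  apply Subtype.ext
  exact aff_comp g g' α α' p.2

theorem affP_one : affP 1 0 = 1 := by
  ext1 p
  apply Subtype.ext
  exact aff_one p

theorem affP_inv (g : SL(2, ℝ)) (α : Matrix (Fin 2) (Fin 2) ℝ) :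
    (affP g α)⁻¹ = affP g⁻¹ (-(α * g⁻¹.1)) := by
  rw [inv_eq_iff_mul_eq_one, affP_mul, mul_inv_cancel, neg_add_cancel, affP_one]

/-- The lattice: the pairs of an element of the congruence subgroup and an element of the order. -/
noncomputable def GG : Subgroup (Equiv.Perm Up) where
  carrier := {σ | ∃ g ∈ CG, ∃ α, IsOrd α ∧ σ = affP g α}
  one_mem' := ⟨1, one_mem _, 0, IsOrd.zero, affP_one.symm⟩
  mul_mem' := by
    rintro _ _ ⟨g, hg, α, hα, rfl⟩ ⟨g', hg', α', hα', rfl⟩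
    exact ⟨g * g', mul_mem hg hg', _, hα'.add (hα.mul (isOrd_of_mem hg')), affP_mul _ _ _ _⟩
  inv_mem' := by
    rintro _ ⟨g, hg, α, hα, rfl⟩
    exact ⟨g⁻¹, inv_mem hg, _, (hα.mul (isOrd_of_mem (inv_mem hg))).neg, affP_inv _ _⟩

theorem mem_GG {σ : Equiv.Perm Up} : σ ∈ GG ↔ ∃ g ∈ CG, ∃ α, IsOrd α ∧ σ = affP g α := Iff.rfl

/-- projection to the upper half plane. -/
def toH (p : Up) : ℍ := ⟨p.1.1, p.2⟩

theorem toH_affP (g : SL(2, ℝ)) (α : Matrix (Fin 2) (Fin 2) ℝ) (p : Up) :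
    toH (affP g α p) = g • toH p := by
  apply UpperHalfPlane.ext
  rw [UpperHalfPlane.coe_specialLinearGroup_apply]
  rfl

theorem continuous_toH : Continuous toH := by
  rw [UpperHalfPlane.isEmbedding_coe.continuous_iff]
  exact continuous_fst.comp continuous_subtype_val

theorem ex_affP_eq (g : SL(2, ℝ)) (α : Matrix (Fin 2) (Fin 2) ℝ) {p : C3} (hp : p ∈ Up) :
    ex (affP g α : Up → Up) p = aff g α p := ex_apply _ ⟨p, hp⟩

theorem ex_affP_eventually (g : SL(2, ℝ)) (α : Matrix (Fin 2) (Fin 2) ℝ) {p : C3} (hp : p ∈ Up) :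
    ex (affP g α : Up → Up) =ᶠ[𝓝 p] aff g α := by
  filter_upwards [Up.isOpen.mem_nhds hp] with q hq using ex_affP_eq g α hq

theorem lin_eq_zero {a b : ℝ} {t : ℂ} (ht : 0 < t.im) (h : (a : ℂ) * t + (b : ℂ) = 0) :
    a = 0 ∧ b = 0 := by
  have h1 := congrArg Complex.im h
  have h2 := congrArg Complex.re h
  simp at h1 h2
  have ha : a = 0 := h1.resolve_right ht.ne'
  rw [ha] at h2
  exact ⟨ha, by simpa using h2⟩

theorem free_GG : ∀ σ ∈ GG, ∀ p, σ p = p → σ = 1 := by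
  rintro _ ⟨g, hg, α, hα, rfl⟩ p hp
  have h1 : g • toH p = toH p := by rw [← toH_affP g α, hp]
  have h2 : g = 1 := CG_far.free one_pos g hg _ h1
  subst h2
  have h3 : aff 1 α p = p := congrArg Subtype.val hp
  have h4 := congrArg (fun q : C3 => q.2.1) h3
  have h5 := congrArg (fun q : C3 => q.2.2) h3
  simp [aff, jj] at h4 h5
  obtain ⟨a1, a2⟩ := lin_eq_zero p.2 h4
  obtain ⟨a3, a4⟩ := lin_eq_zero p.2 h5
  have : α = 0 := by
    ext i j
    fin_cases i <;> fin_cases j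
    · exact a1
    · exact a2
    · exact a3
    · exact a4
  rw [this, affP_one]

end Pool.Agent.W711.KC
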