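import Pool.Agent.W711.KC.Grp

/-!
# The lattice acts properly discontinuously and cocompactly
-/

set_option autoImplicit false

open scoped Manifold ContDiff Topology MatrixGroups UpperHalfPlane
open Set Filter

namespace Pool.Agent.W711.KC

open Pool.Agent.H85R3

theorem ord_finite (B : ℝ) : {α : Matrix (Fin 2) (Fin 2) ℝ | IsOrd α ∧ ∀ i j, |α i j| ≤ B}.Finite := by
  set b : ℤ := ⌈B⌉ with hb
  have hBb : B ≤ b := Int.le_ceil B
  refine ((Set.finite_Icc ((-b, -b, -b, -b) : ℤ × ℤ × ℤ × ℤ) (b, b, b, b)).image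
    (fun q => HS.qm q.1 q.2.1 q.2.2.1 q.2.2.2)).subset ?_
  rintro _ ⟨⟨x, y, z, w, rfl⟩, h⟩
  have h00 := h 0 0
  have h01 := h 0 1
  have h10 := h 1 0
  have h11 := h 1 1
  simp [HS.qm] at h00 h01 h10 h11
  have hs : (1 : ℝ) ≤ √2 := by
    rw [Real.one_le_sqrt]
    norm_num
  rw [abs_le] at h00 h01 h11
  have h10' : |3 * ((z : ℝ) - w * √2)| ≤ B := by
    rw [abs_mul]
    simpa using h10
  rw [abs_le] at h10'
  have key : ∀ t : ℤ, |(t : ℝ)| ≤ B → -b ≤ t ∧ t ≤ b := by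
    intro t ht
    have h1 := (abs_le.1 ht)
    constructor
    · have : (-(b : ℝ)) ≤ t := by linarith [h1.1]
      exact_mod_cast this
    · have : (t : ℝ) ≤ b := by linarith [h1.2]
      exact_mod_cast this
  have key2 : ∀ t : ℤ, |(t : ℝ) * √2| ≤ B → |(t : ℝ)| ≤ B := by
    intro t ht
    rw [abs_mul, abs_of_nonneg (by linarith : (0 : ℝ) ≤ √2)] at ht
    nlinarith [abs_nonneg (t : ℝ)]
  have bx := key x (abs_le.2 ⟨by linarith [h00.1, h11.1], by linarith [h00.2, h11.2]⟩)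
  have by' := key y (key2 y (abs_le.2 ⟨by linarith [h00.1, h11.2], by linarith [h00.2, h11.1]⟩))
  have bz := key z (abs_le.2 ⟨by linarith [h01.1, h10'.1, h01.2], by linarith [h01.2, h10'.2, h01.1]⟩)
  have bw := key w (key2 w (abs_le.2 ⟨by linarith [h01.1, h10'.2, h01.2, h10'.1],
    by linarith [h01.2, h10'.1, h01.1, h10'.2]⟩))
  exact ⟨(x, y, z, w), ⟨⟨bx.1, by'.1, bz.1, bw.1⟩, ⟨bx.2, by'.2, bz.2, bw.2⟩⟩, rfl⟩

/-- bounded coefficients. -/
theorem coef_bound {a b c R J : ℝ} {t z z' j : ℂ} (ht : 0 < t.im) (hc : (t.im)⁻¹ ≤ c) (htR : ‖t‖ ≤ R)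
    (hz : ‖z‖ ≤ R) (hz' : ‖z'‖ ≤ R) (hj : ‖j‖ ≤ J) (hj0 : j ≠ 0)
    (h : (z + ((a : ℂ) * t + (b : ℂ))) / j = z') :
    |a| ≤ (R * J + R) * c + ((R * J + R) + (R * J + R) * c * R) ∧
      |b| ≤ (R * J + R) * c + ((R * J + R) + (R * J + R) * c * R) := by
  have hR : 0 ≤ R := (norm_nonneg _).trans hz
  have hJ : 0 ≤ J := (norm_nonneg _).trans hj
  have hc0 : 0 < c := lt_of_lt_of_le (inv_pos.2 ht) hc
  have e : (a : ℂ) * t + (b : ℂ) = z' * j - z := by
    rw [div_eq_iff hj0] at h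
    linear_combination h
  have h1 : ‖(a : ℂ) * t + (b : ℂ)‖ ≤ R * J + R := by
    rw [e]
    refine (norm_sub_le _ _).trans ?_
    rw [norm_mul]
    have := mul_le_mul hz' hj (norm_nonneg _) hR
    linarith
  have h2 : |a * t.im| ≤ R * J + R := by
    have := (Complex.abs_im_le_norm ((a : ℂ) * t + (b : ℂ))).trans h1
    simpa using this
  have h3 : |a| ≤ (R * J + R) * c := by
    rw [abs_mul, abs_of_pos ht] at h2
    calc |a| = |a| * t.im * (t.im)⁻¹ := by field_simp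
      _ ≤ (R * J + R) * c := mul_le_mul h2 hc (inv_pos.2 ht).le (by positivity)
  have h4 : |b| ≤ (R * J + R) + (R * J + R) * c * R := by
    have h5 : (b : ℂ) = ((a : ℂ) * t + (b : ℂ)) - (a : ℂ) * t := by ring
    have h6 : |b| = ‖(b : ℂ)‖ := by rw [Complex.norm_real, Real.norm_eq_abs]
    rw [h6, h5]
    refine (norm_sub_le _ _).trans ?_
    rw [norm_mul, Complex.norm_real, Real.norm_eq_abs]
    have := mul_le_mul h3 htR (norm_nonneg _) (by positivity)
    linarith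
  constructor
  · have : 0 ≤ (R * J + R) + (R * J + R) * c * R := by positivity
    linarith
  · have : 0 ≤ (R * J + R) * c := by positivity
    linarith

theorem pd_GG (K L : Set Up) (hK : IsCompact K) (hL : IsCompact L) :
    Set.Finite {γ : GG | ((fun x => (γ : Equiv.Perm Up) x) '' K ∩ L).Nonempty} := by
  classical
  have := CG_far.properlyDiscontinuous one_pos
  have hfin := ProperlyDiscontinuousSMul.finite_disjoint_inter_image (Γ := CG)
    (hK.image continuous_toH) (hL.image continuous_toH)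
  -- bounds
  obtain ⟨R, hR⟩ := ((hK.union hL).image continuous_subtype_val).isBounded.exists_norm_le
  obtain ⟨c, hc⟩ : ∃ c : ℝ, ∀ p ∈ K, ((p : C3).1.im)⁻¹ ≤ c := by
    have h1 : ContinuousOn (fun p : Up => ((p : C3).1.im)⁻¹) K := by
      apply Continuous.continuousOn
      refine Continuous.inv₀ ?_ fun p => (mem_Up.1 p.2).ne'
      exact Complex.continuous_im.comp (continuous_fst.comp continuous_subtype_val)
    obtain ⟨c, hc⟩ := hK.bddAbove_image h1
    exact ⟨c, fun p hp => hc ⟨p, hp, rfl⟩⟩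
  have hnorm : ∀ p ∈ K ∪ L, ‖(p : C3).1‖ ≤ R ∧ ‖(p : C3).2.1‖ ≤ R ∧ ‖(p : C3).2.2‖ ≤ R := by
    intro p hp
    have h1 := hR p ⟨p, hp, rfl⟩
    exact ⟨(norm_fst_le _).trans h1, (norm_fst_le _).trans ((norm_snd_le _).trans h1),
      (norm_snd_le _).trans ((norm_snd_le _).trans h1)⟩
  set J : SL(2, ℝ) → ℝ := fun g => |g 1 0| * R + |g 1 1| with hJ
  set B : SL(2, ℝ) → ℝ := fun g =>
    (R * J g + R) * c + ((R * J g + R) + (R * J g + R) * c * R) with hB
  refine Set.Finite.of_finite_image (f := fun γ : GG => (γ : Equiv.Perm Up)) ?_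
    (Subtype.val_injective.injOn)
  refine (Set.Finite.biUnion hfin fun g _ => ((ord_finite (B g)).image (affP g))).subset ?_
  rintro _ ⟨⟨σ, g, hg, α, hα, rfl⟩, ⟨_, ⟨p, hp, rfl⟩, hpL⟩, rfl⟩
  simp only [Set.mem_iUnion]
  refine ⟨⟨g, hg⟩, ?_, ?_⟩
  · refine ⟨toH (affP g α p), ⟨toH p, ⟨p, hp, rfl⟩, ?_⟩, ⟨_, hpL, rfl⟩⟩
    exact (toH_affP g α p).symm
  · refine ⟨α, ⟨hα, ?_⟩, rfl⟩
    obtain ⟨b1, b2, b3⟩ := hnorm p (Or.inl hp)
    obtain ⟨c1, c2, c3⟩ := hnorm _ (Or.inr hpL)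
    have hj : ‖jj g (p : C3).1‖ ≤ J g := by
      unfold jj
      refine (norm_add_le _ _).trans ?_
      rw [norm_mul, Complex.norm_real, Complex.norm_real, Real.norm_eq_abs, Real.norm_eq_abs]
      have := mul_le_mul_of_nonneg_left b1 (abs_nonneg (g 1 0))
      simp only [hJ]
      linarith
    have k1 := coef_bound (a := α 0 0) (b := α 0 1) p.2 (hc p hp) b1 b2 c2 hj (jj_ne g p.2) rfl
    have k2 := coef_bound (a := α 1 0) (b := α 1 1) p.2 (hc p hp) b1 b3 c3 hj (jj_ne g p.2) rfl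
    intro i j
    fin_cases i <;> fin_cases j
    · exact k1.1
    · exact k1.2
    · exact k2.1
    · exact k2.2

instance : HolGroup GG where
  hol := by
    rintro _ ⟨g, hg, α, hα, rfl⟩ p hp
    exact ((contDiffAt_aff g α hp).congr_of_eventuallyEq
      (ex_affP_eventually g α hp)).contDiffWithinAt
  free := free_GG
  pd := pd_GG

/-- every real matrix is congruent to a bounded one modulo the order. -/
theorem exists_reduce (a b c d : ℝ) : ∃ α, IsOrd α ∧ |a + α 0 0| ≤ 9 ∧ |b + α 0 1| ≤ 9 ∧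
    |c + α 1 0| ≤ 9 ∧ |d + α 1 1| ≤ 9 := by
  have h2 : (0 : ℝ) < √2 := by positivity
  have h2' : √2 ≤ (2 : ℝ) := by
    rw [Real.sqrt_le_left (by norm_num)]
    norm_num
  set x : ℝ := (a + d) / 2 with hx
  set y : ℝ := (a - d) / 2 / √2 with hy
  set z : ℝ := (b + c / 3) / 2 with hz
  set w : ℝ := (b - c / 3) / 2 / √2 with hw
  have ey : y * √2 = (a - d) / 2 := div_mul_cancel₀ _ h2.ne'
  have ew : w * √2 = (b - c / 3) / 2 := div_mul_cancel₀ _ h2.ne'
  refine ⟨HS.qm (-⌊x⌋) (-⌊y⌋) (-⌊z⌋) (-⌊w⌋), ⟨_, _, _, _, rfl⟩, ?_⟩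
  have fx := Int.floor_le x
  have fx' := (Int.lt_floor_add_one x).le
  have fy := Int.floor_le y
  have fy' := (Int.lt_floor_add_one y).le
  have fz := Int.floor_le z
  have fz' := (Int.lt_floor_add_one z).le
  have fw := Int.floor_le w
  have fw' := (Int.lt_floor_add_one w).le
  have gy : 0 ≤ (y - ⌊y⌋) * √2 := mul_nonneg (by linarith) h2.le
  have gy' : (y - ⌊y⌋) * √2 ≤ 2 := by nlinarith
  have gw : 0 ≤ (w - ⌊w⌋) * √2 := mul_nonneg (by linarith) h2.le
  have gw' : (w - ⌊w⌋) * √2 ≤ 2 := by nlinarith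
  rw [sub_mul, ey] at gy gy'
  rw [sub_mul, ew] at gw gw'
  simp only [HS.qm, Matrix.cons_val', Matrix.cons_val_zero, Matrix.cons_val_one, Matrix.of_apply,
    Matrix.empty_val', Matrix.cons_val_fin_one, Int.cast_neg]
  refine ⟨?_, ?_, ?_, ?_⟩ <;> rw [abs_le] <;> constructor <;> nlinarith

theorem compact_GG : CompactSpace (QQ GG) := by
  obtain ⟨K, hK, hKc⟩ := HS.cocompact NN_pos
  set Ψ : ℍ × (ℝ × ℝ) × (ℝ × ℝ) → Up := fun q =>
    ⟨((q.1 : ℂ), (q.2.1.1 : ℂ) * (q.1 : ℂ) + (q.2.1.2 : ℂ),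
      (q.2.2.1 : ℂ) * (q.1 : ℂ) + (q.2.2.2 : ℂ)), q.1.im_pos⟩ with hΨ
  have hΨc : Continuous Ψ := by
    refine Continuous.subtype_mk ?_ _
    have h0 : Continuous fun q : ℍ × (ℝ × ℝ) × (ℝ × ℝ) => (q.1 : ℂ) :=
      UpperHalfPlane.continuous_coe.comp continuous_fst
    refine h0.prodMk (Continuous.prodMk ?_ ?_)
    · exact ((Complex.continuous_ofReal.comp (by fun_prop)).mul h0).add
        (Complex.continuous_ofReal.comp (by fun_prop))
    · exact ((Complex.continuous_ofReal.comp (by fun_prop)).mul h0).add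
        (Complex.continuous_ofReal.comp (by fun_prop))
  set I9 : Set ℝ := Set.Icc (-9) 9 with hI9
  have hc : IsCompact (Ψ '' (K ×ˢ (I9 ×ˢ I9) ×ˢ (I9 ×ˢ I9))) :=
    (hK.prod ((isCompact_Icc.prod isCompact_Icc).prod (isCompact_Icc.prod isCompact_Icc))).image hΨc
  refine compact_of_cover GG hc fun p => ?_
  obtain ⟨g, hg, hgK⟩ := hKc (toH p)
  obtain ⟨q, hq⟩ : ∃ q, q = affP g 0 p := ⟨_, rfl⟩
  have hqK : toH q ∈ K := by
    rw [hq, toH_affP]
    exact hgK
  have hq0 : (q : C3).1.im ≠ 0 := (mem_Up.1 q.2).ne'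
  -- real coordinates
  have real : ∀ z : ℂ, z = ((z.im / (q : C3).1.im : ℝ) : ℂ) * (q : C3).1 +
      ((z.re - z.im / (q : C3).1.im * (q : C3).1.re : ℝ) : ℂ) := by
    intro z
    apply Complex.ext
    · simp
    · simp
      field_simp
  obtain ⟨α, hα, h1, h2, h3, h4⟩ := exists_reduce ((q : C3).2.1.im / (q : C3).1.im)
    ((q : C3).2.1.re - (q : C3).2.1.im / (q : C3).1.im * (q : C3).1.re)
    ((q : C3).2.2.im / (q : C3).1.im)
    ((q : C3).2.2.re - (q : C3).2.2.im / (q : C3).1.im * (q : C3).1.re)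
  refine ⟨affP 1 α * affP g 0, ?_, ?_⟩
  · exact mul_mem ⟨1, one_mem _, α, hα, rfl⟩ ⟨g, hg, 0, IsOrd.zero, rfl⟩
  · refine ⟨(toH q, (_, _), (_, _)), ⟨hqK, ⟨abs_le.1 h1, abs_le.1 h2⟩, ⟨abs_le.1 h3, abs_le.1 h4⟩⟩, ?_⟩
    apply Subtype.ext
    rw [Equiv.Perm.mul_apply, ← hq]
    have e0 : ((affP 1 α q : Up) : C3) = ((q : C3).1,
        (q : C3).2.1 + ((α 0 0 : ℂ) * (q : C3).1 + (α 0 1 : ℂ)),
        (q : C3).2.2 + ((α 1 0 : ℂ) * (q : C3).1 + (α 1 1 : ℂ))) := by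
      rw [affP_coe]
      simp [aff, nn, jj]
    rw [e0]
    refine Prod.ext rfl (Prod.ext ?_ ?_)
    · have e := real (q : C3).2.1
      simp only [hΨ, toH]
      push_cast at e ⊢
      linear_combination (-1 : ℂ) * e
    · have e := real (q : C3).2.2
      simp only [hΨ, toH]
      push_cast at e ⊢
      linear_combination (-1 : ℂ) * e

theorem connected_Up : ConnectedSpace Up := by
  have h1 : IsConnected (Up : Set C3) := by
    refine ⟨⟨(Complex.I, 0, 0), by simp [Up]⟩, ?_⟩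
    apply Convex.isPreconnected
    have : (Up : Set C3) = L1 ⁻¹' (Set.Ioi 0) := rfl
    rw [this]
    exact (convex_Ioi 0).linear_preimage L1.toLinearMap
  exact isConnected_iff_connectedSpace.1 h1

theorem connected_GG : ConnectedSpace (QQ GG) := by
  have := connected_Up
  exact (pr_surj GG).connectedSpace (continuous_pr GG)

end Pool.Agent.W711.KC
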