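import Pool.Agent.W711.KC.Defs

/-!
# The Levi form: change of variables, and the potential of the metric
-/

set_option autoImplicit false

open scoped Manifold ContDiff Topology
open Set Filter

namespace Pool.Agent.W711.KC

/-- second derivative in two directions, from the derivative of the derivative. -/
theorem fderiv_fderiv_apply {φ : C3 → ℝ} {z : C3} (hφ : ContDiffAt ℝ ∞ φ z) (u v : C3) :
    fderiv ℝ (fun w => fderiv ℝ φ w u) z v = fderiv ℝ (fderiv ℝ φ) z v u := by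
  have h1 : DifferentiableAt ℝ (fderiv ℝ φ) z :=
    (hφ.fderiv_right (m := 1) (by norm_cast)).differentiableAt (by simp)
  have h2 := h1.hasFDerivAt.clm_apply (hasFDerivAt_const u z)
  rw [h2.fderiv]
  simp

theorem leviForm_eq {φ : C3 → ℝ} {z : C3} (hφ : ContDiffAt ℝ ∞ φ z) (v : C3) :
    leviForm φ z v = fderiv ℝ (fderiv ℝ φ) z v v +
      fderiv ℝ (fderiv ℝ φ) z (Complex.I • v) (Complex.I • v) := by
  unfold leviForm
  rw [fderiv_fderiv_apply hφ, fderiv_fderiv_apply hφ]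

theorem leviForm_congr {φ ψ : C3 → ℝ} {z : C3} (h : φ =ᶠ[𝓝 z] ψ) (v : C3) :
    leviForm φ z v = leviForm ψ z v := by
  unfold leviForm
  have h1 : ∀ u : C3, (fun w => fderiv ℝ φ w u) =ᶠ[𝓝 z] fun w => fderiv ℝ ψ w u := by
    intro u
    filter_upwards [h.fderiv (𝕜 := ℝ)] with w hw
    rw [hw]
  rw [(h1 v).fderiv_eq, (h1 _).fderiv_eq]

/-- **Change of variables** for the Levi form. -/
theorem leviForm_comp {φ : C3 → ℝ} {h : C3 → C3} {z : C3} (hh : ContDiffAt ℂ ω h z)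
    (hφ : ContDiffAt ℝ ∞ φ (h z)) (v : C3) :
    leviForm (φ ∘ h) z v = leviForm φ (h z) (fderiv ℂ h z v) := by
  have hhR : ContDiffAt ℝ ω h z := hh.restrict_scalars ℝ
  have hcomp : ContDiffAt ℝ ∞ (φ ∘ h) z := hφ.comp z (hhR.of_le (by simp))
  rw [leviForm_eq hφ]
  unfold leviForm
  -- first derivative near `z`
  have e1 : ∀ᶠ w in 𝓝 z, ∀ u, fderiv ℝ (φ ∘ h) w u = fderiv ℝ φ (h w) (fderiv ℂ h w u) := by
    have c1 : ∀ᶠ w in 𝓝 z, ContDiffAt ℂ 1 h w := (hh.of_le (by simp)).eventually (by simp)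
    have c2 : ∀ᶠ w in 𝓝 z, ContDiffAt ℝ 1 φ (h w) :=
      hh.continuousAt.eventually ((hφ.of_le (by norm_cast)).eventually (by simp))
    filter_upwards [c1, c2] with w hw1 hw2 u
    have d1 : HasFDerivAt h ((fderiv ℂ h w).restrictScalars ℝ) w :=
      (hw1.differentiableAt (by simp)).hasFDerivAt.restrictScalars ℝ
    have d2 : HasFDerivAt φ (fderiv ℝ φ (h w)) (h w) :=
      (hw2.differentiableAt (by simp)).hasFDerivAt
    rw [(d2.comp w d1).fderiv]
    rfl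
  -- second derivative
  have hD : DifferentiableAt ℂ (fderiv ℂ h) z :=
    (hh.fderiv_right (m := 1) (by simp)).differentiableAt (by simp)
  have hφ1 : DifferentiableAt ℝ (fderiv ℝ φ) (h z) :=
    (hφ.fderiv_right (m := 1) (by norm_cast)).differentiableAt (by simp)
  have d1 : HasFDerivAt h ((fderiv ℂ h z).restrictScalars ℝ) z :=
    (hh.differentiableAt (by simp)).hasFDerivAt.restrictScalars ℝ
  have key : ∀ u u' : C3, fderiv ℝ (fun w => fderiv ℝ (φ ∘ h) w u) z u' =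
      fderiv ℝ (fderiv ℝ φ) (h z) (fderiv ℂ h z u') (fderiv ℂ h z u) +
        fderiv ℝ φ (h z) (fderiv ℂ (fderiv ℂ h) z u' u) := by
    intro u u'
    have e2 : (fun w => fderiv ℝ (φ ∘ h) w u) =ᶠ[𝓝 z]
        fun w => fderiv ℝ φ (h w) (fderiv ℂ h w u) := by
      filter_upwards [e1] with w hw using hw u
    rw [e2.fderiv_eq]
    have a1 : HasFDerivAt (fun w => fderiv ℝ φ (h w))
        ((fderiv ℝ (fderiv ℝ φ) (h z)).comp ((fderiv ℂ h z).restrictScalars ℝ)) z :=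
      hφ1.hasFDerivAt.comp z d1
    have a2 : HasFDerivAt (fun w => fderiv ℂ h w u)
        (((fderiv ℂ (fderiv ℂ h) z).flip u).restrictScalars ℝ) z := by
      have := (hD.hasFDerivAt.clm_apply (hasFDerivAt_const u z)).restrictScalars ℝ
      have h0 : (fderiv ℂ h z).comp (0 : C3 →L[ℂ] C3) + (fderiv ℂ (fderiv ℂ h) z).flip u =
          (fderiv ℂ (fderiv ℂ h) z).flip u := by
        rw [ContinuousLinearMap.comp_zero, zero_add]
      rw [h0] at this
      exact this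
    rw [(a1.clm_apply a2).fderiv]
    simp [add_comm]
  rw [key, key]
  have l1 : fderiv ℂ h z (Complex.I • v) = Complex.I • fderiv ℂ h z v := map_smul _ _ _
  have l2 : fderiv ℂ (fderiv ℂ h) z (Complex.I • v) (Complex.I • v) =
      - fderiv ℂ (fderiv ℂ h) z v v := by
    rw [map_smul (fderiv ℂ (fderiv ℂ h) z), smul_apply, map_smul, smul_smul,
      Complex.I_mul_I, neg_one_smul]
  rw [l1, l2, map_neg]
  ring

/-- The upper half space `Im τ > 0`. -/
def Up : TopologicalSpace.Opens C3 :=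
  ⟨{p | 0 < p.1.im}, isOpen_lt continuous_const (Complex.continuous_im.comp continuous_fst)⟩

theorem mem_Up {p : C3} : p ∈ Up ↔ 0 < p.1.im := Iff.rfl

/-- The Kähler potential `((Im z)² + (Im w)²) / Im τ - log Im τ`. -/
noncomputable def Phi (p : C3) : ℝ :=
  (p.2.1.im ^ 2 + p.2.2.im ^ 2) * (p.1.im)⁻¹ - Real.log p.1.im

/-- The metric: `|dτ|² / (Im τ)² + (2 / Im τ) (|dz - (Im z / Im τ) dτ|² + |dw - (Im w / Im τ) dτ|²)`. -/
noncomputable def gt (p v : C3) : ℝ :=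
  Complex.normSq v.1 / p.1.im ^ 2 +
    2 / p.1.im * (Complex.normSq (v.2.1 - (p.2.1.im / p.1.im : ℝ) * v.1) +
      Complex.normSq (v.2.2 - (p.2.2.im / p.1.im : ℝ) * v.1))

/-- the three imaginary parts, as real linear forms. -/
noncomputable def L1 : C3 →L[ℝ] ℝ := Complex.imCLM.comp (ContinuousLinearMap.fst ℝ ℂ (ℂ × ℂ))
noncomputable def L2 : C3 →L[ℝ] ℝ := Complex.imCLM.comp
  ((ContinuousLinearMap.fst ℝ ℂ ℂ).comp (ContinuousLinearMap.snd ℝ ℂ (ℂ × ℂ)))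
noncomputable def L3 : C3 →L[ℝ] ℝ := Complex.imCLM.comp
  ((ContinuousLinearMap.snd ℝ ℂ ℂ).comp (ContinuousLinearMap.snd ℝ ℂ (ℂ × ℂ)))

theorem L1_apply (p : C3) : L1 p = p.1.im := rfl
theorem L2_apply (p : C3) : L2 p = p.2.1.im := rfl
theorem L3_apply (p : C3) : L3 p = p.2.2.im := rfl

theorem Phi_eq : Phi = fun p => (L2 p ^ 2 + L3 p ^ 2) * (L1 p)⁻¹ - Real.log (L1 p) := rfl

theorem contDiffAt_Phi {p : C3} (hp : p ∈ Up) : ContDiffAt ℝ ∞ Phi p := by
  have h0 : L1 p ≠ 0 := (mem_Up.1 hp).ne'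
  rw [Phi_eq]
  have h1 : ContDiffAt ℝ ∞ (fun p => L1 p) p := L1.contDiff.contDiffAt
  have h2 : ContDiffAt ℝ ∞ (fun p => L2 p) p := L2.contDiff.contDiffAt
  have h3 : ContDiffAt ℝ ∞ (fun p => L3 p) p := L3.contDiff.contDiffAt
  exact (((h2.pow 2).add (h3.pow 2)).mul (h1.inv h0)).sub (h1.log h0)

/-- first directional derivative of the potential. -/
theorem fderiv_Phi {p : C3} (hp : p ∈ Up) (u : C3) : fderiv ℝ Phi p u =
    (2 * L2 p * L2 u + 2 * L3 p * L3 u) * (L1 p)⁻¹ -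
      (L2 p ^ 2 + L3 p ^ 2) * L1 u * (L1 p ^ 2)⁻¹ - L1 u * (L1 p)⁻¹ := by
  have h0 : L1 p ≠ 0 := (mem_Up.1 hp).ne'
  rw [Phi_eq]
  have h1 : HasFDerivAt (fun p => L1 p) L1 p := L1.hasFDerivAt
  have h2 : HasFDerivAt (fun p => L2 p) L2 p := L2.hasFDerivAt
  have h3 : HasFDerivAt (fun p => L3 p) L3 p := L3.hasFDerivAt
  have h4 : HasFDerivAt (fun p => (L2 p ^ 2 + L3 p ^ 2) * (L1 p)⁻¹ - Real.log (L1 p)) _ p :=
    (((h2.pow 2).add (h3.pow 2)).mul ((hasFDerivAt_inv h0).comp p h1)).sub (h1.log h0)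
  rw [h4.fderiv]
  simp
  field_simp
  ring

/-- second directional derivative of the potential. -/
theorem fderiv_fderiv_Phi {p : C3} (hp : p ∈ Up) (u : C3) :
    fderiv ℝ (fun w => fderiv ℝ Phi w u) p u =
      (2 * L2 u ^ 2 + 2 * L3 u ^ 2) * (L1 p)⁻¹ -
        2 * ((2 * L2 p * L2 u + 2 * L3 p * L3 u) * L1 u) * (L1 p ^ 2)⁻¹ +
        2 * (L2 p ^ 2 + L3 p ^ 2) * L1 u ^ 2 * (L1 p ^ 3)⁻¹ + L1 u ^ 2 * (L1 p ^ 2)⁻¹ := by
  have h0 : L1 p ≠ 0 := (mem_Up.1 hp).ne'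
  have e : (fun w => fderiv ℝ Phi w u) =ᶠ[𝓝 p] fun p =>
      (2 * L2 p * L2 u + 2 * L3 p * L3 u) * (L1 p)⁻¹ -
      (L2 p ^ 2 + L3 p ^ 2) * L1 u * (L1 p ^ 2)⁻¹ - L1 u * (L1 p)⁻¹ := by
    filter_upwards [Up.isOpen.mem_nhds hp] with w hw using fderiv_Phi hw u
  rw [e.fderiv_eq]
  have h1 : HasFDerivAt (fun p => L1 p) L1 p := L1.hasFDerivAt
  have h2 : HasFDerivAt (fun p => L2 p) L2 p := L2.hasFDerivAt
  have h3 : HasFDerivAt (fun p => L3 p) L3 p := L3.hasFDerivAt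
  have hi : HasFDerivAt (fun p => (L1 p)⁻¹) _ p := (hasFDerivAt_inv h0).comp p h1
  have hi2 : HasFDerivAt (fun p => (L1 p ^ 2)⁻¹) _ p :=
    (hasFDerivAt_inv (pow_ne_zero 2 h0)).comp p (h1.pow 2)
  have h4 : HasFDerivAt (fun p => (2 * L2 p * L2 u + 2 * L3 p * L3 u) * (L1 p)⁻¹ -
      (L2 p ^ 2 + L3 p ^ 2) * L1 u * (L1 p ^ 2)⁻¹ - L1 u * (L1 p)⁻¹) _ p :=
    (((((h2.const_mul 2).mul_const (L2 u)).add ((h3.const_mul 2).mul_const (L3 u))).mul
    hi).sub ((((h2.pow 2).add (h3.pow 2)).mul_const (L1 u)).mul hi2)).sub (hi.const_mul (L1 u))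
  rw [h4.fderiv]
  simp
  field_simp
  ring

/-- **The potential and the metric.** -/
theorem leviForm_Phi {p : C3} (hp : p ∈ Up) (v : C3) : leviForm Phi p v = gt p v := by
  unfold leviForm
  rw [fderiv_fderiv_Phi hp, fderiv_fderiv_Phi hp]
  have h0 : p.1.im ≠ 0 := (mem_Up.1 hp).ne'
  unfold gt
  simp only [L1_apply, L2_apply, L3_apply, Complex.normSq_apply, Prod.smul_fst, Prod.smul_snd,
    smul_eq_mul, Complex.mul_im, Complex.mul_re, Complex.I_re, Complex.I_im, Complex.sub_re,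
    Complex.sub_im, Complex.ofReal_re, Complex.ofReal_im, zero_mul, one_mul, zero_add, sub_zero,
    add_zero]
  field_simp
  ring

theorem gt_pos {p : C3} (hp : p ∈ Up) {v : C3} (hv : v ≠ 0) : 0 < gt p v := by
  have h0 : 0 < p.1.im := mem_Up.1 hp
  unfold gt
  by_cases h1 : v.1 = 0
  · rw [h1]
    simp only [mul_zero, sub_zero, map_zero, zero_div, zero_add]
    have h2 : 0 < Complex.normSq v.2.1 + Complex.normSq v.2.2 := by
      by_cases h3 : v.2.1 = 0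
      · have h4 : v.2.2 ≠ 0 := fun h4 => hv (Prod.ext h1 (Prod.ext h3 h4))
        exact add_pos_of_nonneg_of_pos (Complex.normSq_nonneg _) (Complex.normSq_pos.2 h4)
      · exact add_pos_of_pos_of_nonneg (Complex.normSq_pos.2 h3) (Complex.normSq_nonneg _)
    positivity
  · have h2 : 0 < Complex.normSq v.1 := Complex.normSq_pos.2 h1
    have h3 := Complex.normSq_nonneg (v.2.1 - (p.2.1.im / p.1.im : ℝ) * v.1)
    have h4 := Complex.normSq_nonneg (v.2.2 - (p.2.2.im / p.1.im : ℝ) * v.1)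
    positivity

end Pool.Agent.W711.KC
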