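import Pool.Agent.W711.KC.Lat

/-!
# The automorphism, the metric and the splitting
-/

set_option autoImplicit false

open scoped Manifold ContDiff Topology MatrixGroups UpperHalfPlane
open Set Filter

namespace Pool.Agent.W711.KC

open Pool.Agent.H85R3

/-! ### The automorphism on the upper half space -/

/-- `(τ, z, w) ↦ (τ, (3 + 2 s √2) z, (3 - 2 s √2) w)`, with `s = ±1`. -/
noncomputable def Fl (s : ℝ) : C3 →L[ℂ] C3 :=
  (ContinuousLinearMap.fst ℂ ℂ (ℂ × ℂ)).prod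
    ((((3 + 2 * s * √2 : ℝ) : ℂ) • (ContinuousLinearMap.fst ℂ ℂ ℂ).comp
        (ContinuousLinearMap.snd ℂ ℂ (ℂ × ℂ))).prod
      (((3 - 2 * s * √2 : ℝ) : ℂ) • (ContinuousLinearMap.snd ℂ ℂ ℂ).comp
        (ContinuousLinearMap.snd ℂ ℂ (ℂ × ℂ))))

theorem Fl_apply (s : ℝ) (p : C3) :
    Fl s p = (p.1, ((3 + 2 * s * √2 : ℝ) : ℂ) * p.2.1, ((3 - 2 * s * √2 : ℝ) : ℂ) * p.2.2) := rfl

/-- the map on the upper half space. -/
noncomputable def Fs (s : ℝ) (p : Up) : Up := ⟨Fl s p, p.2⟩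

theorem unit_eq (s : ℝ) (hs : s ^ 2 = 1) : (3 + 2 * s * √2) * (3 - 2 * s * √2) = 1 := by
  have h2 : √2 ^ 2 = (2 : ℝ) := Real.sq_sqrt (by norm_num)
  linear_combination (-4 * s ^ 2) * h2 - 8 * hs

theorem Fl_neg (s : ℝ) (hs : s ^ 2 = 1) (p : C3) : Fl (-s) (Fl s p) = p := by
  have h := unit_eq s hs
  have h' : ((3 + 2 * s * √2 : ℝ) : ℂ) * ((3 - 2 * s * √2 : ℝ) : ℂ) = 1 := by exact_mod_cast h
  simp only [Fl_apply]
  refine Prod.ext rfl (Prod.ext ?_ ?_)
  · simp only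
    have e : (3 + 2 * -s * √2 : ℝ) = 3 - 2 * s * √2 := by ring
    rw [e]
    linear_combination p.2.1 * h'
  · simp only
    have e : (3 - 2 * -s * √2 : ℝ) = 3 + 2 * s * √2 := by ring
    rw [e]
    linear_combination p.2.2 * h'

theorem Fs_neg (s : ℝ) (hs : s ^ 2 = 1) (p : Up) : Fs (-s) (Fs s p) = p :=
  Subtype.ext (Fl_neg s hs p)

theorem ex_Fs_eq (s : ℝ) {p : C3} (hp : p ∈ Up) : ex (Fs s) p = Fl s p := ex_apply _ ⟨p, hp⟩

theorem ex_Fs_eventually (s : ℝ) {p : C3} (hp : p ∈ Up) : ex (Fs s) =ᶠ[𝓝 p] Fl s := by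
  filter_upwards [Up.isOpen.mem_nhds hp] with q hq using ex_Fs_eq s hq

theorem fderiv_ex_Fs (s : ℝ) {p : C3} (hp : p ∈ Up) : fderiv ℂ (ex (Fs s)) p = Fl s := by
  rw [(ex_Fs_eventually s hp).fderiv_eq]
  exact (Fl s).fderiv

theorem norm_Fs (s : ℤ) : Norm GG (Fs s) where
  hol := by
    intro p hp
    exact (((Fl s).contDiff.contDiffAt).congr_of_eventuallyEq
      (ex_Fs_eventually s hp)).contDiffWithinAt
  norm := by
    rintro _ ⟨g, hg, α, hα, rfl⟩
    refine ⟨affP g (HS.qm 3 (2 * s) 0 0 * α), ⟨g, hg, _, IsOrd.mul ⟨_, _, _, _, rfl⟩ hα, rfl⟩,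
      fun x => ?_⟩
    apply Subtype.ext
    change Fl s (aff g α x) = aff g _ (Fl s x)
    have e0 : ∀ j, (HS.qm 3 (2 * s) 0 0 * α) 0 j = (3 + 2 * s * √2) * α 0 j := by
      intro j
      simp [HS.qm, Matrix.mul_apply, Fin.sum_univ_two]
    have e1 : ∀ j, (HS.qm 3 (2 * s) 0 0 * α) 1 j = (3 - 2 * s * √2) * α 1 j := by
      intro j
      simp [HS.qm, Matrix.mul_apply, Fin.sum_univ_two]
    unfold aff
    rw [e0, e0, e1, e1]
    simp only [Fl_apply]
    refine Prod.ext rfl (Prod.ext ?_ ?_)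
    · push_cast
      ring
    · push_cast
      ring

/-- **The automorphism.** -/
noncomputable def fmap (s : ℤ) : QQ GG → QQ GG := desc (Fs s) (norm_Fs s)

theorem fmap_neg (s : ℤ) (hs : s ^ 2 = 1) (q : QQ GG) : fmap (-s) (fmap s q) = q := by
  obtain ⟨p, rfl⟩ := pr_surj GG q
  unfold fmap
  rw [desc_pr, desc_pr]
  congr 1
  have := Fs_neg s (by exact_mod_cast hs) p
  push_cast
  exact this

/-- the automorphism as a biholomorphic map. -/
noncomputable def fdiff : Diffeomorph 𝓘(ℂ, C3) 𝓘(ℂ, C3) (QQ GG) (QQ GG) ω where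
  toFun := fmap 1
  invFun := fmap (-1)
  left_inv q := fmap_neg 1 (by norm_num) q
  right_inv q := by
    have := fmap_neg (-1) (by norm_num) q
    simpa using this
  contMDiff_toFun := contMDiff_desc _ (norm_Fs 1)
  contMDiff_invFun := contMDiff_desc _ (norm_Fs (-1))

/-! ### The splitting -/

theorem w1_add (p u v : C3) : w1 p (u + v) = w1 p u + w1 p v := by
  unfold w1
  simp only [Prod.fst_add, Prod.snd_add]
  ring

theorem w2_add (p u v : C3) : w2 p (u + v) = w2 p u + w2 p v := by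
  unfold w2
  simp only [Prod.fst_add, Prod.snd_add]
  ring

theorem w1_smul (p : C3) (c : ℂ) (v : C3) : w1 p (c • v) = c * w1 p v := by
  unfold w1
  simp only [Prod.smul_fst, Prod.smul_snd, smul_eq_mul]
  ring

theorem w2_smul (p : C3) (c : ℂ) (v : C3) : w2 p (c • v) = c * w2 p v := by
  unfold w2
  simp only [Prod.smul_fst, Prod.smul_snd, smul_eq_mul]
  ring

/-- contracted direction -/
def Bs (p : C3) : Submodule ℂ C3 where
  carrier := {v | v.1 = 0 ∧ w1 p v = 0}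
  add_mem' := by
    rintro u v ⟨h1, h2⟩ ⟨h3, h4⟩
    exact ⟨by simp [h1, h3], by rw [w1_add, h2, h4, add_zero]⟩
  zero_mem' := ⟨rfl, by simp [w1]⟩
  smul_mem' := by
    rintro c v ⟨h1, h2⟩
    exact ⟨by simp [h1], by rw [w1_smul, h2, mul_zero]⟩

/-- center direction -/
def Bc (p : C3) : Submodule ℂ C3 where
  carrier := {v | w1 p v = 0 ∧ w2 p v = 0}
  add_mem' := by
    rintro u v ⟨h1, h2⟩ ⟨h3, h4⟩
    exact ⟨by rw [w1_add, h1, h3, add_zero], by rw [w2_add, h2, h4, add_zero]⟩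
  zero_mem' := ⟨by simp [w1], by simp [w2]⟩
  smul_mem' := by
    rintro c v ⟨h1, h2⟩
    exact ⟨by rw [w1_smul, h1, mul_zero], by rw [w2_smul, h2, mul_zero]⟩

/-- expanded direction -/
def Bu (p : C3) : Submodule ℂ C3 where
  carrier := {v | v.1 = 0 ∧ w2 p v = 0}
  add_mem' := by
    rintro u v ⟨h1, h2⟩ ⟨h3, h4⟩
    exact ⟨by simp [h1, h3], by rw [w2_add, h2, h4, add_zero]⟩
  zero_mem' := ⟨rfl, by simp [w2]⟩
  smul_mem' := by
    rintro c v ⟨h1, h2⟩
    exact ⟨by simp [h1], by rw [w2_smul, h2, mul_zero]⟩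

theorem mem_Bs {p v : C3} : v ∈ Bs p ↔ v.1 = 0 ∧ w1 p v = 0 := Iff.rfl
theorem mem_Bc {p v : C3} : v ∈ Bc p ↔ w1 p v = 0 ∧ w2 p v = 0 := Iff.rfl
theorem mem_Bu {p v : C3} : v ∈ Bu p ↔ v.1 = 0 ∧ w2 p v = 0 := Iff.rfl

/-- spanning vectors -/
def ss (_ : C3) : C3 := (0, 0, 1)
def su (_ : C3) : C3 := (0, 1, 0)
noncomputable def sc (p : C3) : C3 :=
  (1, ((p.2.1.im / p.1.im : ℝ) : ℂ), ((p.2.2.im / p.1.im : ℝ) : ℂ))

theorem Bs_eq (p : C3) : Bs p = Submodule.span ℂ {ss p} := by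
  ext v
  rw [mem_Bs, Submodule.mem_span_singleton]
  constructor
  · rintro ⟨h1, h2⟩
    refine ⟨v.2.2, ?_⟩
    unfold w1 at h2
    rw [h1] at h2
    simp at h2
    exact Prod.ext (by simp [ss, h1]) (Prod.ext (by simp [ss, h2]) (by simp [ss]))
  · rintro ⟨c, rfl⟩
    simp [ss, w1]

theorem Bu_eq (p : C3) : Bu p = Submodule.span ℂ {su p} := by
  ext v
  rw [mem_Bu, Submodule.mem_span_singleton]
  constructor
  · rintro ⟨h1, h2⟩
    refine ⟨v.2.1, ?_⟩
    unfold w2 at h2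
    rw [h1] at h2
    simp at h2
    exact Prod.ext (by simp [su, h1]) (Prod.ext (by simp [su]) (by simp [su, h2]))
  · rintro ⟨c, rfl⟩
    simp [su, w2]

theorem Bc_eq (p : C3) : Bc p = Submodule.span ℂ {sc p} := by
  ext v
  rw [mem_Bc, Submodule.mem_span_singleton]
  constructor
  · rintro ⟨h1, h2⟩
    refine ⟨v.1, ?_⟩
    unfold w1 at h1
    unfold w2 at h2
    refine Prod.ext ?_ (Prod.ext ?_ ?_)
    · simp [sc]
    · simp only [sc, Prod.smul_snd, Prod.smul_fst, smul_eq_mul]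
      linear_combination -h1
    · simp only [sc, Prod.smul_fst, Prod.smul_snd, smul_eq_mul]
      linear_combination -h2
  · rintro ⟨c, rfl⟩
    simp only [w1, w2, sc, Prod.smul_fst, Prod.smul_snd, smul_eq_mul]
    constructor <;> ring

/-- a linear map which is diagonal with respect to the two frames. -/
structure Compat (D : C3 →L[ℂ] C3) (p p' : C3) (a b c : ℂ) : Prop where
  ha : a ≠ 0
  hb : b ≠ 0
  hc : c ≠ 0
  h1 : ∀ v, (D v).1 = a * v.1
  h2 : ∀ v, w1 p' (D v) = b * w1 p v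
  h3 : ∀ v, w2 p' (D v) = c * w2 p v

theorem eq_zero_of {p v : C3} (h1 : v.1 = 0) (h2 : w1 p v = 0) (h3 : w2 p v = 0) : v = 0 := by
  unfold w1 at h2
  unfold w2 at h3
  rw [h1] at h2 h3
  simp at h2 h3
  exact Prod.ext h1 (Prod.ext h2 h3)

namespace Compat

variable {D : C3 →L[ℂ] C3} {p p' : C3} {a b c : ℂ} (h : Compat D p p' a b c)
include h

theorem injective : Function.Injective D := by
  rw [injective_iff_map_eq_zero]
  intro v hv
  have e1 := h.h1 v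
  have e2 := h.h2 v
  have e3 := h.h3 v
  rw [hv] at e1 e2 e3
  refine eq_zero_of (p := p) ?_ ?_ ?_
  · simpa [h.ha] using e1.symm
  · simpa [h.hb, w1] using e2.symm
  · simpa [h.hc, w2] using e3.symm

theorem surjective : Function.Surjective D :=
  (LinearMap.injective_iff_surjective (f := D.toLinearMap)).1 h.injective

theorem map_Bs : (Bs p).map D.toLinearMap = Bs p' := by
  ext u
  rw [Submodule.mem_map]
  constructor
  · rintro ⟨v, ⟨e1, e2⟩, rfl⟩
    exact ⟨(h.h1 v).trans (by rw [e1, mul_zero]), (h.h2 v).trans (by rw [e2, mul_zero])⟩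
  · rintro ⟨e1, e2⟩
    obtain ⟨v, rfl⟩ := h.surjective u
    rw [h.h1] at e1
    rw [h.h2] at e2
    exact ⟨v, ⟨(mul_eq_zero.1 e1).resolve_left h.ha, (mul_eq_zero.1 e2).resolve_left h.hb⟩, rfl⟩

theorem map_Bu : (Bu p).map D.toLinearMap = Bu p' := by
  ext u
  rw [Submodule.mem_map]
  constructor
  · rintro ⟨v, ⟨e1, e2⟩, rfl⟩
    exact ⟨(h.h1 v).trans (by rw [e1, mul_zero]), (h.h3 v).trans (by rw [e2, mul_zero])⟩
  · rintro ⟨e1, e2⟩
    obtain ⟨v, rfl⟩ := h.surjective u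
    rw [h.h1] at e1
    rw [h.h3] at e2
    exact ⟨v, ⟨(mul_eq_zero.1 e1).resolve_left h.ha, (mul_eq_zero.1 e2).resolve_left h.hc⟩, rfl⟩

theorem map_Bc : (Bc p).map D.toLinearMap = Bc p' := by
  ext u
  rw [Submodule.mem_map]
  constructor
  · rintro ⟨v, ⟨e1, e2⟩, rfl⟩
    exact ⟨(h.h2 v).trans (by rw [e1, mul_zero]), (h.h3 v).trans (by rw [e2, mul_zero])⟩
  · rintro ⟨e1, e2⟩
    obtain ⟨v, rfl⟩ := h.surjective u
    rw [h.h2] at e1
    rw [h.h3] at e2
    exact ⟨v, ⟨(mul_eq_zero.1 e1).resolve_left h.hb, (mul_eq_zero.1 e2).resolve_left h.hc⟩, rfl⟩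

end Compat

theorem compat_deck {γ : Equiv.Perm Up} (hγ : γ ∈ GG) {p : C3} (hp : p ∈ Up) :
    ∃ j : ℂ, j ≠ 0 ∧ (ex γ p).1.im = p.1.im / Complex.normSq j ∧
      Compat (fderiv ℂ (ex γ) p) p (ex γ p) (1 / j ^ 2) (1 / j) (1 / j) := by
  obtain ⟨g, hg, α, hα, rfl⟩ := hγ
  have hj := jj_ne g hp
  refine ⟨jj g p.1, hj, ?_, ?_⟩
  · rw [ex_affP_eq g α hp]
    exact im_mob g hp
  · rw [ex_affP_eq g α hp, (ex_affP_eventually g α hp).fderiv_eq]
    refine ⟨div_ne_zero one_ne_zero (pow_ne_zero 2 hj), div_ne_zero one_ne_zero hj,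
      div_ne_zero one_ne_zero hj, fun v => ?_, fun v => ?_, fun v => ?_⟩
    · rw [fst_aff g α hp]
      ring
    · rw [w1_aff g α hp]
      ring
    · rw [w2_aff g α hp]
      ring

theorem gt_deck {γ : Equiv.Perm Up} (hγ : γ ∈ GG) {p : C3} (hp : p ∈ Up) (v : C3) :
    gt (ex γ p) (fderiv ℂ (ex γ) p v) = gt p v := by
  obtain ⟨g, hg, α, hα, rfl⟩ := hγ
  rw [ex_affP_eq g α hp, (ex_affP_eventually g α hp).fderiv_eq]
  exact gt_aff g α hp v

/-! ### The structures on the quotient -/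

/-- The metric. -/
noncomputable def gQ (q : QQ GG) (v : TangentSpace 𝓘(ℂ, C3) q) : ℝ := gt (chartAt C3 q q) v

/-- The stable, center and unstable bundles. -/
noncomputable def EsQ (q : QQ GG) : Submodule ℂ (TangentSpace 𝓘(ℂ, C3) q) := Bs (chartAt C3 q q)
noncomputable def EcQ (q : QQ GG) : Submodule ℂ (TangentSpace 𝓘(ℂ, C3) q) := Bc (chartAt C3 q q)
noncomputable def EuQ (q : QQ GG) : Submodule ℂ (TangentSpace 𝓘(ℂ, C3) q) := Bu (chartAt C3 q q)

theorem compat_coord {x z : QQ GG} (hz : z ∈ (chartAt C3 x).source) :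
    ∃ a b c, Compat (tangentCoordChange 𝓘(ℂ, C3) x z z) (chartAt C3 x z) (chartAt C3 z z) a b c := by
  obtain ⟨γ, hγ, h1, h2⟩ := tangentCoordChange_eq hz (mem_chart_source C3 z)
  obtain ⟨j, -, -, h3⟩ := compat_deck hγ (chart_mem (chart_mem_atlas C3 x) hz)
  rw [h2, ← h1]
  exact ⟨_, _, _, h3⟩

theorem isKahler : IsKahlerMetric gQ := by
  refine ⟨fun q v hv => gt_pos (chart_self_mem q) hv, fun x₀ => ?_⟩
  refine ⟨(chartAt C3 x₀).source, (chartAt C3 x₀).open_source, mem_chart_source C3 x₀,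
    fun q => Phi (chartAt C3 x₀ q), fun x hx => ?_⟩
  obtain ⟨γ, hγ, h1, h2⟩ := deck_symm (chart_mem_atlas C3 x) (chart_mem_atlas C3 x₀)
    ((chartAt C3 x).map_source (mem_chart_source C3 x))
    (by rw [(chartAt C3 x).left_inv (mem_chart_source C3 x)]; exact hx)
  have hp := chart_self_mem x
  have e : ((fun q => Phi (chartAt C3 x₀ q)) ∘ (chartAt C3 x).symm) =ᶠ[𝓝 (chartAt C3 x x)]
      Phi ∘ ex γ := by
    filter_upwards [h2] with z hz
    simp only [Function.comp_apply]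
    rw [hz]
  have hh : ContDiffAt ℂ ω (ex (γ : Up → Up)) (chartAt C3 x x) :=
    (HolGroup.hol γ hγ).contDiffAt (Up.isOpen.mem_nhds hp)
  have hφ := contDiffAt_Phi (ex_mem (γ : Up → Up) hp)
  have key : ∀ v : C3, gt (chartAt C3 x x) v =
      leviForm ((fun q => Phi (chartAt C3 x₀ q)) ∘ (chartAt C3 x).symm) (chartAt C3 x x) v := by
    intro v
    rw [leviForm_congr e, leviForm_comp hh hφ, leviForm_Phi (ex_mem (γ : Up → Up) hp)]
    exact (gt_deck hγ hp v).symm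
  refine ⟨?_, key⟩
  refine ContDiffAt.congr_of_eventuallyEq ?_ e
  exact hφ.comp _ ((hh.restrict_scalars ℝ).of_le (by simp))

end Pool.Agent.W711.KC
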