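import Pool.Agent.W711.KC.Defs

/-!
# Quotients of open subsets of a complex vector space by groups of biholomorphic maps
-/

set_option autoImplicit false

open scoped Manifold ContDiff Topology
open Set Filter TopologicalSpace

namespace Pool.Agent.W711.KC

variable {E : Type} [NormedAddCommGroup E] [NormedSpace ℂ E] [LocallyCompactSpace E] {U : Opens E}

open Classical in
/-- Extension of a self-map of `U` to `E`. -/
noncomputable def ex (σ : U → U) (x : E) : E := if h : x ∈ U then (σ ⟨x, h⟩ : E) else x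

omit [NormedSpace ℂ E] [LocallyCompactSpace E] in
theorem ex_apply (σ : U → U) (x : U) : ex σ (x : E) = σ x := by
  unfold ex
  rw [dif_pos x.2]

omit [NormedSpace ℂ E] [LocallyCompactSpace E] in
theorem ex_mem (σ : U → U) {x : E} (hx : x ∈ U) : ex σ x ∈ U := by
  rw [show x = ((⟨x, hx⟩ : U) : E) from rfl, ex_apply]
  exact (σ ⟨x, hx⟩).2

omit [NormedSpace ℂ E] [LocallyCompactSpace E] in
theorem continuous_of_ex {σ : U → U} (h : ContinuousOn (ex σ) U) : Continuous σ := by
  rw [continuous_induced_rng]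
  have h1 : ((fun x : U => (x : E)) ∘ σ) = (U : Set E).domRestrict (ex σ) := by
    funext x
    simp only [Function.comp_apply]
    exact (ex_apply σ x).symm
  rw [h1]
  exact h.domRestrict

/-- A group of biholomorphic self-maps of `U` acting freely and properly discontinuously. -/
class HolGroup (Γ : Subgroup (Equiv.Perm U)) : Prop where
  hol : ∀ γ ∈ Γ, ContDiffOn ℂ ω (ex (γ : U → U)) U
  free : ∀ γ ∈ Γ, ∀ x, γ x = x → γ = 1
  pd : ∀ K L : Set U, IsCompact K → IsCompact L →
    Set.Finite {γ : Γ | ((fun x => (γ : Equiv.Perm U) x) '' K ∩ L).Nonempty}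

variable (Γ : Subgroup (Equiv.Perm U)) [hΓ : HolGroup Γ]

instance : ContinuousConstSMul Γ U where
  continuous_const_smul γ := continuous_of_ex (hΓ.hol γ γ.2).continuousOn

instance : ProperlyDiscontinuousSMul Γ U where
  finite_disjoint_inter_image {K L} hK hL := hΓ.pd K L hK hL

instance : IsCancelSMul Γ U := by
  rw [isCancelSMul_iff_eq_one_of_smul_eq]
  intro g x h
  apply Subtype.ext
  exact hΓ.free g g.2 x h

instance : LocallyCompactSpace U := U.isOpen.locallyCompactSpace

/-- The quotient manifold `U / Γ`. -/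
abbrev QQ : Type := MulAction.orbitRel.Quotient Γ U

/-- The projection `U → U / Γ`. -/
def pr (y : U) : QQ Γ := Quotient.mk _ y

omit hΓ in
theorem pr_surj : Function.Surjective (pr Γ) := Quotient.mk_surjective

omit hΓ in
theorem continuous_pr : Continuous (pr Γ) := continuous_quotient_mk'

variable {Γ}

omit hΓ in
theorem pr_eq_iff {a b : U} : pr Γ a = pr Γ b ↔ ∃ γ ∈ Γ, γ a = b := by
  unfold pr
  rw [Quotient.eq'', MulAction.orbitRel_apply, MulAction.mem_orbit_iff]
  constructor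
  · rintro ⟨γ, h⟩
    refine ⟨(γ : Equiv.Perm U)⁻¹, Γ.inv_mem γ.2, ?_⟩
    rw [← h]
    change ((γ : Equiv.Perm U)⁻¹) ((γ : Equiv.Perm U) b) = b
    simp
  · rintro ⟨γ, hγ, h⟩
    refine ⟨⟨γ⁻¹, Γ.inv_mem hγ⟩, ?_⟩
    change γ⁻¹ b = a
    rw [← h]; simp

omit hΓ in
theorem pr_smul {γ : Equiv.Perm U} (hγ : γ ∈ Γ) (a : U) : pr Γ (γ a) = pr Γ a :=
  (pr_eq_iff.2 ⟨γ, hγ, rfl⟩).symm

theorem atlas_target {e : OpenPartialHomeomorph (QQ Γ) E} (he : e ∈ atlas E (QQ Γ)) {y : E}
    (hy : y ∈ e.target) : y ∈ U := by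
  obtain ⟨q, rfl⟩ := he
  rw [OpenPartialHomeomorph.trans_target] at hy
  have h1 := hy.1
  have := (chartAt E _).map_target h1
  have h2 : (chartAt E _) ((chartAt E _).symm y) = y := (chartAt E _).right_inv h1
  rw [← h2]
  exact ((chartAt E _).symm y : U).2

/-- charts of the atlas are local inverses of the projection. -/
theorem atlas_symm {e : OpenPartialHomeomorph (QQ Γ) E} (he : e ∈ atlas E (QQ Γ))
    {y : E} (hy : y ∈ e.target) : e.symm y = pr Γ ⟨y, atlas_target he hy⟩ := by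
  have hyU := atlas_target he hy
  obtain ⟨q, rfl⟩ := he
  rw [OpenPartialHomeomorph.trans_target] at hy
  have h1 := hy.1
  rw [OpenPartialHomeomorph.coe_trans_symm, Function.comp_apply, IsLocalHomeomorph.localInverseAt_symm]
  have h2 : (chartAt E _) ((chartAt E _).symm y) = y := (chartAt E _).right_inv h1
  have h3 : (chartAt E _).symm y = (⟨y, hyU⟩ : U) := Subtype.ext h2
  exact congrArg _ h3

theorem chart_mem {e : OpenPartialHomeomorph (QQ Γ) E} (he : e ∈ atlas E (QQ Γ)) {q : QQ Γ}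
    (hq : q ∈ e.source) : e q ∈ U := atlas_target he (e.map_source hq)

theorem pr_chart {e : OpenPartialHomeomorph (QQ Γ) E} (he : e ∈ atlas E (QQ Γ))
    {q : QQ Γ} (hq : q ∈ e.source) : pr Γ ⟨e q, chart_mem he hq⟩ = q := by
  rw [← atlas_symm he (e.map_source hq), e.left_inv hq]

theorem chart_injOn {e : OpenPartialHomeomorph (QQ Γ) E} (he : e ∈ atlas E (QQ Γ))
    {a b : E} (ha : a ∈ e.target) (hb : b ∈ e.target)
    (h : pr Γ ⟨a, atlas_target he ha⟩ = pr Γ ⟨b, atlas_target he hb⟩) : a = b := by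
  rw [← e.right_inv ha, ← e.right_inv hb, atlas_symm he ha, atlas_symm he hb, h]

/-- two charts differ locally by an element of `Γ`. -/
theorem deck {e e' : OpenPartialHomeomorph (QQ Γ) E} (he : e ∈ atlas E (QQ Γ))
    (he' : e' ∈ atlas E (QQ Γ)) {q : QQ Γ} (hq : q ∈ e.source) (hq' : q ∈ e'.source) :
    ∃ γ ∈ Γ, ex γ (e q) = e' q ∧ ∀ᶠ p in 𝓝 q, e' p = ex γ (e p) := by
  obtain ⟨γ, hγ, h⟩ := pr_eq_iff.1 ((pr_chart he hq).trans (pr_chart he' hq').symm)
  have h' : ex γ (e q) = e' q := by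
    have := ex_apply (γ : U → U) ⟨e q, chart_mem he hq⟩
    rw [h] at this
    exact this
  refine ⟨γ, hγ, h', ?_⟩
  have hc : ContinuousAt (fun p => ex γ (e p)) q := by
    refine ContinuousAt.comp (g := ex γ) ?_ (e.continuousAt hq)
    exact (hΓ.hol γ hγ).continuousOn.continuousAt (U.isOpen.mem_nhds (chart_mem he hq))
  have h1 : ∀ᶠ p in 𝓝 q, ex γ (e p) ∈ e'.target := by
    apply hc.eventually_mem
    rw [h']
    exact e'.open_target.mem_nhds (e'.map_source hq')
  filter_upwards [h1, e.open_source.mem_nhds hq, e'.open_source.mem_nhds hq'] with p hp1 hp2 hp3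
  apply chart_injOn he' (e'.map_source hp3) hp1
  have h4 : (⟨ex γ (e p), atlas_target he' hp1⟩ : U) = γ ⟨e p, chart_mem he hp2⟩ := by
    apply Subtype.ext
    exact ex_apply (γ : U → U) ⟨e p, chart_mem he hp2⟩
  rw [pr_chart he' hp3, h4, pr_smul hγ, pr_chart he hp2]

/-- the coordinate change between two charts is locally an element of `Γ`. -/
theorem deck_symm {e e' : OpenPartialHomeomorph (QQ Γ) E} (he : e ∈ atlas E (QQ Γ))
    (he' : e' ∈ atlas E (QQ Γ)) {y : E} (hy : y ∈ e.target) (hy' : e.symm y ∈ e'.source) :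
    ∃ γ ∈ Γ, ex γ y = e' (e.symm y) ∧ ∀ᶠ z in 𝓝 y, e' (e.symm z) = ex γ z := by
  obtain ⟨γ, hγ, h1, h2⟩ := deck he he' (e.map_target hy) hy'
  rw [e.right_inv hy] at h1
  refine ⟨γ, hγ, h1, ?_⟩
  have := (e.continuousAt_symm hy).eventually h2
  filter_upwards [this, e.open_target.mem_nhds hy] with z hz hz1
  rw [hz, e.right_inv hz1]

instance : IsManifold 𝓘(ℂ, E) ω (QQ Γ) := by
  apply isManifold_of_contDiffOn
  intro e e' he he' y hy
  simp only [modelWithCornersSelf_coe, modelWithCornersSelf_coe_symm, Function.comp_id,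
    Function.id_comp, preimage_id, range_id, inter_univ] at hy ⊢
  obtain ⟨hy1, hy2⟩ : y ∈ e.target ∧ e.symm y ∈ e'.source := by
    simpa using hy
  obtain ⟨γ, hγ, h1, h3⟩ := deck_symm he he' hy1 hy2
  apply ContDiffAt.contDiffWithinAt
  exact ((hΓ.hol γ hγ).contDiffAt (U.isOpen.mem_nhds (atlas_target he hy1))).congr_of_eventuallyEq
    (by
      filter_upwards [h3] with z hz
      simpa using hz)

variable (Γ) in
omit hΓ in
theorem compact_of_cover {K : Set U} (hK : IsCompact K)
    (h : ∀ y : U, ∃ γ ∈ Γ, γ y ∈ K) : CompactSpace (QQ Γ) := by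
  refine ⟨?_⟩
  have h1 : (univ : Set (QQ Γ)) = pr Γ '' K := by
    symm
    rw [eq_univ_iff_forall]
    intro q
    obtain ⟨y, rfl⟩ := pr_surj Γ q
    obtain ⟨γ, hγ, hy⟩ := h y
    exact ⟨γ y, hy, pr_smul hγ y⟩
  rw [h1]
  exact hK.image (continuous_pr Γ)

instance : T2Space (QQ Γ) := t2Space_of_properlyDiscontinuousSMul_of_t2Space

end Pool.Agent.W711.KC
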